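import Pool.Agent.W_448sd_h84.SdL

/-!
# The straight ends of the components with two elements on level 2 (MP_448cb3_co), final form
-/

namespace Pool.Agent.GaussPoset

set_option linter.unusedSectionVars false

open Polynomial Finset

universe u

variable {P : Type u} [Fintype P] [PartialOrder P] [DecidableEq P] {r j : ℕ}

open Cp

variable {lo hi : Tops P → ℕ → ℕ} {e : Tops P → ℕ → ℕ → P}

/-- the condition on the elements (C), levels 6 and 8 only -/
def NoCC (j : ℕ) (lo hi : Tops P → ℕ → ℕ) (e : Tops P → ℕ → ℕ → P) : Prop :=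
  j ≤ 8 → ∀ (t : Tops P) (z : P), StairShape j (lo t) (hi t) → lo t j = 0 →
    j % 2 = 0 → z ⋖ e t j (j / 2) → z ⋖ e t j 0 → False

/-- **no double at the straight end of a stair** -/
theorem NJ_stair_S_end (h : Wd.NJ P r j) (hj : 6 ≤ j)
    (C : ∀ t : Tops P, Comp j (t : P) (lo t) (hi t) (e t))
    (hS : ∀ t, Wd.Shape j (lo t) (hi t)) (hCC : NoCC j lo hi e)
    {t : Tops P} (S : StairShape j (lo t) (hi t)) (h0 : lo t j = 0) {x' : P}
    (hne : x' ≠ e t j 0) (hu : ucv (e t j 0) x' = 1) : dcv (e t j 0) x' ≤ 1 := by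
  refine stair_dcv_straight h hj C hS ?_ hCC S h0 hne hu
  rintro rfl t
  exact NJ_no_six h C hS t

/-- strips at level 1 -/
lemma NJ_level_one (h : Wd.NJ P r j) (hj : 1 ≤ j)
    (C : ∀ t : Tops P, Comp j (t : P) (lo t) (hi t) (e t))
    (hS : ∀ t, Wd.Shape j (lo t) (hi t)) (t : Tops P) :
    lo t 1 = hi t 1 ∨ RectShape j (lo t) (hi t) := by
  rcases hS t with h1 | ⟨h1, S'⟩ | ⟨h1, h2⟩ | ⟨h1, h2, h3⟩ | ⟨h1, h2⟩ | ⟨a, h0, h1, h2, h3, hN, h4⟩
  · left
    have e1 := h1 1 (by omega)
    omega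
  · exact Or.inr S'
  · left
    have e1 := h2.hi 1 (by omega)
    have e2 := (C t).lo_le 1 (by omega)
    omega
  · omega
  · subst h1
    exact absurd h2 (NJ_no_six h C hS t)
  · left
    have e1 := h2 1 (by omega)
    omega

/-- **no double at the straight end of a rectangle** -/
theorem NJ_rect_S_end (h : Wd.NJ P r j) (hj : 2 ≤ j)
    (C : ∀ t : Tops P, Comp j (t : P) (lo t) (hi t) (e t))
    (hS : ∀ t, Wd.Shape j (lo t) (hi t)) {t : Tops P} (ht : lo t 1 ≠ hi t 1) {x x' : P}
    (hx : lev x = j) (hxt : x ≤ (t : P)) (h1 : (Win.uc x).card = 1) (hne : x ≠ x') :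
    dcv x x' ≤ 1 :=
  rect_dcv_straight h.g hj h.no C (NJ_level_one h (by omega) C hS) ht hx hxt h1 hne

/-- **no double at a straight end of a component with two elements on level 2**: `x` is single-up,
with only one element of level 2 above it, and `x'` is its neighbour -/
theorem NJ_S_end (h : Wd.NJ P r j) (hj : 6 ≤ j)
    (C : ∀ t : Tops P, Comp j (t : P) (lo t) (hi t) (e t))
    (hS : ∀ t, Wd.Shape j (lo t) (hi t)) (hCC : NoCC j lo hi e)
    {t : Tops P} (h2 : lo t 2 ≠ hi t 2) {x x' : P} (hx : lev x = j) (hxt : x ≤ (t : P))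
    (h1 : (Win.uc x).card = 1) (hn : nab 2 x = 1) (hne : x ≠ x') (hu : ucv x x' = 1) :
    dcv x x' ≤ 1 := by
  classical
  have Ct := C t
  rcases hS t with g1 | ⟨g1, S'⟩ | ⟨g1, S⟩ | ⟨g1, g2, g3⟩ | ⟨g1, g2⟩ | ⟨a, g0, g1, g2, g3, hN, g4⟩
  · have e1 := g1 2 (by omega)
    omega
  · exact NJ_rect_S_end h (by omega) C hS (by omega) hx hxt h1 hne
  · rcases sd_single h.g hj Ct S hx hxt h1 with ⟨a1, a2⟩ | ⟨a1, a2⟩
    · rw [a2] at hne hu ⊢
      exact NJ_stair_S_end h hj C hS hCC S a1 hne.symm hu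
    · -- the fold end has two elements of level 2 above
      exfalso
      obtain ⟨Nc, co, q1, q2⟩ := exists_stair Ct h.g.H h.g.good h.g.H.gradedBelow S (i := 2)
        (by omega)
      have hxl : x ∈ lowPart j (t : P) := mem_lowPart.mpr ⟨hxt, hx.le⟩
      have e2 := S.hi j le_rfl
      have hlo : lo t j ≤ j / 2 := by
        have := Ct.lo_le j le_rfl
        omega
      have hc : co x = (j / 2, j / 2) := by
        rw [q2 x hxl]
        unfold ccoord
        rw [a2, scoord_e Ct (k := j) (s := j / 2) le_rfl hlo (by omega), ← a2, hx]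
        exact Prod.ext rfl (by simp only; omega)
      have h3 := stair_nab q1.chart (q1.strip hxl) (k := 2) (by omega)
      rw [hc] at h3
      simp only at h3
      omega
  · omega
  · subst g1
    exact absurd g2 (NJ_no_six h C hS t)
  · have e1 := g2 2 (by omega)
    omega

end Pool.Agent.GaussPoset
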