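import Pool.Agent.W_448sd_h84.SdJ

/-!
# No doubles at the straight end of a stair (MP_448cb3_co)
-/

namespace Pool.Agent.GaussPoset

set_option linter.unusedSectionVars false

open Polynomial Finset

universe u

variable {P : Type u} [Fintype P] [PartialOrder P] [DecidableEq P] {r j : ℕ}

open Cp

section One

variable {t : Tops P} {lo hi : ℕ → ℕ} {e : ℕ → ℕ → P}

/-- the single-up elements of the last level of a stair -/
lemma sd_single (h : Win.GoodTo P r j) (hj : 6 ≤ j) (C : Comp j (t : P) lo hi e)
    (S : StairShape j lo hi) {x : P} (hx : lev x = j) (hxt : x ≤ (t : P))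
    (h1 : (Win.uc x).card = 1) :
    (lo j = 0 ∧ x = e j 0) ∨ (j % 2 = 0 ∧ x = e j (j / 2)) := by
  obtain ⟨n, rfl⟩ : ∃ n, j = n + 1 := ⟨j - 1, by omega⟩
  obtain ⟨s, h2, h3, h4⟩ := C.surj x hxt (by omega)
  rw [hx] at h2 h3 h4
  have h5 := C.toWin.uc_two h t.2 (k := n) (by omega) h2 h3
  rw [h4, h1] at h5
  have e1 := S.hi n (by omega)
  have e2 := S.hi (n + 1) le_rfl
  have e3 := S.lo n (by omega)
  have e4 := C.lo_step n (by omega)
  have h6 : ¬ (lo n < s ∧ s ≤ hi n) := fun h => absurd (h5.mpr h) (by norm_num)
  by_cases h7 : s ≤ hi n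
  · left
    have h8 : s = 0 := by omega
    refine ⟨by omega, ?_⟩
    rw [← h4, h8]
  · right
    refine ⟨by omega, ?_⟩
    rw [← h4]
    congr 1
    omega

end One

section All

variable {lo hi : Tops P → ℕ → ℕ} {e : Tops P → ℕ → ℕ → P}

/-- **No double at the straight end of a stair-like component.**  All levels less than `j` are
good, `6 ≤ j`, no element of level `j + 1` is below two maximal elements.  `hCC`: on the levels 6
and 8 no element of level `j + 1` is below both ends of a stair.  Then the single-up element of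
level `j` at the straight end of a stair has at most one common lower cover with its
neighbour. -/
theorem stair_dcv_straight (h : Wd.NJ P r j) (hj : 6 ≤ j)
    (C : ∀ t : Tops P, Comp j (t : P) (lo t) (hi t) (e t))
    (hS : ∀ t, Wd.Shape j (lo t) (hi t)) (h6 : j = 6 → ∀ t, ¬ Wd.F1 (lo t) (hi t))
    (hCC : j ≤ 8 → ∀ (t : Tops P) (z : P), StairShape j (lo t) (hi t) → lo t j = 0 →
      j % 2 = 0 → z ⋖ e t j (j / 2) → z ⋖ e t j 0 → False)
    {t : Tops P} (S : StairShape j (lo t) (hi t)) (h0 : lo t j = 0) {x' : P}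
    (hne : x' ≠ e t j 0) (hu : ucv (e t j 0) x' = 1) : dcv (e t j 0) x' ≤ 1 := by
  classical
  by_contra hcon
  obtain ⟨N, θ, W, hI⟩ := exists_W2 h hj C hS h6
  have H := h.g.H
  have HN := W.natSys
  have T := W.twSys
  -- no element below both ends
  have hNC : NoCc j N θ := by
    rintro hj8 z hz hl ⟨x, x', Nc, co, m, hIn, hcx, hjm, hx', hcx', hzx, hzx'⟩
    have Ch := hIn.stair.chart
    have hlx : lev x = j := by
      have := (H.covBy_iff.mp hzx).2
      omega
    have hlx' : lev x' = j := by
      have := (H.covBy_iff.mp hzx').2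
      omega
    have hne : x ≠ x' := by
      rintro rfl
      rw [hcx] at hcx'
      simp only [Prod.mk.injEq] at hcx'
      omega
    have ht : topOf x = topOf z := W.top_cov hl hzx
    have ht' : topOf x' = topOf z := W.top_cov hl hzx'
    have hxt : x ≤ (topOf z : P) := by rw [← ht]; exact le_topOf x
    have hxt' : x' ≤ (topOf z : P) := by rw [← ht']; exact le_topOf x'
    -- single-up, no common cover
    have hcov : ∀ y, x ⋖ y → co y = (m - 1, m) := by
      intro y hy
      have hyN := Ch.up _ hIn.mem y hy.1.le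
      have h9 : (co y).1 ≤ (co y).2 := Ch.mem y hyN
      have e := (chart_cov Ch H hIn.mem hyN).mp hy
      rw [hcx] at e
      rcases e with e | e
      · have e1 := e.1
        have e2 := e.2
        simp only at e1 e2
        exact Prod.ext (by simp only; omega) (by simp only; omega)
      · have e1 := e.1
        have e2 := e.2
        simp only at e1 e2
        omega
    have hcov' : ∀ y, x' ⋖ y → co y = (0, 2 * m - 1) := by
      intro y hy
      have hyN := Ch.up _ hx' y hy.1.le
      have e := (chart_cov Ch H hx' hyN).mp hy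
      rw [hcx'] at e
      rcases e with e | e
      · have e1 := e.1
        simp only at e1
        omega
      · have e1 := e.1
        have e2 := e.2
        simp only at e1 e2
        exact Prod.ext (by simp only; omega) (by simp only; omega)
    have hone : ∀ (w : P) (p : ℕ × ℕ), lev w = j → w ∈ Nc → (∀ y, w ⋖ y → co y = p) →
        (Win.uc w).card = 1 := by
      intro w p hlw hwN hp
      have hwt : w < (topOf w : P) := lt_of_le_of_ne (le_topOf w) (by
        intro h
        have := (topOf w).2
        rw [← h] at this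
        omega)
      obtain ⟨y, hy, -⟩ := Hul.exists_cov hwt
      rw [Finset.card_eq_one]
      refine ⟨y, ?_⟩
      ext v
      rw [Win.mem_uc, mem_singleton]
      constructor
      · intro hv
        refine Ch.inj v (Ch.up _ hwN v hv.1.le) y (Ch.up _ hwN y hy.1.le) ?_
        rw [hp v hv, hp y hy]
      · rintro rfl
        exact hy
    have hx1 := hone x _ hlx hIn.mem hcov
    have hx1' := hone x' _ hlx' hx' hcov'
    have huc : ucv x x' = 0 := by
      unfold ucv
      rw [Finset.card_eq_zero, Finset.eq_empty_iff_forall_notMem]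
      intro y hy
      rw [mem_filter] at hy
      have e1 := hcov y hy.2.1
      have e2 := hcov' y hy.2.2
      rw [e1, Prod.mk.injEq] at e2
      omega
    have hnb : nab 2 x = 2 := by
      have h3 := stair_nab Ch hIn.mem (k := 2) (by omega)
      rw [hcx] at h3
      simp only at h3
      omega
    -- levels with one element
    have hnl : lo (topOf z) 2 = hi (topOf z) 2 → False := by
      intro hq
      have h3 : (lv P 2).filter (fun w => x ≤ w) ⊆ {e (topOf z) 2 (lo (topOf z) 2)} := by
        intro w hw
        rw [mem_filter, mem_lv] at hw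
        rw [mem_singleton]
        have hwt : w ≤ (topOf z : P) := by
          have h4 : topOf w = topOf x := (HN.cp x w hw.2 (W.low hlx.le)).symm
          rw [← ht, ← h4]
          exact le_topOf w
        obtain ⟨s, s1, s2, s3⟩ := (C (topOf z)).surj w hwt (by omega)
        rw [hw.1] at s1 s2 s3
        rw [← s3]
        congr 1
        omega
      have h4 := Finset.card_le_card h3
      rw [Finset.card_singleton] at h4
      unfold nab at hnb
      omega
    have htj : lo (topOf z) j ≠ hi (topOf z) j := by
      intro hq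
      obtain ⟨s, s1, s2, s3⟩ := (C (topOf z)).surj x hxt (by omega)
      obtain ⟨s', s1', s2', s3'⟩ := (C (topOf z)).surj x' hxt' (by omega)
      rw [hlx] at s1 s2 s3
      rw [hlx'] at s1' s2' s3'
      apply hne
      rw [← s3, ← s3']
      congr 1
      omega
    by_cases S' : StairShape j (lo (topOf z)) (hi (topOf z))
    · rcases sd_single h.g hj (C _) S' hlx hxt hx1 with ⟨a1, a2⟩ | ⟨a1, a2⟩
      · rcases sd_single h.g hj (C _) S' hlx' hxt' hx1' with ⟨b1, b2⟩ | ⟨b1, b2⟩
        · exact hne (a2.trans b2.symm)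
        · exact hCC hj8 (topOf z) z S' a1 b1 (b2 ▸ hzx') (a2 ▸ hzx)
      · rcases sd_single h.g hj (C _) S' hlx' hxt' hx1' with ⟨b1, b2⟩ | ⟨b1, b2⟩
        · exact hCC hj8 (topOf z) z S' b1 a1 (a2 ▸ hzx) (b2 ▸ hzx')
        · exact hne (a2.trans b2.symm)
    · rcases hS (topOf z) with h1 | ⟨h1, S''⟩ | ⟨h1, h2⟩ | ⟨h1, h2, h3⟩ | ⟨h1, h2⟩ |
        ⟨a, g0, h1, h2, h3, hN, h4⟩
      · have e1 := h1 2 (by omega)
        exact hnl (by omega)
      · have hT : ∀ t : Tops P, lo t 1 = hi t 1 ∨ RectShape j (lo t) (hi t) := by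
          intro t
          rcases hS t with h1 | ⟨h1, S'⟩ | ⟨h1, h2⟩ | ⟨h1, h2, h3⟩ | ⟨h1, h2⟩ |
            ⟨a, h0, h1, h2, h3, hN, h4⟩
          · left
            have e1 := h1 1 (by omega)
            omega
          · exact Or.inr S'
          · left
            have e1 := h2.hi 1 (by omega)
            have e2 := (C t).lo_le 1 (by omega)
            omega
          · omega
          · exact absurd h2 (h6 h1 t)
          · left
            have e1 := h2 1 (by omega)
            omega
        have := rect_no_rotation h.g (by omega) h.no C hT (t := topOf z) (by omega) hl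
          (le_topOf z) hzx hzx' hne
        omega
      · exact S' h2
      · omega
      · exact h6 h1 _ h2
      · have e1 := h2 2 (by omega)
        exact hnl (by omega)
  -- the straight end
  obtain ⟨Nc, co, g0, g1, g2, g3⟩ := hI t S
  have hhi := S.hi j le_rfl
  have hlx := (C t).lev_e j 0 le_rfl (by omega) (by omega)
  have hxt := (C t).le_t j 0 le_rfl (by omega) (by omega)
  set x := e t j 0 with hxdef
  have hxl : x ∈ lowPart j (t : P) := mem_lowPart.mpr ⟨hxt, hlx.le⟩
  have hxN : x ∈ Nc := g0.strip hxl
  have hcx : co x = (0, j) := by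
    rw [g3 x hxl]
    unfold ccoord
    rw [hxdef, scoord_e (C t) (k := j) (s := 0) le_rfl (by omega) (by omega), ← hxdef, hlx]
    rfl
  obtain ⟨z, z', hz, hz', hzz⟩ := Finset.one_lt_card_iff.mp (not_le.mp hcon)
  have hz2 : z ⋖ x ∧ z ⋖ x' := by simpa using hz
  have hz2' : z' ⋖ x ∧ z' ⋖ x' := by simpa using hz'
  have hlz : ∀ w : P, w ⋖ x → lev w = j + 1 := fun w hw => by
    have := (H.covBy_iff.mp hw).2
    omega
  have htop : ∀ w : P, w ⋖ x → topOf w = t := by
    intro w hw
    have h5 := W.top_cov (hlz w hw) hw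
    have h7 : topOf x = t := HN.topOf_eq (by rw [g1]; exact mem_natS.mpr (Or.inl hxN))
    rw [← h5, h7]
  have hlx' : lev x' = j := by
    have := (H.covBy_iff.mp hz2.2).2
    have := hlz z hz2.1
    omega
  have hxt' : x' ≤ (t : P) := by
    rw [← htop z hz2.1, ← W.top_cov (hlz z hz2.1) hz2.2]
    exact le_topOf x'
  have hxN' : x' ∈ Nc := g0.strip (mem_lowPart.mpr ⟨hxt', by omega⟩)
  have Ch := g0.chart
  -- natural elements below both
  have hcell : ∀ w : P, w ⋖ x → w ⋖ x' → w ∉ unnat N → topOf w = t →
      w ∈ Nc ∧ co w = (1, j) := by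
    intro w hwx hwx' hw hwt
    have hwN := HN.mem_iff.mpr ⟨hw, hwt⟩
    rw [g1, mem_natS] at hwN
    have hJ : w ∉ junk (fun c => c.1 ≤ c.2) Nc co := by
      intro hzJ
      have hcl := Ch.lev x hxN
      have hcl' := Ch.lev x' hxN'
      obtain ⟨x1, H1, hz1⟩ := mem_junk.mp hzJ
      rw [mem_jset] at hz1
      have h1 : ∀ y, w ⋖ y → y = x1 ∨ y < x1 := by
        intro y hy
        rcases hz1.2 y hy.1.le with h | h
        · exact eq_or_lt_of_le h
        · rcases eq_or_lt_of_le h with h | h
          · exact Or.inl h.symm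
          · exact absurd h (hy.2 hz1.1)
      rcases h1 x hwx with h | h
      · rcases h1 x' hwx' with h' | h'
        · exact hne (h'.trans h.symm)
        · have := lev_strictAnti h'
          rw [← h] at this
          omega
      · rcases h1 x' hwx' with h' | h'
        · have := lev_strictAnti h
          rw [← h'] at this
          omega
        · have e1 := (H1.tail Ch hxN h).1
          have e2 := (H1.tail Ch hxN' h').1
          exact hne (Ch.inj x' hxN' x hxN (Prod.ext (by omega) (by omega)))
    have hwc := hwN.resolve_right hJ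
    refine ⟨hwc, ?_⟩
    have f1 := (chart_cov Ch H hwc hxN).mp hwx
    have f2 := (chart_cov Ch H hwc hxN').mp hwx'
    have hcne : co x ≠ co x' := fun h => hne (Ch.inj x hxN x' hxN' h).symm
    have hcne' : ¬ ((co x).1 = (co x').1 ∧ (co x).2 = (co x').2) :=
      fun h => hcne (Prod.ext h.1 h.2)
    have hcl' := Ch.lev x' hxN'
    rw [hcx] at f1 hcne'
    unfold Prd at f1 f2
    simp only at f1 hcne'
    exact Prod.ext (by simp only; omega) (by simp only; omega)
  have hnr : ∀ w : P, w ⋖ x → w ⋖ x' → w ∉ r2 j N := fun w hwx hwx' hw =>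
    W.near hw (hlz w hwx) hwx hwx' hne.symm hu
  have htw : ∀ w : P, w ⋖ x → w ⋖ x' → w ∉ unnat N := by
    intro w hwx hwx' hwU
    have hY : w ∈ twY j N := by
      by_contra hY
      exact hnr w hwx hwx' (mem_sdiff.mpr ⟨hwU, hY⟩)
    have hy1 : twT N w ⋖ x := (T.cov hY).mpr hwx
    have hy2 : twT N w ⋖ x' := (T.cov hY).mpr hwx'
    have hyt : topOf (twT N w) = t := by rw [T.cp w hY]; exact htop w hwx
    obtain ⟨hyN, hcy⟩ := hcell _ hy1 hy2 (T.nat w hY) hyt
    refine W.no_row1 hNC hY ?_ ?_
    · rw [hyt, g2]
      unfold thS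
      rw [if_neg (sd_not_junk Ch hyN (by rw [hcy])), hcy]
      simp only
      omega
    · intro k hk hk2
      have h3 := stair_nab Ch hyN (k := k) (by rw [Ch.lev _ hyN, hcy]; simp only; omega)
      rw [hcy] at h3
      simp only at h3
      omega
  obtain ⟨a1, a2⟩ := hcell z hz2.1 hz2.2 (htw z hz2.1 hz2.2) (htop z hz2.1)
  obtain ⟨b1, b2⟩ := hcell z' hz2'.1 hz2'.2 (htw z' hz2'.1 hz2'.2) (htop z' hz2'.1)
  exact hzz (Ch.inj z a1 z' b1 (a2.trans b2.symm))

end All

end Pool.Agent.GaussPoset
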