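import Pool.Agent.W_448sd_h84.SdK

/-!
# No component of the shape `F1` (MP_448cb3_co): level 6, window 2, energy 12
-/

namespace Pool.Agent.GaussPoset

set_option linter.unusedSectionVars false

open Polynomial Finset

universe u

variable {P : Type u} [Fintype P] [PartialOrder P] [DecidableEq P] {r : ℕ}
  {N : Tops P → Finset P} {b : Tops P → ℕ} {θ : Tops P → P → ℕ}

open Cp

/-- the types at window 2, level 6, the word `F1` allowed -/
inductive Ty6 (N : Tops P → Finset P) (t : Tops P) (b : ℕ) (θ : P → ℕ) : Prop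
  | light (h1 : N t = onlyB t) (h2 : θ = fun x => lev x - 2) (h3 : b = 1)
      (h6 : ∃ x ≤ (t : P), lev x = 2)
  | rect (Nc : Finset P) (co : P → ℕ × ℕ) (h0 : RectNat 6 2 t b Nc co)
      (h1 : N t = natR Nc co) (h2 : θ = thR 2 b Nc co)
  | stair (Nc : Finset P) (co : P → ℕ × ℕ) (h0 : StairNat 5 2 t Nc co)
      (h1 : N t = natS Nc co) (h2 : θ = thS 2 Nc co) (h3 : b = 2)
      (h6 : ∀ z ≤ (t : P), lev z = 6 → z ∈ Nc ∨ ∃ x ∈ Nc, co x = (1, 4) ∧ Pend z x)

/-- the context -/
structure V6 (r : ℕ) (N : Tops P → Finset P) (b : Tops P → ℕ) (θ : Tops P → P → ℕ) :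
    Prop where
  gt : Win.GoodTo P r 6
  typ : ∀ t, Ty6 N t (b t) (θ t)
  sum_b : ∑ t, b t = (lv P 2).card
  nj : ∀ z : P, lev z = 7 → ¬ Hul.Jn z

lemma V6.lowOnly (W : V6 r N b θ) {t : Tops P} {x : P} (hx : x ≤ (t : P))
    (hl : lev x ≤ 7) : x ∈ onlyB t := by
  rw [mem_onlyB]
  intro s hs hxs
  by_contra hne
  rcases Nat.lt_or_ge 6 (lev x) with h | h
  · exact W.nj x (by omega) ⟨s, t, hs, t.2, hne, hxs, hx⟩
  · exact hne (Cp.top_eq W.gt.H W.gt.good h hs t.2 hxs hx)

lemma V6.topOf_eq (W : V6 r N b θ) {t : Tops P} {x : P} (hx : x ≤ (t : P))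
    (hl : lev x ≤ 7) : topOf x = t := by
  have h := W.lowOnly hx hl
  rw [mem_onlyB] at h
  exact Subtype.ext (h (topOf x) (topOf x).2 (le_topOf x))

theorem V6.natTop (W : V6 r N b θ) (t : Tops P) : ∃ B, NatTop 2 t (b t) (N t) (θ t) B := by
  have hgr := W.gt.H.gradedBelow
  rcases W.typ t with ⟨h1, h2, h3, h6⟩ | ⟨Nc, co, h0, h1, h2⟩ | ⟨Nc, co, h0, h1, h2, h3, h4⟩
  · rw [h1, h2, h3]
    exact ⟨_, natTop_light hgr (fun x hx hxi => W.lowOnly hx (by omega)) h6⟩
  · rw [h1, h2]
    exact ⟨_, h0.natTop hgr (by omega)⟩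
  · rw [h1, h2, h3]
    exact ⟨_, h0.natTop hgr (by omega) (by omega)⟩

lemma V6.natSys (W : V6 r N b θ) : NatSys N := by
  choose B hB using W.natTop
  exact natSys_of_tops hB

/-- far data -/
theorem V6.far (W : V6 r N b θ) :
    FarData P 2 (unnat N) (lv P 2).card (hcan (unnat N) (fun x => θ (topOf x) x)) := by
  choose B hB using W.natTop
  have h := farData_of_tops W.gt.H.gradedBelow hB
  rw [W.sum_b] at h
  exact h

/-- elements of level at most 6: natural or a pendant below the cell `(1, 4)` -/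
lemma V6.low (W : V6 r N b θ) {x : P} (hx : lev x ≤ 6) (hU : x ∈ unnat N) :
    lev x = 6 ∧ ∃ Nc co, StairNat 5 2 (topOf x) Nc co ∧ θ (topOf x) = thS 2 Nc co ∧
      N (topOf x) = natS Nc co ∧ ∃ y ∈ Nc, co y = (1, 4) ∧ Pend x y := by
  have hn := mem_unnat.mp hU (topOf x)
  rcases W.typ (topOf x) with ⟨h1, h2, h3, h6⟩ | ⟨Nc, co, h0, h1, h2⟩ |
    ⟨Nc, co, h0, h1, h2, h3, h4⟩
  · exfalso
    refine hn ?_
    rw [h1]
    exact W.lowOnly (le_topOf x) (by omega)
  · exfalso
    refine hn ?_
    rw [h1]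
    exact mem_natR.mpr (Or.inl (h0.strip (mem_lowPart.mpr ⟨le_topOf x, by omega⟩)))
  · by_cases hl : lev x = 6
    · refine ⟨hl, Nc, co, h0, h2, h1, ?_⟩
      rcases h4 x (le_topOf x) hl with h | h
      · exfalso
        refine hn ?_
        rw [h1]
        exact mem_natS.mpr (Or.inl h)
      · exact h
    · exfalso
      refine hn ?_
      rw [h1]
      exact mem_natS.mpr (Or.inl (h0.strip (mem_lowPart.mpr ⟨le_topOf x, by omega⟩)))

/-- natural elements of level at least 6 -/
theorem V6.cases (W : V6 r N b θ) {x : P} (hx : x ∉ unnat N) (hl : 6 ≤ lev x) :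
    (θ (topOf x) x = lev x - 2 ∧
      ∀ z ∈ unnat N, z ≤ x → ∀ k, 2 ≤ k → k ≤ lev x → 2 ≤ nab k z) ∨
    (3 ≤ θ (topOf x) x + 1 ∧ 2 ≤ nab 3 x ∧ 2 ≤ nab 4 x) := by
  have H := W.gt.H
  have HN := W.natSys
  have hxt : x ∈ N (topOf x) := HN.mem_iff.mpr ⟨hx, rfl⟩
  have hT := W.typ (topOf x)
  generalize ht : topOf x = t at hxt hT
  rcases hT with ⟨h1, h2, h3, h6⟩ | ⟨Nc, co, h0, h1, h2⟩ | ⟨Nc, co, h0, h1, h2, h3, h4⟩
  · left
    have hs : ∀ z ∈ unnat N, ∃ s : P, lev s = 0 ∧ z ≤ s ∧ s ≠ t := by
      intro z hz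
      have h7 : z ∉ onlyB t := by
        rw [← h1]
        exact mem_unnat.mp hz t
      rw [mem_onlyB] at h7
      push Not at h7
      exact h7
    refine ⟨by rw [h2], ?_⟩
    intro z hz hzx k _ hk
    obtain ⟨s, hs1, hs2, hs3⟩ := hs z hz
    exact two_le_nab_join HN H.gradedBelow hxt hzx hs1 hs3 hs2 hk
  · by_cases hJ : x ∈ junk (fun _ => True) Nc co ∨ x ∈ junk (fun _ => True) Nc (swp co)
    · left
      refine ⟨?_, ?_⟩
      · rw [h2]
        unfold thR
        rw [if_pos hJ]
      · intro z hz hzx k hk hkx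
        refine rect_two_le_nab H h0 h1 hz hzx ?_ (by omega) hkx
        rcases hJ with h | h
        · exact Or.inl h
        · exact Or.inr (Or.inl h)
    · have hxN : x ∈ Nc := by
        rw [h1, mem_natR] at hxt
        rcases hxt with h | h | h
        · exact h
        · exact absurd (Or.inl h) hJ
        · exact absurd (Or.inr h) hJ
      have hlc := h0.chart.lev x hxN
      have hb1 := h0.b_two
      have hb2 := h0.b_le
      have hrow : b t = 2 + 1 ∨ (co x).1 ≤ b t - 1 := by
        rcases h0.rows with h | h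
        · exact Or.inl h
        · exact Or.inr (h x hxN)
      by_cases h7 : (co x).1 = 0 ∨ (co x).2 = 0
      · left
        refine ⟨?_, ?_⟩
        · rw [h2]
          unfold thR
          rw [if_neg hJ]
          omega
        · intro z hz hzx k hk hkx
          exact rect_two_le_nab H h0 h1 hz hzx (Or.inr (Or.inr ⟨hxN, h7⟩)) (by omega) hkx
      · right
        have h3' := rect_nab h0.chart hxN (k := 3) (by omega)
        have h4' := rect_nab h0.chart hxN (k := 4) (by omega)
        refine ⟨?_, by omega, by omega⟩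
        rw [h2]
        unfold thR
        rw [if_neg hJ]
        omega
  · by_cases hJ : x ∈ junk (fun c => c.1 ≤ c.2) Nc co
    · left
      refine ⟨?_, ?_⟩
      · rw [h2]
        unfold thS
        rw [if_pos hJ]
      · intro z hz hzx k hk hkx
        exact stair_two_le_nab H h0 h1 hz hzx (Or.inl hJ) hk hkx
    · have hxN : x ∈ Nc := by
        rw [h1, mem_natS] at hxt
        rcases hxt with h | h
        · exact h
        · exact absurd h hJ
      have hlc := h0.chart.lev x hxN
      have hm : (co x).1 ≤ (co x).2 := h0.chart.mem x hxN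
      by_cases h7 : (co x).1 = 0
      · left
        refine ⟨?_, ?_⟩
        · rw [h2]
          unfold thS
          rw [if_neg hJ]
          omega
        · intro z hz hzx k hk hkx
          exact stair_two_le_nab H h0 h1 hz hzx (Or.inr ⟨hxN, h7⟩) hk hkx
      · right
        have h3' := stair_nab h0.chart hxN (k := 3) (by omega)
        have h4' := stair_nab h0.chart hxN (k := 4) (by omega)
        refine ⟨?_, by omega, by omega⟩
        rw [h2]
        unfold thS
        rw [if_neg hJ]
        omega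

/-- a lower bound -/
lemma sd_ct3 {u : P} (hl : 6 ≤ lev u) (h3 : 2 ≤ nab 3 u) (h4 : 2 ≤ nab 4 u) :
    12 ≤ ct 2 3 u := by
  unfold ct
  rw [cst_eq]
  have h5 : ∑ k ∈ range (5 + 1), min 3 (k - 2) * nab k u + min 3 (lev u - 2) * nab (lev u) u ≤
      ∑ k ∈ range (lev u + 1), min 3 (k - 2) * nab k u := by
    rw [Finset.sum_range_succ (fun k => min 3 (k - 2) * nab k u) (lev u)]
    exact Nat.add_le_add_right (Finset.sum_le_sum_of_subset (Finset.range_mono (by omega))) _
  have h6 := one_le_nab (l := 5) (z := u) (by omega)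
  have h7 : ∑ k ∈ range (5 + 1), min 3 (k - 2) * nab k u =
      nab 3 u + 2 * nab 4 u + 3 * nab 5 u := by
    simp [Finset.sum_range_succ]
  rw [h7, nab_self, Nat.min_eq_left (by omega)] at h5
  omega

/-- all boundary elements are expensive or special -/
theorem V6.bd (W : V6 r N b θ) {z : P} (hz : z ∈ bdR (unnat N)) :
    12 < cst 2 (hcan (unnat N) (fun x => θ (topOf x) x)) z ∨
    (cst 2 (hcan (unnat N) (fun x => θ (topOf x) x)) z = 12 ∧ nab 2 z = 2 ∧
      nab (2 + hcan (unnat N) (fun x => θ (topOf x) x) z) z = 1 ∧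
      nst 2 (hcan (unnat N) (fun x => θ (topOf x) x)) z = 6) := by
  classical
  have H := W.gt.H
  have hzR : z ∈ unnat N := (mem_filter.mp hz).1
  obtain ⟨u, hu, hzu, hh⟩ := hcan_spec (θ := fun x => θ (topOf x) x) hz
  have hlu := (H.covBy_iff.mp hzu).2
  rcases Nat.lt_or_ge 6 (lev z) with hl | hl
  · left
    have h5 := W.far.le_lev z hz
    rcases W.cases hu (by omega) with ⟨h1, h2⟩ | ⟨h1, h2, h3⟩
    · have h3 := sq_le_cst (i := 2) (h := hcan (unnat N) (fun x => θ (topOf x) x)) (z := z)
        (by omega) (by rw [hh, h1]; omega) (by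
          intro k hk hk2
          exact h2 z hzR hzu.le k (by omega) (by omega))
      refine lt_of_lt_of_le ?_ h3
      have : 5 * 5 ≤ (lev z - 2) ^ 2 := by
        rw [pow_two]
        exact Nat.mul_le_mul (by omega) (by omega)
      omega
    · have h7 := ct_cov (i := 2) (k := hcan (unnat N) (fun x => θ (topOf x) x) z) hzu.1
      rw [Nat.min_eq_left h5] at h7
      have h8 := sd_ct3 (u := u) (by omega) h2 h3
      have h9 := ct_mono (i := 2) (le_refl u)
        (show 3 ≤ hcan (unnat N) (fun x => θ (topOf x) x) z by rw [hh]; exact h1)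
      rw [cst_ct (k := hcan (unnat N) (fun x => θ (topOf x) x) z) rfl]
      rw [hh] at h7 h9 ⊢
      omega
  · right
    obtain ⟨hl6, Nc, co, h0, h2, h1, y, hy, hcy, hP⟩ := W.low hl hzR
    have huy : u = y := hP.2 u hzu
    subst huy
    have hlc := h0.chart.lev u hy
    rw [hcy] at hlc
    simp only at hlc
    have htu : topOf u = topOf z := by
      refine W.topOf_eq (h0.chart.le_t u hy) (by omega)
    have hth : θ (topOf u) u = 2 := by
      rw [htu, h2]
      unfold thS
      rw [if_neg (sd_not_junk h0.chart hy (by rw [hcy])), hcy]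
      rfl
    have hlab : hcan (unnat N) (fun x => θ (topOf x) x) z = 3 := by
      rw [hh, hth]
    have hn : ∀ k, k ≤ 5 → nab k z = min (k / 2) 1 + 1 - (k - 4) := by
      intro k hk
      rw [nab_pend hP (l := k) (by omega)]
      have h3 := stair_nab h0.chart hy (k := k) (by omega)
      rw [hcy] at h3
      simp only at h3
      omega
    refine ⟨?_, ?_, ?_, ?_⟩
    · rw [cst_eq, hlab, hl6, Finset.sum_range_succ, ← hl6, nab_self, hl6]
      rw [Finset.sum_congr rfl (g := fun k => min 3 (k - 2) * (min (k / 2) 1 + 1 - (k - 4)))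
        (fun k hk => by rw [mem_range] at hk; rw [hn k (by omega)])]
      decide
    · rw [hn 2 (by omega)]
      decide
    · rw [hlab, hn (2 + 3) (by omega)]
      decide
    · rw [nst_eq, hlab]
      rw [Finset.sum_congr rfl (g := fun k => min ((2 + k) / 2) 1 + 1 - (2 + k - 4))
        (fun k hk => by rw [mem_range] at hk; rw [hn (2 + k) (by omega)])]
      decide

/-- no special boundary element -/
theorem V6.kill (W : V6 r N b θ) {z : P} (hz : z ∈ unnat N) (hl : lev z = 6) : False := by
  classical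
  have H := W.gt.H
  have hbd : z ∈ bdR (unnat N) := by
    have hzt : z < (topOf z : P) := lt_of_le_of_ne (le_topOf z) (by
      intro h
      have := (topOf z).2
      rw [← h] at this
      omega)
    obtain ⟨x, hzx, -⟩ := Hul.exists_cov hzt
    refine mem_filter.mpr ⟨hz, x, fun h => ?_, hzx⟩
    have h1 := (H.covBy_iff.mp hzx).2
    have := (W.low (by omega) h).1
    omega
  set hf := hcan (unnat N) (fun x => θ (topOf x) x) with hhf
  have hge : ∀ y ∈ bdR (unnat N), 12 ≤ cst 2 hf y := by
    intro y hy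
    rcases W.bd hy with h | ⟨h, -⟩
    · exact h.le
    · exact h.ge
  have hd := W.far.dvd_lead (n := 12) hge
  have hZ := dvd_Z W.gt.H.gauss 2 12
  set T := (bdR (unnat N)).filter (fun y => cst 2 hf y = 12) with hTdef
  have hTe : ∀ y ∈ T, nab 2 y = 2 ∧ nab (2 + hf y) y = 1 ∧ nst 2 hf y = 6 := by
    intro y hy
    rw [hTdef, mem_filter] at hy
    rcases W.bd hy.1 with h | ⟨-, h⟩
    · rw [← hhf] at h
      omega
    · exact h
  have hzT : z ∈ T := by
    rw [hTdef, mem_filter]
    refine ⟨hbd, ?_⟩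
    have h5 := W.far.le_lev z hbd
    rw [← hhf] at h5
    rcases W.bd hbd with h | ⟨h, -⟩
    · exfalso
      obtain ⟨u, hu, hzu, hh⟩ := hcan_spec (θ := fun x => θ (topOf x) x) hbd
      obtain ⟨-, Nc, co, h0, h2, h1, y, hy, hcy, hP⟩ := W.low hl.le hz
      have huy : u = y := hP.2 u hzu
      subst huy
      have hlc := h0.chart.lev u hy
      rw [hcy] at hlc
      simp only at hlc
      have htu : topOf u = topOf z := W.topOf_eq (h0.chart.le_t u hy) (by omega)
      have hth : θ (topOf u) u = 2 := by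
        rw [htu, h2]
        unfold thS
        rw [if_neg (sd_not_junk h0.chart hy (by rw [hcy])), hcy]
        rfl
      have hlab : hcan (unnat N) (fun x => θ (topOf x) x) z = 3 := by
        rw [hh, hth]
      have hn : ∀ k, k ≤ 5 → nab k z = min (k / 2) 1 + 1 - (k - 4) := by
        intro k hk
        rw [nab_pend hP (l := k) (by omega)]
        have h3 := stair_nab h0.chart hy (k := k) (by omega)
        rw [hcy] at h3
        simp only at h3
        omega
      have : cst 2 (hcan (unnat N) (fun x => θ (topOf x) x)) z = 12 := by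
        rw [cst_eq, hlab, hl, Finset.sum_range_succ, ← hl, nab_self, hl]
        rw [Finset.sum_congr rfl (g := fun k => min 3 (k - 2) * (min (k / 2) 1 + 1 - (k - 4)))
          (fun k hk => by rw [mem_range] at hk; rw [hn k (by omega)])]
        decide
      omega
    · exact h
  have hcard : 2 ≤ (lv P 2).card := by
    have h3 := (hTe z hzT).1
    have h4 := nab_le z 2
    omega
  have hs := sign_sum_of_dvd (h := hf) T hZ hd (c0 := (lv P 2).card - 1) (by omega) (by
    intro y hy
    obtain ⟨h3, h4, -⟩ := hTe y hy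
    rw [h3, h4]
    omega)
  have hTf : T.filter (fun y => (lv P 2).card - 1 + nab 2 y =
      (lv P 2).card + nab (2 + hf y) y) = T := by
    refine Finset.filter_true_of_mem fun y hy => ?_
    obtain ⟨h3, h4, -⟩ := hTe y hy
    rw [h3, h4]
    omega
  rw [hTf, Finset.sum_congr rfl (g := fun _ => (1 : ℤ)) (fun y hy => by
    rw [(hTe y hy).2.2]
    norm_num)] at hs
  rw [Finset.sum_const, nsmul_eq_mul, mul_one] at hs
  have h' : T.card = 0 := by exact_mod_cast hs
  rw [Finset.card_eq_zero] at h'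
  rw [h'] at hzT
  exact absurd hzT (Finset.notMem_empty z)

section All

variable {lo hi : Tops P → ℕ → ℕ} {e : Tops P → ℕ → ℕ → P}

/-- the type of a strip -/
theorem sd_type6 (h : Wd.NJ P r 6) {t : Tops P} {lo hi : ℕ → ℕ} {e : ℕ → ℕ → P}
    (C : Comp 6 (t : P) lo hi e) (hS : Wd.Shape 6 lo hi) :
    ∃ M θ, (∀ N : Tops P → Finset P, N t = M → Ty6 N t (hi 2 - lo 2 + 1) θ) ∧
      (Wd.F1 lo hi → e 6 1 ∉ M) := by
  have H := h.g.H
  have hg := h.g.good
  have hlight : lo 2 = hi 2 → ∃ M θ, (∀ N : Tops P → Finset P, N t = M →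
      Ty6 N t (hi 2 - lo 2 + 1) θ) ∧ (Wd.F1 lo hi → e 6 1 ∉ M) := by
    intro h1
    refine ⟨onlyB t, fun x => lev x - 2, fun N hN => Ty6.light hN rfl (by omega) ?_, ?_⟩
    · exact ⟨e 2 (lo 2), C.le_t 2 (lo 2) (by omega) le_rfl (C.lo_le 2 (by omega)),
        C.lev_e 2 (lo 2) (by omega) le_rfl (C.lo_le 2 (by omega))⟩
    · rintro ⟨⟨l0, l1, l2, l3, l4, l5, l6⟩, k0, k1, k2, k3, k4, k5, k6⟩
      omega
  rcases hS with h1 | ⟨h1, S'⟩ | ⟨h1, S⟩ | ⟨h1, h2, h3⟩ | ⟨h1, h2⟩ | ⟨a, h0, h1, h2, h3, hN, h4⟩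
  · have e1 := h1 2 (by omega)
    exact hlight (by omega)
  · have hlt : lo 2 < hi 2 := by
      by_contra hcon
      have g3 := C.lo_le 2 (by omega)
      have g1 := C.lo_mono (l := 1) (d := 1) (by omega)
      have g2 := C.hi_mono (l := 1) (d := 1) (by omega)
      rw [show 1 + 1 = 2 from rfl] at g1 g2
      have g4 := shape_lo C S'.lo (l := 2) (by omega) 2 (by omega)
      have g5 := shape_hi C S'.hi (l := 2) (by omega) 2 (by omega)
      have g6 := C.lo_le (2 + 2) (by omega)
      omega
    obtain ⟨Nc, co, h2, -⟩ := exists_rect C H hg H.gradedBelow S' (i := 2) (by omega) hlt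
    refine ⟨natR Nc co, _, fun N hN => Ty6.rect Nc co h2 hN rfl, ?_⟩
    rintro ⟨⟨l0, l1, l2, l3, l4, l5, l6⟩, k0, k1, k2, k3, k4, k5, k6⟩
    omega
  · obtain ⟨Nc, co, h1, h1'⟩ := exists_stair C H hg H.gradedBelow S (i := 2) (by omega)
    refine ⟨natS Nc co, _, fun N hN => Ty6.stair Nc co
      ⟨h1.chart, h1.max, fun x hx => h1.strip ?_, h1.cell⟩ hN rfl ?_ ?_, ?_⟩
    · rw [mem_lowPart] at hx ⊢
      exact ⟨hx.1, by omega⟩
    · have e1 := S.hi 2 (by omega)
      have h0 : lo 2 = 0 := by
        by_contra hcon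
        have e1 := shape_lo C S.lo (l := 2) (by omega) 2 (by omega)
        have e2 := S.hi (2 + 2) (by omega)
        have e3 := C.lo_le (2 + 2) (by omega)
        omega
      omega
    · intro z hz hl
      exact Or.inl (h1.strip (mem_lowPart.mpr ⟨hz, hl.le⟩))
    · rintro ⟨⟨l0, l1, l2, l3, l4, l5, l6⟩, k0, k1, k2, k3, k4, k5, k6⟩
      have e1 := S.lo 5 (by omega)
      have e1' : lo 6 = 0 ∨ lo 6 = lo 5 + 1 := e1
      omega
  · omega
  · obtain ⟨⟨l0, l1, l2, l3, l4, l5, l6⟩, k0, k1, k2, k3, k4, k5, k6⟩ := h2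
    have C5 : Comp 5 (t : P) lo hi e := C.mono (by omega)
    have S : StairShape 5 lo hi := by
      refine ⟨?_, ?_⟩
      · intro k hk
        interval_cases k <;> simp only [Nat.reduceAdd, zero_add] <;> omega
      · intro k hk
        interval_cases k <;> omega
    obtain ⟨Nc, co, h1, h1'⟩ := exists_stair C5 H (fun l hl => hg l (by omega)) H.gradedBelow S
      (i := 2) (by omega)
    have l5' : lo (4 + 1) = 1 := l5
    have k5' : hi (4 + 1) = 2 := k5
    have l6' : lo (5 + 1) = 1 := l6
    have k6' : hi (5 + 1) = 2 := k6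
    have hx1 : e 5 1 ∈ lowPart 5 (t : P) := mem_lowPart.mpr
      ⟨C.le_t 5 1 (by omega) (by omega) (by omega), (C.lev_e 5 1 (by omega) (by omega)
        (by omega)).le⟩
    have hx2 : e 5 2 ∈ lowPart 5 (t : P) := mem_lowPart.mpr
      ⟨C.le_t 5 2 (by omega) (by omega) (by omega), (C.lev_e 5 2 (by omega) (by omega)
        (by omega)).le⟩
    have hc1 : co (e 5 1) = (1, 4) := by
      rw [h1' _ hx1]
      unfold ccoord
      rw [scoord_e C5 (k := 5) (s := 1) le_rfl (by omega) (by omega),
        C.lev_e 5 1 (by omega) (by omega) (by omega)]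
    have hc2 : co (e 5 2) = (2, 3) := by
      rw [h1' _ hx2]
      unfold ccoord
      rw [scoord_e C5 (k := 5) (s := 2) le_rfl (by omega) (by omega),
        C.lev_e 5 2 (by omega) (by omega) (by omega)]
    -- no cell `(0, 5)`
    have h05 : ∀ y ∈ Nc, co y ≠ (0, 5) := by
      intro y hy hcy
      have hly := h1.chart.lev y hy
      rw [hcy] at hly
      simp only at hly
      obtain ⟨s', q1, q2, q3⟩ := C.surj y (h1.chart.le_t y hy) (by omega)
      have hly5 : lev y = 5 := by omega
      rw [hly5] at q1 q2 q3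
      have : s' = 1 ∨ s' = 2 := by omega
      rcases this with rfl | rfl
      · rw [← q3, hc1, Prod.mk.injEq] at hcy
        omega
      · rw [← q3, hc2, Prod.mk.injEq] at hcy
        omega
    refine ⟨natS Nc co, _, fun N hN => Ty6.stair Nc co h1 hN rfl (by omega) ?_, ?_⟩
    swap
    · intro _ hz
      have h61 : e (5 + 1) 1 ⋖ e 5 1 :=
        (C.cov 5 1 1 (by omega) (by omega) (by omega) (by omega) (by omega)).mpr (Or.inl rfl)
      have h62 : ¬ e (5 + 1) 1 ⋖ e 5 2 := fun hq => by
        have := (C.cov 5 1 2 (by omega) (by omega) (by omega) (by omega) (by omega)).mp hq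
        omega
      have h61' : e 6 1 ⋖ e 5 1 := h61
      have h62' : ¬ e 6 1 ⋖ e 5 2 := h62
      rw [mem_natS] at hz
      rcases hz with hz | hz
      · have f1 := (chart_cov h1.chart H hz (h1.strip hx1)).mp h61'
        rw [hc1] at f1
        rcases f1 with f1 | f1
        · have g1 := f1.1
          have g2 := f1.2
          simp only at g1 g2
          apply h62'
          rw [chart_cov h1.chart H hz (h1.strip hx2), hc2]
          exact Or.inr ⟨by simp only; omega, by simp only; omega⟩
        · have g1 := f1.1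
          have g2 := f1.2
          simp only at g1 g2
          obtain ⟨y, hy, hcy⟩ := h1.chart.low _ hz (0, 5) ⟨by simp only; omega,
            by simp only; omega⟩ (Nat.zero_le _)
          exact h05 y hy hcy
      · obtain ⟨x1, H1, hz1⟩ := mem_junk.mp hz
        have g1 := H1.lt _ (h1.strip hx1) (by rw [hc1])
        rw [hc1] at g1
        simp only at g1
        obtain ⟨y, hy, hcy⟩ := h1.chart.low _ H1.mem (0, 5) ⟨by simp only; omega,
          by simp only; omega⟩ (Nat.zero_le _)
        exact h05 y hy hcy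
    intro z hz hl
    -- the elements of level 6
    obtain ⟨s, s1, s2, s3⟩ := C.surj z hz (by omega)
    rw [hl] at s1 s2 s3
    -- covers are below `t`
    have hcovt : ∀ y, z ⋖ y → ∃ s', lo 5 ≤ s' ∧ s' ≤ hi 5 ∧ e 5 s' = y := by
      intro y hy
      have hly := (H.covBy_iff.mp hy).2
      have hyt : y ≤ (t : P) := by
        have h5 := Cp.top_eq H hg (by omega : lev z ≤ 6) (topOf y).2 t.2
          (hy.1.le.trans (le_topOf y)) hz
        rw [← h5]
        exact le_topOf y
      obtain ⟨s', q1, q2, q3⟩ := C.surj y hyt (by omega)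
      have : lev y = 5 := by omega
      rw [this] at q1 q2 q3
      exact ⟨s', q1, q2, q3⟩
    have hz61 : ∀ s', lo 5 ≤ s' → s' ≤ hi 5 → (e 6 s ⋖ e 5 s' ↔ s' = s ∨ s' + 1 = s) :=
      fun s' q1 q2 => C.cov 5 s s' (by omega) s1 s2 q1 q2
    rw [s3] at hz61
    have hs : s = 1 ∨ s = 2 := by omega
    rcases hs with rfl | rfl
    · right
      refine ⟨e 5 1, h1.strip hx1, hc1, ?_, ?_⟩
      · exact (hz61 1 (by omega) (by omega)).mpr (Or.inl rfl)
      · intro y hy
        obtain ⟨s', q1, q2, q3⟩ := hcovt y hy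
        rw [← q3] at hy ⊢
        have := (hz61 s' q1 q2).mp hy
        congr 1
        omega
    · left
      by_contra hzN
      have hne : e 5 1 ≠ e 5 2 := by
        intro hq
        have := C.inj 5 1 2 (by omega) (by omega) (by omega) (by omega) (by omega) hq
        omega
      obtain ⟨y, hy, hy1, hy2⟩ := near_chart (z := z) H h1.chart h1.max
        (fun s c (h : s + 1 ≤ c) => show s + 1 ≤ c + 1 by omega) (h1.strip hx1) (h1.strip hx2)
        (p := e 4 1)
        ((C.cov 4 1 1 (by omega) (by omega) (by omega) (by omega) (by omega)).mpr (Or.inl rfl))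
        ((C.cov 4 2 1 (by omega) (by omega) (by omega) (by omega) (by omega)).mpr (Or.inr rfl))
        ((hz61 1 (by omega) (by omega)).mpr (Or.inr rfl))
        ((hz61 2 (by omega) (by omega)).mpr (Or.inl rfl)) hne hzN
      have hyt := h1.chart.le_t y hy
      have hly : lev y = 6 := by
        have e1 := (H.covBy_iff.mp hy1).2
        have e2 := C.lev_e 5 1 (by omega) (by omega) (by omega)
        omega
      obtain ⟨s', q1, q2, q3⟩ := C.surj y hyt (by omega)
      rw [hly] at q1 q2 q3
      have e1 := (C.cov 5 s' 1 (by omega) q1 q2 (by omega) (by omega))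
      have e2 := (C.cov 5 s' 2 (by omega) q1 q2 (by omega) (by omega))
      have q3' : e (5 + 1) s' = y := q3
      rw [q3'] at e1 e2
      have e1' := e1.mp hy1
      have e2' := e2.mp hy2
      have hs' : s' = 2 := by omega
      apply hzN
      have : y = z := by rw [← q3, ← s3, hs']
      rw [← this]
      exact hy
  · have e1 := h2 2 (by omega)
    exact hlight (by omega)

/-- **no component has the shape `F1`** -/
theorem NJ_no_six (h : Wd.NJ P r 6) (C : ∀ t : Tops P, Comp 6 (t : P) (lo t) (hi t) (e t))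
    (hS : ∀ t, Wd.Shape 6 (lo t) (hi t)) (t : Tops P) : ¬ Wd.F1 (lo t) (hi t) := by
  classical
  intro hF
  choose M θ hty hMt using fun t => sd_type6 h (C t) (hS t)
  have W : V6 r M (fun t => hi t 2 - lo t 2 + 1) θ :=
    ⟨h.g, fun t => hty t M rfl, (card_level h.g.H h.g.good C (i := 2) (by omega)).symm, h.no⟩
  have hM := hMt t hF
  obtain ⟨⟨l0, l1, l2, l3, l4, l5, l6⟩, k0, k1, k2, k3, k4, k5, k6⟩ := hF
  have hlz : lev (e t 6 1) = 6 := (C t).lev_e 6 1 le_rfl (by omega) (by omega)
  have hzt := (C t).le_t 6 1 le_rfl (by omega) (by omega)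
  have htz : topOf (e t 6 1) = t := W.topOf_eq hzt (by omega)
  refine W.kill (z := e t 6 1) ?_ hlz
  by_contra hn
  exact hM (W.natSys.mem_iff.mpr ⟨hn, htz⟩)

end All

end Pool.Agent.GaussPoset
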