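import Pool.Agent.W_448rr_h67.RrF
import Pool.Agent.W_448s7_h5.SevF

/-!
# Doubles at a straight end of a rectangle-like component, window 1 (MP_448cb3_co)

All levels less than `j` are good, no join on the level `j + 1`.  At window 1 the cheapest twins are
those of the cells `(1, j)`, `(j, 1)`; their cost is `j ^ 2 + j - 1`, all of them have the same sign.
-/

namespace Pool.Agent.GaussPoset

set_option linter.unusedSectionVars false

open Polynomial Finset

universe u

variable {P : Type u} [Fintype P] [PartialOrder P] [DecidableEq P] {r j : ℕ}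
  {N : Tops P → Finset P} {b : Tops P → ℕ} {θ : Tops P → P → ℕ}

/-- thresholds with twins -/
noncomputable abbrev sdT (j : ℕ) (N : Tops P → Finset P) (θ : Tops P → P → ℕ) : P → ℕ :=
  thX (twY j N) (twT N) (fun x => θ (topOf x) x)

/-- thresholds of natural elements -/
lemma W1.sd_le (W : W1 r j N b θ) {y : P} (hy : y ∉ unnat N) : sdT j N θ y ≤ lev y - 1 := by
  have h1 : y ∉ twY j N := fun h => hy (mem_twY.mp h).1
  show thX (twY j N) (twT N) (fun x => θ (topOf x) x) y ≤ lev y - 1
  rw [thX_not h1]
  rcases W.cases hy with h | h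
  · rw [h.th]
  · rw [h.th]; omega

/-- the sum over the elements above, by levels -/
lemma sd_sum_above (i : ℕ) (z : P) :
    ∑ w, (by classical exact if z < w then lev w - i else 0) =
      ∑ k ∈ range (lev z), (k - i) * nab k z := by
  classical
  have h1 := cst_eq i (fun w => lev w - i) z
  rw [cst_full] at h1
  have h2 := sum_above_split i z
  rw [Finset.sum_range_succ, nab_self, mul_one, min_self] at h1
  have h3 : ∑ k ∈ range (lev z), min (lev z - i) (k - i) * nab k z =
      ∑ k ∈ range (lev z), (k - i) * nab k z := by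
    refine Finset.sum_congr rfl fun k hk => ?_
    rw [mem_range] at hk
    rw [Nat.min_eq_right (by omega)]
  rw [h3] at h1
  omega

/-- the pairs of twins -/
theorem W1.sd_twn (W : W1 r j N b θ) {x : P} (hx : x ∈ twY j N) :
    Twn 1 (sdT j N θ) (twT N x, x) where
  ne := by
    intro h
    have h' : twT N x = x := h
    exact W.twSys.nat x hx (h'.symm ▸ (mem_twY.mp hx).1)
  up := W.twSys.up x hx
  one_le := by
    have h := W.twinPair hx
    exact h.one_le
  eq := by
    have h := W.twinPair hx
    exact h.eq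
  lt := by
    have hj := W.two_le
    have hI := W.inner_tw hx
    have hlev : lev (twT N x) = j + 1 := by rw [W.twSys.lev hx]; exact (mem_twY.mp hx).2.1
    have hnY : twT N x ∉ twY j N := fun h => W.twSys.nat x hx (mem_twY.mp h).1
    show thX (twY j N) (twT N) (fun x => θ (topOf x) x) (twT N x) + 1 ≤ lev (twT N x) - 1
    rw [thX_not hnY, hI.th, hlev]
    omega
  mono := by
    intro y hy
    have hy' : twT N x < y := hy
    have hj := W.two_le
    have hI := W.inner_tw hx
    have hlev : lev (twT N x) = j + 1 := by rw [W.twSys.lev hx]; exact (mem_twY.mp hx).2.1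
    have hnY : twT N x ∉ twY j N := fun h => W.twSys.nat x hx (mem_twY.mp h).1
    have hyN : y ∉ unnat N := by
      intro h
      exact W.twSys.nat x hx (W.natSys.lower _ y hy'.le h)
    have h1 := W.sd_le hyN
    have h2 := lev_strictAnti hy'
    have h3 : sdT j N θ (twT N x) = j - 1 := by
      show thX (twY j N) (twT N) (fun x => θ (topOf x) x) (twT N x) = j - 1
      rw [thX_not hnY, hI.th, hlev]
      omega
    show sdT j N θ y ≤ sdT j N θ (twT N x) + 1
    rw [h3]
    omega

/-- threshold at a twin pair -/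
lemma W1.sd_th (W : W1 r j N b θ) {x : P} (hx : x ∈ twY j N) : sdT j N θ (twT N x) = j - 1 := by
  have hI := W.inner_tw hx
  have hlev : lev (twT N x) = j + 1 := by rw [W.twSys.lev hx]; exact (mem_twY.mp hx).2.1
  have hnY : twT N x ∉ twY j N := fun h => W.twSys.nat x hx (mem_twY.mp h).1
  show thX (twY j N) (twT N) (fun x => θ (topOf x) x) (twT N x) = j - 1
  rw [thX_not hnY, hI.th, hlev]
  omega

/-- the cost of a twin pair -/
theorem W1.sd_cost (W : W1 r j N b θ) {x : P} (hx : x ∈ twY j N) :
    tcst 1 (sdT j N θ) (twT N x, x) = ∑ k ∈ range (j + 1), (k - 1) * nab k x + (2 * j - 1) := by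
  classical
  have hj := W.two_le
  have hH := W.sd_twn hx
  have hlx := (mem_twY.mp hx).2.1
  have hlev : lev (twT N x) = j + 1 := by rw [W.twSys.lev hx]; exact hlx
  have hth := W.sd_th hx
  rw [tcst_eq hH]
  simp only
  have h1 : ∀ y, (if twT N x < y then min (sdT j N θ (twT N x) + 1) (lev y - 1) else 0) =
      (if x < y then lev y - 1 else 0) := by
    intro y
    by_cases hy : twT N x < y
    · rw [if_pos hy, if_pos ((W.twSys.up x hx y).mp hy)]
      have := lev_strictAnti hy
      rw [Nat.min_eq_right (by omega)]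
    · rw [if_neg hy, if_neg (fun h => hy ((W.twSys.up x hx y).mpr h))]
  rw [Finset.sum_congr rfl (fun y _ => h1 y), hth]
  have h2 := sd_sum_above 1 x
  rw [hlx] at h2
  rw [h2]
  omega

lemma sd_two_le (W : W1 r j N b θ) {x : P} (hx : x ∈ twY j N) {k : ℕ} (hk : 1 ≤ k) (hkj : k ≤ j) :
    2 ≤ nab k x := by
  have hI := W.inner_tw hx
  have hlx := (mem_twY.mp hx).2.1
  have hlev : lev (twT N x) = j + 1 := by rw [W.twSys.lev hx]; exact hlx
  refine le_trans (hI.two (k := k) hk (by omega)) ?_
  exact nab_le_of_up (W.twSys.up x hx) (by omega)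

/-- the twins cost at least `j ^ 2 + j - 1` -/
theorem W1.sd_cost_ge (W : W1 r j N b θ) {x : P} (hx : x ∈ twY j N) :
    j ^ 2 + j - 1 ≤ tcst 1 (sdT j N θ) (twT N x, x) := by
  have hj := W.two_le
  rw [W.sd_cost hx]
  have h1 := sum_two 1 (j - 1)
  rw [show 1 + (j - 1) + 1 = j + 1 by omega] at h1
  have h2 : ∑ k ∈ range (j + 1), (k - 1) * 2 ≤ ∑ k ∈ range (j + 1), (k - 1) * nab k x := by
    refine Finset.sum_le_sum fun k hk => ?_
    rw [mem_range] at hk
    rcases Nat.eq_zero_or_pos k with h0 | h0
    · subst h0; simp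
    · exact Nat.mul_le_mul_left _ (sd_two_le W hx h0 (by omega))
  rw [h1] at h2
  obtain ⟨i, rfl⟩ : ∃ i, j = i + 1 := ⟨j - 1, by omega⟩
  rw [Nat.add_sub_cancel] at h2
  have h3 : (i + 1) ^ 2 = i * (i + 1) + (i + 1) := by ring
  omega

/-- the cheapest twins have two elements above on every level -/
theorem W1.sd_cheap (W : W1 r j N b θ) {x : P} (hx : x ∈ twY j N)
    (hc : tcst 1 (sdT j N θ) (twT N x, x) = j ^ 2 + j - 1) {k : ℕ} (hk : 2 ≤ k) (hkj : k ≤ j) :
    nab k x = 2 := by
  have hj := W.two_le
  rw [W.sd_cost hx] at hc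
  have h1 := sum_two 1 (j - 1)
  rw [show 1 + (j - 1) + 1 = j + 1 by omega] at h1
  have hle : ∀ k ∈ range (j + 1), (k - 1) * 2 ≤ (k - 1) * nab k x := by
    intro k hk
    rw [mem_range] at hk
    rcases Nat.eq_zero_or_pos k with h0 | h0
    · subst h0; simp
    · exact Nat.mul_le_mul_left _ (sd_two_le W hx h0 (by omega))
  have h3 : ∑ k ∈ range (j + 1), (k - 1) * 2 = ∑ k ∈ range (j + 1), (k - 1) * nab k x := by
    rw [h1]
    obtain ⟨i, rfl⟩ : ∃ i, j = i + 1 := ⟨j - 1, by omega⟩
    rw [Nat.add_sub_cancel]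
    have h3 : (i + 1) ^ 2 = i * (i + 1) + (i + 1) := by ring
    omega
  have h4 := (Finset.sum_eq_sum_iff_of_le hle).mp h3 k (by rw [mem_range]; omega)
  have h5 : 0 < k - 1 := by omega
  exact (Nat.eq_of_mul_eq_mul_left h5 h4).symm

/-- exact far data -/
theorem W1.sd_farX (W : W1 r j N b θ) : FarX P 1 (r2 j N) (lv P 1).card (h2 j N θ) (sdT j N θ)
    (pairsX (twY j N) (twT N)) (j ^ 2 + j - 1) := by
  choose B hB using fun t => (W.typ t).natTop W.gt.H.gradedBelow
  have h := farX_of_tops W.gt.H.gradedBelow hB W.twSys (j ^ 2 + j - 1) (fun x hx => W.sd_twn hx)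
    (fun x hx => W.sd_cost_ge hx)
  rw [W.sum_b] at h
  exact h

/-- all boundary elements are expensive -/
theorem W1.sd_bd (W : W1 r j N b θ) {z : P} (hz : z ∈ bdR (r2 j N)) :
    j ^ 2 + j ≤ cst 1 (h2 j N θ) z := by
  classical
  have H := W.gt.H
  have hj := W.two_le
  have T := W.twSys
  have hzR : z ∈ unnat N := (mem_sdiff.mp (mem_filter.mp hz).1).1
  have hzY : z ∉ twY j N := (mem_sdiff.mp (mem_filter.mp hz).1).2
  have hlz := W.lt_lev hzR
  have hl : lev z ≠ j + 1 := fun hl => W.no_rt hl (W.rt_of hzR hl hzY)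
  obtain ⟨u, hu, hzu, hh⟩ := hcan_spec (θ := sdT j N θ) hz
  have hlu := (H.covBy_iff.mp hzu).2
  have hbig : ∀ a, j ≤ a → j ^ 2 + j ≤ (a + 1) * a := by
    intro a ha
    nlinarith
  by_cases huY : u ∈ twY j N
  · have hI := W.inner_tw huY
    rw [show sdT j N θ u = thX (twY j N) (twT N) (fun x => θ (topOf x) x) u from rfl,
      thX_of huY, hI.th, T.lev huY] at hh
    have h3 := cst_ge_sq_sub (i := 1) (h := h2 j N θ) (z := z) (by omega)
      (by show h2 j N θ z = _; rw [show h2 j N θ z = _ from hh]; omega) (by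
        intro k hk hk2
        refine le_trans ?_ (nab_mono hzu.le)
        refine le_trans (hI.two (k := k) hk.le (by rw [T.lev huY]; omega)) ?_
        exact nab_le_of_up (T.up u huY) (by rw [T.lev huY]; omega))
    refine le_trans ?_ h3
    have := hbig (lev z - 1 - 1) (by omega)
    rw [show lev z - 1 - 1 + 1 = lev z - 1 by omega] at this
    exact this
  · have huR : u ∉ unnat N := fun h => hu (mem_sdiff.mpr ⟨h, huY⟩)
    rw [show sdT j N θ u = thX (twY j N) (twT N) (fun x => θ (topOf x) x) u from rfl,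
      thX_not huY] at hh
    rcases W.cases huR with hF | hI
    · rw [hF.th] at hh
      have h3 := sq_le_cst (i := 1) (h := h2 j N θ) (z := z) (by omega)
        (by show h2 j N θ z = _; rw [show h2 j N θ z = _ from hh]; omega) (by
          intro k hk hk2
          exact hF.two z hzR hzu.le k hk.le (by omega))
      refine le_trans ?_ h3
      have := hbig (lev z - 1 - 1) (by omega)
      rw [show lev z - 1 - 1 + 1 = lev z - 1 by omega] at this
      refine this.trans ?_
      rw [pow_two]
      exact Nat.mul_le_mul_left _ (Nat.sub_le _ _)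
    · rw [hI.th] at hh
      have h3 := cst_ge_sq_sub (i := 1) (h := h2 j N θ) (z := z) (by omega)
        (by show h2 j N θ z = _; rw [show h2 j N θ z = _ from hh]; omega) (by
          intro k hk hk2
          refine le_trans (hI.two (k := k) hk.le (by omega)) (nab_mono hzu.le))
      refine le_trans ?_ h3
      have := hbig (lev z - 1 - 1) (by omega)
      rw [show lev z - 1 - 1 + 1 = lev z - 1 by omega] at this
      exact this

end Pool.Agent.GaussPoset
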