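import Pool.Agent.W_448sd_h84.SdA

/-!
# No doubles at a straight end of a rectangle-like component (MP_448cb3_co)
-/

namespace Pool.Agent.GaussPoset

set_option linter.unusedSectionVars false

open Polynomial Finset

universe u

variable {P : Type u} [Fintype P] [PartialOrder P] [DecidableEq P] {r j : ℕ}
  {N : Tops P → Finset P} {b : Tops P → ℕ} {θ : Tops P → P → ℕ}

/-- the elements above an inner cell -/
lemma Inner.cells {x : P} (h : Inner j N b θ x) : ∃ (Nc : Finset P) (co : P → ℕ × ℕ),
    RectNat j 1 (topOf x) (b (topOf x)) Nc co ∧ N (topOf x) = natR Nc co ∧ x ∈ Nc ∧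
    1 ≤ (co x).1 ∧ 1 ≤ (co x).2 := by
  obtain ⟨Nc, co, h0, h1, hx, h2, h3, h4⟩ := h
  exact ⟨Nc, co, h0, h1, hx, h2, h3⟩

/-- the elements above twins -/
lemma sd_nab_tw (W : W1 r j N b θ) {x : P} (hx : x ∈ twY j N) {k : ℕ} (hk : k ≤ j) :
    nab k x = nab k (twT N x) := by
  have hlx := (mem_twY.mp hx).2.1
  have hlev : lev (twT N x) = j + 1 := by rw [W.twSys.lev hx]; exact hlx
  refine le_antisymm ?_ ?_
  · exact nab_le_of_up (fun w => (W.twSys.up x hx w).symm) (by omega)
  · exact nab_le_of_up (W.twSys.up x hx) (by omega)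

lemma sd_nab_one (W : W1 r j N b θ) {x : P} (hx : x ∈ twY j N) : nab 1 x = 2 := by
  have hj := W.two_le
  rw [sd_nab_tw W hx (by omega)]
  obtain ⟨Nc, co, h0, h1, hxN, h2, h3⟩ := (W.inner_tw hx).cells
  rw [nab_chart h0.chart hxN]
  have h4 := card_cellsAt_true (l := 1) (p := co (twT N x)) (by omega)
  omega

/-- **no cheap twins** -/
theorem W1.no_cheap (W : W1 r j N b θ) {x : P} (hx : x ∈ twY j N)
    (hc : tcst 1 (sdT j N θ) (twT N x, x) = j ^ 2 + j - 1) : False := by
  classical
  have hj := W.two_le
  have F := W.sd_farX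
  have hd := F.lead (fun z hz => by have := W.sd_bd hz; omega)
  have hZ := dvd_Z W.gt.H.gauss 1 (j ^ 2 + j - 1)
  have hE : (bdR (r2 j N)).filter (fun z => cst 1 (h2 j N θ) z = j ^ 2 + j - 1) = ∅ := by
    rw [Finset.filter_eq_empty_iff]
    intro z hz h
    have := W.sd_bd hz
    omega
  rw [hE, Finset.sum_empty, zero_add] at hd
  set T := (twY j N).filter (fun x => tcst 1 (sdT j N θ) (twT N x, x) = j ^ 2 + j - 1) with hT
  have hs : ∑ t ∈ (pairsX (twY j N) (twT N)).filter
      (fun t => tcst 1 (sdT j N θ) t = j ^ 2 + j - 1), Tm 1 (sdT j N θ) t =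
      ∑ x ∈ T, Lt 1 (fun _ => j) x := by
    unfold pairsX
    rw [Finset.filter_image, Finset.sum_image]
    · refine Finset.sum_congr rfl fun y hy => ?_
      have hyY := (mem_filter.mp hy).1
      have hly := (mem_twY.mp hyY).2.1
      have hlev : lev (twT N y) = j + 1 := by rw [W.twSys.lev hyY]; exact hly
      have h1 := Tm_eq W.gt.H.gradedBelow (W.sd_twn hyY) (by
        show sdT j N θ (twT N y) + 1 = lev (twT N y) - 1
        rw [W.sd_th hyY, hlev]
        omega)
      rw [h1]
      simp only
      rw [hly, Nat.add_sub_cancel]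
    · intro a _ c _ h
      exact (Prod.ext_iff.mp h).2
  rw [hs] at hd
  have hTn : ∀ y ∈ T, nab 1 y = 2 ∧ nab (1 + j) y = 1 := by
    intro y hy
    have hyY := (mem_filter.mp hy).1
    have hly := (mem_twY.mp hyY).2.1
    refine ⟨sd_nab_one W hyY, ?_⟩
    rw [Nat.add_comm, ← hly]
    exact nab_self
  have hxT : x ∈ T := mem_filter.mpr ⟨hx, hc⟩
  have hcard : 2 ≤ (lv P 1).card := by
    have h3 := (hTn x hxT).1
    unfold nab at h3
    rw [← h3]
    exact Finset.card_filter_le _ _
  have hs2 := sign_sum_of_dvd T hZ hd (c0 := (lv P 1).card - 1) (by omega) (by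
    intro y hy
    obtain ⟨h3, h4⟩ := hTn y hy
    rw [h3, h4]
    omega)
  have hTf : T.filter (fun y => (lv P 1).card - 1 + nab 1 y =
      (lv P 1).card + nab (1 + j) y) = T := by
    refine Finset.filter_true_of_mem fun y hy => ?_
    obtain ⟨h3, h4⟩ := hTn y hy
    rw [h3, h4]
    omega
  rw [hTf, Finset.sum_congr rfl (g := fun _ => (1 : ℤ))] at hs2
  · rw [Finset.sum_const, nsmul_eq_mul, mul_one] at hs2
    have : T.card = 0 := by exact_mod_cast hs2
    rw [Finset.card_eq_zero] at this
    rw [this] at hxT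
    exact absurd hxT (Finset.notMem_empty x)
  · intro y hy
    have hyY := (mem_filter.mp hy).1
    have hyc := (mem_filter.mp hy).2
    rw [nst_eq, Finset.sum_congr rfl (g := fun _ => 2)]
    · rw [Finset.sum_const, card_range, smul_eq_mul, Nat.mul_comm, pow_mul]
      norm_num
    · intro k hk
      rw [mem_range] at hk
      rcases Nat.eq_zero_or_pos k with h0 | h0
      · subst h0
        exact sd_nab_one W hyY
      · exact W.sd_cheap hyY hyc (by omega) (by omega)

/-- a twin below a single-up element does not exist -/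
theorem W1.no_tw_single (W : W1 r j N b θ) {z x : P} (hz : z ∈ twY j N) (hzx : z ⋖ x)
    (h1 : (Win.uc x).card = 1) : False := by
  classical
  have hj := W.two_le
  have H := W.gt.H
  obtain ⟨Nc, co, g0, g1, hyN, g2, g3⟩ := (W.inner_tw hz).cells
  have hyx : twT N z ⋖ x := (W.twSys.cov hz).mpr hzx
  have hxN : x ∈ Nc := g0.chart.up _ hyN x hyx.1.le
  have hlev : lev (twT N z) = j + 1 := by rw [W.twSys.lev hz]; exact (mem_twY.mp hz).2.1
  have hcy := g0.chart.lev _ hyN
  have hcx := g0.chart.lev _ hxN
  have hp := (chart_cov g0.chart H hyN hxN).mp hyx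
  have h0 : (co x).1 = 0 ∨ (co x).2 = 0 := by
    by_contra hcon
    have := chart_inner_uc g0.chart H hxN (by omega) (by omega)
    omega
  have hlx : lev x = j := by
    have := (H.covBy_iff.mp hyx).2
    omega
  refine W.no_cheap hz ?_
  rw [W.sd_cost hz]
  have h2 : ∑ k ∈ range (j + 1), (k - 1) * nab k z = ∑ k ∈ range (j + 1), (k - 1) * 2 := by
    refine Finset.sum_congr rfl fun k hk => ?_
    rw [mem_range] at hk
    rcases Nat.eq_zero_or_pos k with h4 | h4
    · subst h4; simp
    · rw [sd_nab_tw W hz (by omega), nab_chart g0.chart hyN]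
      have h5 := card_cellsAt_true (l := k) (p := co (twT N z)) (by omega)
      have h6 : (cellsAt (fun _ => True) k (co (twT N z))).card = 2 := by
        unfold Prd at hp
        rcases h0 with h0 | h0
        · have e1 : (co (twT N z)).1 = 1 := by omega
          have e2 : (co (twT N z)).2 = j := by omega
          rw [e1, e2] at h5
          omega
        · have e1 : (co (twT N z)).2 = 1 := by omega
          have e2 : (co (twT N z)).1 = j := by omega
          rw [e1, e2] at h5
          omega
      rw [h6]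
  rw [h2]
  have h3 := sum_two 1 (j - 1)
  rw [show 1 + (j - 1) + 1 = j + 1 by omega] at h3
  rw [h3]
  obtain ⟨i, rfl⟩ : ∃ i, j = i + 1 := ⟨j - 1, by omega⟩
  rw [Nat.add_sub_cancel]
  have h4 : (i + 1) ^ 2 = i * (i + 1) + (i + 1) := by ring
  omega

section Final

variable {lo hi : Tops P → ℕ → ℕ} {e : Tops P → ℕ → ℕ → P}

/-- **No double at a straight end of a rectangle-like component.**  All levels less than `j` are
good, `2 ≤ j`, no element of level `j + 1` is below two maximal elements, every strip is light at level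
`1` or rectangle-like down to level `j`.  Then a single-up element of level `j` below a
rectangle-like top has at most one common lower cover with another element. -/
theorem rect_dcv_straight (h : Win.GoodTo P r j) (hj : 2 ≤ j)
    (hno : ∀ z : P, lev z = j + 1 → ¬ Hul.Jn z)
    (C : ∀ t : Tops P, Cp.Comp j (t : P) (lo t) (hi t) (e t))
    (hT : ∀ t : Tops P, lo t 1 = hi t 1 ∨ RectShape j (lo t) (hi t)) {t : Tops P}
    (ht : lo t 1 ≠ hi t 1) {x x' : P} (hx : lev x = j) (hxt : x ≤ (t : P))
    (h1 : (Win.uc x).card = 1) (hne : x ≠ x') : dcv x x' ≤ 1 := by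
  classical
  by_contra hcon
  obtain ⟨N, θ, W⟩ := exists_W1 h hj hno C hT
  have H := h.H
  have HN := W.natSys
  obtain ⟨z, z', hz, hz', hzz⟩ := Finset.one_lt_card_iff.mp (not_le.mp hcon)
  have hz2 : z ⋖ x ∧ z ⋖ x' := by simpa using hz
  have hz2' : z' ⋖ x ∧ z' ⋖ x' := by simpa using hz'
  have hlz : ∀ w : P, w ⋖ x → lev w = j + 1 := fun w hw => by
    have := (H.covBy_iff.mp hw).2
    omega
  have htw : ∀ w : P, w ⋖ x → w ∈ unnat N → False := by
    intro w hw hwR
    by_cases hY : w ∈ twY j N
    · exact W.no_tw_single hY hw h1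
    · exact W.no_rt (hlz w hw) (W.rt_of hwR (hlz w hw) hY)
  have hn : z ∉ unnat N := fun h => htw z hz2.1 h
  have hn' : z' ∉ unnat N := fun h => htw z' hz2'.1 h
  -- both natural
  have htop : ∀ w : P, w ⋖ x → topOf w = t := by
    intro w hw
    by_contra hcon
    exact hno w (hlz w hw) ⟨topOf w, t, (topOf w).2, t.2, fun h => hcon (Subtype.ext h),
      le_topOf w, hw.1.le.trans hxt⟩
  have hzN := HN.mem_iff.mpr ⟨hn, htop z hz2.1⟩
  have hzN' := HN.mem_iff.mpr ⟨hn', htop z' hz2'.1⟩
  rcases W.typ t with ⟨g1, g2, g3, g4, g5, g6⟩ | ⟨Nc, co, g0, g1, g2, g4⟩ |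
    ⟨Nc, co, g0, g1, g2, g3, g4, g5⟩
  · have e1 := (C t).lo_le 1 (by omega)
    omega
  · rw [g1] at hzN hzN'
    have hlx' : lev x' = j := by
      have := (H.covBy_iff.mp hz2.2).2
      have := hlz z hz2.1
      omega
    have hxN : x ∈ Nc := g0.strip (mem_lowPart.mpr ⟨hxt, by omega⟩)
    have hxt' : x' ≤ (t : P) := by
      have h5 : topOf x' = t := by
        by_contra hcon
        exact hno z (hlz z hz2.1) ⟨topOf x', t, (topOf x').2, t.2, fun h => hcon (Subtype.ext h),
          hz2.2.1.le.trans (le_topOf x'), hz2.1.1.le.trans hxt⟩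
      rw [← h5]
      exact le_topOf x'
    have hxN' : x' ∈ Nc := g0.strip (mem_lowPart.mpr ⟨hxt', by omega⟩)
    -- `z`, `z'` are cells of the chart
    have hcell : ∀ w : P, w ⋖ x → w ⋖ x' → w ∈ natR Nc co → w ∈ Nc := by
      intro w hwx hwx' hw
      have key : ∀ (co : P → ℕ × ℕ), Chart (t : P) (fun _ => True) Nc co →
          w ∉ junk (fun _ => True) Nc co := by
        intro co C hzJ
        have hcl := C.lev x hxN
        have hcl' := C.lev x' hxN'
        obtain ⟨x1, H1, hz1⟩ := mem_junk.mp hzJ
        rw [mem_jset] at hz1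
        have h1 : ∀ y, w ⋖ y → y = x1 ∨ y < x1 := by
          intro y hy
          rcases hz1.2 y hy.1.le with h | h
          · exact eq_or_lt_of_le h
          · rcases eq_or_lt_of_le h with h | h
            · exact Or.inl h.symm
            · exact absurd h (hy.2 hz1.1)
        rcases h1 x hwx with h | h
        · rcases h1 x' hwx' with h' | h'
          · exact hne (h.trans h'.symm)
          · have := lev_strictAnti h'
            rw [← h] at this
            omega
        · rcases h1 x' hwx' with h' | h'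
          · have := lev_strictAnti h
            rw [← h'] at this
            omega
          · have e1 := (H1.tail C hxN h).1
            have e2 := (H1.tail C hxN' h').1
            exact hne (C.inj x hxN x' hxN' (Prod.ext (by omega) (by omega)))
      rw [mem_natR] at hw
      rcases hw with h | h | h
      · exact h
      · exact absurd h (key co g0.chart)
      · exact absurd h (key _ g0.chart.swap)
    have hzc := hcell z hz2.1 hz2.2 hzN
    have hzc' := hcell z' hz2'.1 hz2'.2 hzN'
    refine hzz (g0.chart.inj z hzc z' hzc' ?_)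
    have f1 := (chart_cov g0.chart H hzc hxN).mp hz2.1
    have f2 := (chart_cov g0.chart H hzc hxN').mp hz2.2
    have f3 := (chart_cov g0.chart H hzc' hxN).mp hz2'.1
    have f4 := (chart_cov g0.chart H hzc' hxN').mp hz2'.2
    have hcne : co x ≠ co x' := fun h => hne (g0.chart.inj x hxN x' hxN' h)
    have hcne' : ¬ ((co x).1 = (co x').1 ∧ (co x).2 = (co x').2) :=
      fun h => hcne (Prod.ext h.1 h.2)
    unfold Prd at f1 f2 f3 f4
    exact Prod.ext (by omega) (by omega)
  · omega

end Final

end Pool.Agent.GaussPoset
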