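import Pool.Agent.W_448sd_h84.SdB
import Pool.Agent.W_448fc_h67.FcU
import Pool.Agent.W_448s7_h5.SevI

/-!
# Window 2 in case B (MP_448cb3_co): the context, natural elements

No element of level `j + 1` is below two tops, `6 ≤ j`, all strips are light at level 2,
rectangle-like or stair-like.
-/

namespace Pool.Agent.GaussPoset

set_option linter.unusedSectionVars false

open Polynomial Finset

universe u

variable {P : Type u} [Fintype P] [PartialOrder P] [DecidableEq P] {r j : ℕ}
  {N : Tops P → Finset P} {b : Tops P → ℕ} {θ : Tops P → P → ℕ}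

/-- the types at window 2 -/
inductive Ty2 (j : ℕ) (N : Tops P → Finset P) (t : Tops P) (b : ℕ) (θ : P → ℕ) : Prop
  | light (h1 : N t = onlyB t) (h2 : θ = fun x => lev x - 2) (h3 : b = 1)
      (h6 : ∃ x ≤ (t : P), lev x = 2)
  | rect (Nc : Finset P) (co : P → ℕ × ℕ) (h0 : RectNat j 2 t b Nc co)
      (h1 : N t = natR Nc co) (h2 : θ = thR 2 b Nc co)
      (pen : ∀ x z : P, x ≤ (t : P) → lev x = j → (Win.uc x).card = 2 → ¬ Pend z x)
      (nrt : ∀ z x x' : P, x ≤ (t : P) → lev z = j + 1 → z ⋖ x → z ⋖ x' → x ≠ x' →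
        ucv x x' = 1)
  | stair (Nc : Finset P) (co : P → ℕ × ℕ) (h0 : StairNat j 2 t Nc co)
      (h1 : N t = natS Nc co) (h2 : θ = thS 2 Nc co) (h3 : b = 2)
      (pen : ∀ x z : P, x ≤ (t : P) → lev x = j → (Win.uc x).card = 2 → Pend z x →
        (co x).2 = (co x).1 + 1 ∧ ∀ z', Pend z' x → z' = z)

/-- the context -/
structure W2 (r j : ℕ) (N : Tops P → Finset P) (b : Tops P → ℕ) (θ : Tops P → P → ℕ) :
    Prop where
  gt : Win.GoodTo P r j
  six : 6 ≤ j
  typ : ∀ t, Ty2 j N t (b t) (θ t)
  sum_b : ∑ t, b t = (lv P 2).card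
  nj : ∀ z : P, lev z = j + 1 → ¬ Hul.Jn z

lemma W2.lowOnly (W : W2 r j N b θ) {t : Tops P} {x : P} (hx : x ≤ (t : P))
    (hl : lev x ≤ j + 1) : x ∈ onlyB t := by
  rw [mem_onlyB]
  intro s hs hxs
  by_contra hne
  rcases Nat.lt_or_ge j (lev x) with h | h
  · exact W.nj x (by omega) ⟨s, t, hs, t.2, hne, hxs, hx⟩
  · exact hne (Cp.top_eq W.gt.H W.gt.good h hs t.2 hxs hx)

theorem W2.natTop (W : W2 r j N b θ) (t : Tops P) : ∃ B, NatTop 2 t (b t) (N t) (θ t) B := by
  have hm := W.six
  have hgr := W.gt.H.gradedBelow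
  rcases W.typ t with ⟨h1, h2, h3, h6⟩ | ⟨Nc, co, h0, h1, h2, h3, h4⟩ |
    ⟨Nc, co, h0, h1, h2, h3, h4⟩
  · rw [h1, h2, h3]
    exact ⟨_, natTop_light hgr (fun x hx hxi => W.lowOnly hx (by omega)) h6⟩
  · rw [h1, h2]
    exact ⟨_, h0.natTop hgr (by omega)⟩
  · rw [h1, h2, h3]
    exact ⟨_, h0.natTop hgr (by omega) (by omega)⟩

lemma W2.natSys (W : W2 r j N b θ) : NatSys N := by
  choose B hB using W.natTop
  exact natSys_of_tops hB

lemma W2.low (W : W2 r j N b θ) {x : P} (hx : lev x ≤ j) : x ∉ unnat N := by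
  intro h
  refine mem_unnat.mp h (topOf x) ?_
  rcases W.typ (topOf x) with ⟨h1, h2, h3, h6⟩ | ⟨Nc, co, h0, h1, h2, h3, h4⟩ |
    ⟨Nc, co, h0, h1, h2, h3, h4⟩
  · rw [h1]; exact W.lowOnly (le_topOf x) (by omega)
  · rw [h1]; exact mem_natR.mpr (Or.inl (h0.strip (mem_lowPart.mpr ⟨le_topOf x, hx⟩)))
  · rw [h1]; exact mem_natS.mpr (Or.inl (h0.strip (mem_lowPart.mpr ⟨le_topOf x, hx⟩)))

lemma W2.lt_lev (W : W2 r j N b θ) {x : P} (hx : x ∈ unnat N) : j < lev x := by
  by_contra hcon
  exact W.low (not_lt.mp hcon) hx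

/-- inner cells of rectangle-like components -/
structure InR2 (j : ℕ) (N : Tops P → Finset P) (b : Tops P → ℕ) (θ : Tops P → P → ℕ) (x : P)
    (Nc : Finset P) (co : P → ℕ × ℕ) : Prop where
  rect : RectNat j 2 (topOf x) (b (topOf x)) Nc co
  nat : N (topOf x) = natR Nc co
  mem : x ∈ Nc
  fst : 1 ≤ (co x).1
  snd : 1 ≤ (co x).2
  th : θ (topOf x) x = ((co x).1 - (b (topOf x) - 1)) + ((co x).2 - 2)
  bt : b (topOf x) = 3 ∨ (b (topOf x) = 2 ∧ (co x).1 = 1)

/-- inner cells of stair-like components -/
structure InS2sd (j : ℕ) (N : Tops P → Finset P) (θ : Tops P → P → ℕ) (x : P)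
    (Nc : Finset P) (co : P → ℕ × ℕ) : Prop where
  stair : StairNat j 2 (topOf x) Nc co
  nat : N (topOf x) = natS Nc co
  mem : x ∈ Nc
  fst : 1 ≤ (co x).1
  th : θ (topOf x) x = ((co x).1 - 2) + ((co x).2 - 2)
  pen : ∀ y z : P, y ≤ (topOf x : P) → lev y = j → (Win.uc y).card = 2 → Pend z y →
        (co y).2 = (co y).1 + 1 ∧ ∀ z', Pend z' y → z' = z

/-- the kinds of natural elements -/
theorem W2.cases (W : W2 r j N b θ) {x : P} (hx : x ∉ unnat N) : FullM 2 N θ x ∨
    (∃ Nc co, InR2 j N b θ x Nc co) ∨ (∃ Nc co, InS2sd j N θ x Nc co) := by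
  have H := W.gt.H
  have HN := W.natSys
  have hxt : x ∈ N (topOf x) := HN.mem_iff.mpr ⟨hx, rfl⟩
  have hm := W.six
  have hT := W.typ (topOf x)
  generalize ht : topOf x = t at hxt hT
  rcases hT with ⟨h1, h2, h3, h6⟩ | ⟨Nc, co, h0, h1, h2, h3, h5⟩ |
    ⟨Nc, co, h0, h1, h2, h3, h4⟩
  · left
    have hs : ∀ z ∈ unnat N, ∃ s : P, lev s = 0 ∧ z ≤ s ∧ s ≠ t := by
      intro z hz
      have h7 : z ∉ onlyB t := by
        rw [← h1]
        exact mem_unnat.mp hz t
      rw [mem_onlyB] at h7
      push Not at h7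
      exact h7
    refine ⟨by rw [ht, h2], ?_, ?_⟩
    · intro z hz hzx k _ hk
      obtain ⟨s, hs1, hs2, hs3⟩ := hs z hz
      exact two_le_nab_join HN H.gradedBelow hxt hzx hs1 hs3 hs2 hk
    · intro z hz h
      obtain ⟨s, hs1, hs2, hs3⟩ := hs z hz
      have h7 := W.lt_lev hz
      have h8 : z < s := lt_of_le_of_ne hs2 (by rintro rfl; omega)
      exact hs3 (HN.top_eq hxt hs1 ((h s).mpr h8).le)
  · -- rectangles
    by_cases hJ : x ∈ junk (fun _ => True) Nc co ∨ x ∈ junk (fun _ => True) Nc (swp co)
    · left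
      refine ⟨?_, ?_, ?_⟩
      · rw [ht, h2]
        unfold thR
        rw [if_pos hJ]
      · intro z hz hzx k hk hkx
        refine rect_two_le_nab H h0 h1 hz hzx ?_ (by omega) hkx
        rcases hJ with h | h
        · exact Or.inl h
        · exact Or.inr (Or.inl h)
      · intro z hz h
        refine mem_unnat.mp hz t ?_
        rw [h1, mem_natR]
        rcases hJ with h' | h'
        · exact Or.inr (Or.inl (junk_twin h' h))
        · exact Or.inr (Or.inr (junk_twin h' h))
    · have hxN : x ∈ Nc := by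
        rw [h1, mem_natR] at hxt
        rcases hxt with h | h | h
        · exact h
        · exact absurd (Or.inl h) hJ
        · exact absurd (Or.inr h) hJ
      have hl := h0.chart.lev x hxN
      have hb1 := h0.b_two
      have hb2 := h0.b_le
      have hrow : b t = 2 + 1 ∨ (co x).1 ≤ b t - 1 := by
        rcases h0.rows with h | h
        · exact Or.inl h
        · exact Or.inr (h x hxN)
      by_cases h7 : (co x).1 = 0 ∨ (co x).2 = 0
      · left
        refine ⟨?_, ?_, ?_⟩
        · rw [ht, h2]
          unfold thR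
          rw [if_neg hJ]
          omega
        · intro z hz hzx k hk hkx
          exact rect_two_le_nab H h0 h1 hz hzx (Or.inr (Or.inr ⟨hxN, h7⟩)) (by omega) hkx
        · intro z hz h
          have h8 := W.lt_lev hz
          rw [← lev_eq_of_up h] at h8
          rcases h7 with h7 | h7
          · obtain ⟨u, hu, hcu⟩ := h0.chart.low x hxN (0, (co x).2 - 1)
              ⟨Nat.zero_le _, Nat.sub_le _ _⟩ trivial
            refine straight_twin H h0 h1 hxN hu ?_ ?_ ?_ hz h
            · rw [hcu]
              exact Or.inr ⟨by simp only; omega, by simp only; omega⟩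
            · intro y hy hp
              rw [hcu]
              rcases hp with hp | hp
              · omega
              · exact Prod.ext (by simp only; omega) (by simp only; omega)
            · rw [hcu]
              exact Or.inl rfl
          · obtain ⟨u, hu, hcu⟩ := h0.chart.low x hxN ((co x).1 - 1, 0)
              ⟨Nat.sub_le _ _, Nat.zero_le _⟩ trivial
            refine straight_twin H h0 h1 hxN hu ?_ ?_ ?_ hz h
            · rw [hcu]
              exact Or.inl ⟨by simp only; omega, by simp only; omega⟩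
            · intro y hy hp
              rw [hcu]
              rcases hp with hp | hp
              · exact Prod.ext (by simp only; omega) (by simp only; omega)
              · omega
            · rw [hcu]
              exact Or.inr rfl
      · right; left
        refine ⟨Nc, co, ?_, ?_, hxN, by omega, by omega, ?_, ?_⟩
        · rw [ht]; exact h0
        · rw [ht]; exact h1
        · rw [ht, h2]
          unfold thR
          rw [if_neg hJ]
        · rw [ht]; omega
  · -- stairs
    by_cases hJ : x ∈ junk (fun c => c.1 ≤ c.2) Nc co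
    · left
      refine ⟨?_, ?_, ?_⟩
      · rw [ht, h2]
        unfold thS
        rw [if_pos hJ]
      · intro z hz hzx k hk hkx
        exact stair_two_le_nab H h0 h1 hz hzx (Or.inl hJ) hk hkx
      · intro z hz h
        refine mem_unnat.mp hz t ?_
        rw [h1, mem_natS]
        exact Or.inr (junk_twin hJ h)
    · have hxN : x ∈ Nc := by
        rw [h1, mem_natS] at hxt
        rcases hxt with h | h
        · exact h
        · exact absurd h hJ
      have hl := h0.chart.lev x hxN
      by_cases h7 : (co x).1 = 0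
      · left
        refine ⟨?_, ?_, ?_⟩
        · rw [ht, h2]
          unfold thS
          rw [if_neg hJ]
          omega
        · intro z hz hzx k hk hkx
          exact stair_two_le_nab H h0 h1 hz hzx (Or.inr ⟨hxN, h7⟩) hk hkx
        · intro z hz h
          have h8 := W.lt_lev hz
          rw [← lev_eq_of_up h] at h8
          obtain ⟨u, hu, hcu⟩ := h0.chart.low x hxN (0, (co x).2 - 1)
            ⟨Nat.zero_le _, Nat.sub_le _ _⟩ (Nat.zero_le _)
          refine straight_twinS H h0 (by omega) h1 hxN hu ?_ ?_ ?_ hz h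
          · rw [hcu]
            exact Or.inr ⟨by simp only; omega, by simp only; omega⟩
          · intro y hy hp
            rw [hcu]
            rcases hp with hp | hp
            · omega
            · exact Prod.ext (by simp only; omega) (by simp only; omega)
          · rw [hcu]
      · right; right
        refine ⟨Nc, co, ?_, ?_, hxN, by omega, ?_, ?_⟩
        · rw [ht]; exact h0
        · rw [ht]; exact h1
        · rw [ht, h2]
          unfold thS
          rw [if_neg hJ]
        · rw [ht]; exact h4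

/-- the system of twins -/
theorem W2.twSys (W : W2 r j N b θ) : TwSys (unnat N) (twY j N) topOf (twT N) where
  sub := fun x hx => (mem_twY.mp hx).1
  nat := fun x hx => (twT_spec (mem_twY.mp hx).2.2).1
  up := fun x hx => (twT_spec (mem_twY.mp hx).2.2).2
  inj := by
    intro x hx x' hx' h
    have h1 := mem_twY.mp hx
    have h2 := mem_twY.mp hx'
    have h3 := twT_spec h1.2.2
    have h4 := twT_spec h2.2.2
    by_contra hne
    have h5 : x < (topOf x : P) := lt_of_le_of_ne (le_topOf x) (by
      intro h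
      have := (topOf x).2
      rw [← h] at this
      omega)
    obtain ⟨u, hu, -⟩ := Hul.exists_cov h5
    have hu' : twT N x ⋖ u := (cov_of_up h3.2).mpr hu
    have hu'' : x' ⋖ u := by
      rw [h] at hu'
      exact (cov_of_up h4.2).mp hu'
    refine Win.dc_three W.gt.H hu hu'' hu' hne ?_ ?_
    · intro h6
      exact h3.1 (h6 ▸ h1.1)
    · intro h6
      rw [h] at h6
      exact h4.1 (h6 ▸ h2.1)
  anti := by
    intro x hx y hy h
    have h1 := mem_twY.mp hx
    have h2 := mem_twY.mp hy
    have := lev_strictAnti h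
    omega
  cp := by
    intro x hx
    have h1 := mem_twY.mp hx
    have h3 := twT_spec h1.2.2
    have h5 : x < (topOf x : P) := lt_of_le_of_ne (le_topOf x) (by
      intro h
      have := (topOf x).2
      rw [← h] at this
      omega)
    have h6 : twT N x ∈ N (topOf (twT N x)) := W.natSys.mem_iff.mpr ⟨h3.1, rfl⟩
    exact (Subtype.ext (W.natSys.top_eq h6 (topOf x).2 ((h3.2 _).mpr h5).le)).symm

/-- the natural partner of a twin is an inner cell -/
lemma W2.tw_inner (W : W2 r j N b θ) {x : P} (hx : x ∈ twY j N) :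
    (∃ Nc co, InR2 j N b θ (twT N x) Nc co) ∨ ∃ Nc co, InS2sd j N θ (twT N x) Nc co := by
  have h1 := mem_twY.mp hx
  have h3 := twT_spec h1.2.2
  rcases W.cases h3.1 with h | h | h
  · exact absurd h3.2 (h.tw x h1.1)
  · exact Or.inl h
  · exact Or.inr h

/-- no joins: all elements above have the same top -/
lemma W2.top_cov (W : W2 r j N b θ) {z x : P} (hl : lev z = j + 1) (hzx : z ⋖ x) :
    topOf x = topOf z := by
  by_contra hne
  refine W.nj z hl ⟨topOf x, topOf z, (topOf x).2, (topOf z).2, fun h => hne (Subtype.ext h), ?_,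
    le_topOf z⟩
  exact hzx.le.trans (le_topOf x)

end Pool.Agent.GaussPoset
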