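import Pool.Agent.W_448sd_h84.SdC

/-!
# Window 2: costs of cells (MP_448cb3_co)
-/

namespace Pool.Agent.GaussPoset

set_option linter.unusedSectionVars false

open Polynomial Finset

universe u

variable {P : Type u} [Fintype P] [PartialOrder P] [DecidableEq P] {r j : ℕ}

/-- row 1: full label -/
lemma sd_row1 {x : P} (hl : 3 ≤ lev x) (h2 : ∀ k, 2 < k → k < lev x → 2 ≤ nab k x) :
    (lev x - 1) * (lev x - 2) ≤ ct 2 (lev x - 2) x + (lev x - 2) := by
  have h3 := sq_le_cst (i := 2) (h := fun _ : P => lev x - 2) (z := x) (by omega) rfl h2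
  have h4 : ct 2 (lev x - 2) x = cst 2 (fun _ => lev x - 2) x := rfl
  rw [h4]
  obtain ⟨a, ha⟩ : ∃ a, lev x = a + 2 := ⟨lev x - 2, by omega⟩
  rw [ha, Nat.add_sub_cancel] at h3
  rw [ha, Nat.add_sub_cancel, show a + 2 - 1 = a + 1 by omega]
  have h5 : (a + 1) * a = a ^ 2 + a := by ring
  omega

section Rect

variable {t : P} {Nc : Finset P} {co : P → ℕ × ℕ}

/-- a deep cell of a rectangle -/
lemma sd_rect_deep (C : Chart t (fun _ => True) Nc co) {x : P} (hx : x ∈ Nc)
    (h1 : 2 ≤ (co x).1) (h2 : 2 ≤ (co x).2) (hl : 7 ≤ lev x) :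
    (lev x - 1) * (lev x - 2) < ct 2 (lev x - 3) x + (lev x - 3) := by
  have hlc := C.lev x hx
  obtain ⟨a, ha⟩ : ∃ a, lev x = 2 + (a + 5) := ⟨lev x - 7, by omega⟩
  have hn : ∀ n, 1 ≤ n → n < a + 5 → 1 + ind 1 (a + 5) n + ind 1 (a + 4) n + 0 ≤
      nab (2 + n) x := by
    intro n hn1 hn2
    have h3 := rect_nab C hx (k := 2 + n) (by omega)
    unfold ind
    split_ifs <;> omega
  have h4 := cst_ge_shift (h := fun _ => lev x - 3)
    (fun n => 1 + ind 1 (a + 5) n + ind 1 (a + 4) n + 0) ha (by omega) hn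
  rw [sum_split4] at h4
  have g1 := Finset.sum_range_id_mul_two (a + 5)
  have g2 := sum_ind (s := 1) (a := a + 5) (m := a + 5) le_rfl
  have g3 := sum_ind (s := 1) (a := a + 4) (m := a + 5) (by omega)
  rw [show a + 5 - 1 = a + 4 by omega] at g1 g2
  rw [show a + 4 - 1 = a + 3 by omega] at g3
  simp only [mul_one, Nat.sub_self, mul_zero, add_zero] at h4 g1 g2 g3
  have e1 : (a + 5) * (a + 4) = a * a + 9 * a + 20 := by ring
  have e2 : (a + 4) * (a + 3) = a * a + 7 * a + 12 := by ring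
  rw [e1] at g1 g2
  rw [e2] at g3
  have h5 : ct 2 (lev x - 3) x = cst 2 (fun _ => lev x - 3) x := rfl
  rw [h5]
  have e3 : (lev x - 1) * (lev x - 2) = a * a + 11 * a + 30 := by
    rw [ha, show 2 + (a + 5) - 1 = a + 6 by omega, show 2 + (a + 5) - 2 = a + 5 by omega]
    ring
  rw [e3]
  omega

end Rect

/-- the cost of a cell of a stair -/
def cS (a c h : ℕ) : ℕ := ∑ k ∈ range (a + c + 1), min h (k - 2) * (min (k / 2) a + 1 - (k - c))

section Stair

variable {t : P} {Nc : Finset P} {co : P → ℕ × ℕ}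

lemma sd_stair_ct (C : Chart t (fun c => c.1 ≤ c.2) Nc co) {x : P} (hx : x ∈ Nc) (h : ℕ) :
    ct 2 h x = cS (co x).1 (co x).2 h := by
  have hlc := C.lev x hx
  unfold ct cS
  rw [cst_eq, hlc]
  refine Finset.sum_congr rfl fun k hk => ?_
  rw [mem_range] at hk
  have h3 := stair_nab C hx (k := k) (by omega)
  congr 1
  omega

/-- a deep cell of a stair -/
lemma sd_stair_deep (C : Chart t (fun c => c.1 ≤ c.2) Nc co) {x : P} (hx : x ∈ Nc)
    (h1 : 2 ≤ (co x).1) (hl : 7 ≤ lev x) (h4 : co x ≠ (4, 4)) :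
    (lev x - 1) * (lev x - 2) ≤ ct 2 (lev x - 3) x + (lev x - 3) := by
  have hlc := C.lev x hx
  have hm : (co x).1 ≤ (co x).2 := C.mem x hx
  by_cases hr : (co x).1 = 2
  · obtain ⟨a, ha⟩ : ∃ a, lev x = 2 + (a + 5) := ⟨lev x - 7, by omega⟩
    have hn : ∀ n, 1 ≤ n → n < a + 5 → 1 + ind 1 (a + 5) n + ind 2 (a + 4) n + 0 ≤
        nab (2 + n) x := by
      intro n hn1 hn2
      have h3 := stair_nab C hx (k := 2 + n) (by omega)
      unfold ind
      split_ifs <;> omega
    have h5 := cst_ge_shift (h := fun _ => lev x - 3)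
      (fun n => 1 + ind 1 (a + 5) n + ind 2 (a + 4) n + 0) ha (by omega) hn
    rw [sum_split4] at h5
    have g1 := Finset.sum_range_id_mul_two (a + 5)
    have g2 := sum_ind (s := 1) (a := a + 5) (m := a + 5) le_rfl
    have g3 := sum_ind (s := 2) (a := a + 4) (m := a + 5) (by omega)
    rw [show a + 5 - 1 = a + 4 by omega] at g1 g2
    rw [show a + 4 - 1 = a + 3 by omega] at g3
    simp only [mul_one, Nat.sub_self, mul_zero, add_zero] at h5 g1 g2 g3
    have e1 : (a + 5) * (a + 4) = a * a + 9 * a + 20 := by ring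
    have e2 : (a + 4) * (a + 3) = a * a + 7 * a + 12 := by ring
    rw [e1] at g1 g2
    rw [e2] at g3
    have h6 : ct 2 (lev x - 3) x = cst 2 (fun _ => lev x - 3) x := rfl
    rw [h6]
    have e3 : (lev x - 1) * (lev x - 2) = a * a + 11 * a + 30 := by
      rw [ha, show 2 + (a + 5) - 1 = a + 6 by omega, show 2 + (a + 5) - 2 = a + 5 by omega]
      ring
    rw [e3]
    omega
  · by_cases hs : lev x ≤ 10
    · rw [sd_stair_ct C hx]
      have hc4 : ¬ ((co x).1 = 4 ∧ (co x).2 = 4) := fun h => h4 (Prod.ext h.1 h.2)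
      rw [hlc]
      generalize (co x).1 = a at *
      generalize (co x).2 = c at *
      have ha : a = 3 ∨ a = 4 ∨ a = 5 := by omega
      rcases ha with rfl | rfl | rfl
      · have hc : c = 4 ∨ c = 5 ∨ c = 6 ∨ c = 7 := by omega
        rcases hc with rfl | rfl | rfl | rfl <;> decide
      · have hc : c = 5 ∨ c = 6 := by omega
        rcases hc with rfl | rfl <;> decide
      · have hc : c = 5 := by omega
        subst hc
        decide
    · obtain ⟨a, ha⟩ : ∃ a, lev x = 2 + (a + 9) := ⟨lev x - 11, by omega⟩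
      have hn : ∀ n, 1 ≤ n → n < a + 9 →
          1 + ind 1 (a + 8) n + ind 2 (a + 6) n + ind 4 (a + 4) n ≤ nab (2 + n) x := by
        intro n hn1 hn2
        have h3 := stair_nab C hx (k := 2 + n) (by omega)
        unfold ind
        split_ifs <;> omega
      have h5 := cst_ge_shift (h := fun _ => lev x - 3) (fun n => 1 + ind 1 (a + 8) n +
        ind 2 (a + 6) n + ind 4 (a + 4) n) ha (by omega) hn
      rw [sum_split4] at h5
      have g1 := Finset.sum_range_id_mul_two (a + 9)
      have g2 := sum_ind (s := 1) (a := a + 8) (m := a + 9) (by omega)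
      have g3 := sum_ind (s := 2) (a := a + 6) (m := a + 9) (by omega)
      have g4 := sum_ind (s := 4) (a := a + 4) (m := a + 9) (by omega)
      rw [show a + 9 - 1 = a + 8 by omega] at g1
      rw [show a + 8 - 1 = a + 7 by omega] at g2
      rw [show a + 6 - 1 = a + 5 by omega] at g3
      rw [show a + 4 - 1 = a + 3 by omega] at g4
      simp only [mul_one, Nat.sub_self, mul_zero, add_zero] at h5 g1 g2 g3 g4
      have e1 : (a + 9) * (a + 8) = a * a + 17 * a + 72 := by ring
      have e2 : (a + 8) * (a + 7) = a * a + 15 * a + 56 := by ring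
      have e3 : (a + 6) * (a + 5) = a * a + 11 * a + 30 := by ring
      have e4 : (a + 4) * (a + 3) = a * a + 7 * a + 12 := by ring
      rw [e1] at g1
      rw [e2] at g2
      rw [e3] at g3
      rw [e4] at g4
      have h6 : ct 2 (lev x - 3) x = cst 2 (fun _ => lev x - 3) x := rfl
      rw [h6]
      have e5 : (lev x - 1) * (lev x - 2) = a * a + 19 * a + 90 := by
        rw [ha, show 2 + (a + 9) - 1 = a + 10 by omega, show 2 + (a + 9) - 2 = a + 9 by omega]
        ring
      rw [e5]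
      norm_num at g3 g4
      omega

/-- the fold end of level `j = 2 m ≥ 14` -/
lemma sd_fold_deep (C : Chart t (fun c => c.1 ≤ c.2) Nc co) {x : P} (hx : x ∈ Nc) {m : ℕ}
    (h1 : co x = (m, m)) (hm : 7 ≤ m) :
    lev x * (lev x - 1) ≤ ct 2 (lev x - 3) x + (lev x - 3) := by
  have hlc := C.lev x hx
  rw [h1] at hlc
  simp only at hlc
  obtain ⟨a, ha⟩ : ∃ a, lev x = 2 + (a + 12) := ⟨lev x - 14, by omega⟩
  have hn : ∀ n, 1 ≤ n → n < a + 12 →
      1 + ind 1 (a + 11) n + ind 2 (a + 9) n + ind 4 (a + 7) n ≤ nab (2 + n) x := by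
    intro n hn1 hn2
    have h3 := stair_nab C hx (k := 2 + n) (by omega)
    rw [h1] at h3
    simp only at h3
    unfold ind
    split_ifs <;> omega
  have h5 := cst_ge_shift (h := fun _ => lev x - 3) (fun n => 1 + ind 1 (a + 11) n +
    ind 2 (a + 9) n + ind 4 (a + 7) n) ha (by omega) hn
  rw [sum_split4] at h5
  have g1 := Finset.sum_range_id_mul_two (a + 12)
  have g2 := sum_ind (s := 1) (a := a + 11) (m := a + 12) (by omega)
  have g3 := sum_ind (s := 2) (a := a + 9) (m := a + 12) (by omega)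
  have g4 := sum_ind (s := 4) (a := a + 7) (m := a + 12) (by omega)
  rw [show a + 12 - 1 = a + 11 by omega] at g1
  rw [show a + 11 - 1 = a + 10 by omega] at g2
  rw [show a + 9 - 1 = a + 8 by omega] at g3
  rw [show a + 7 - 1 = a + 6 by omega] at g4
  simp only [mul_one, Nat.sub_self, mul_zero, add_zero] at h5 g1 g2 g3 g4
  have e1 : (a + 12) * (a + 11) = a * a + 23 * a + 132 := by ring
  have e2 : (a + 11) * (a + 10) = a * a + 21 * a + 110 := by ring
  have e3 : (a + 9) * (a + 8) = a * a + 17 * a + 72 := by ring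
  have e4 : (a + 7) * (a + 6) = a * a + 13 * a + 42 := by ring
  rw [e1] at g1
  rw [e2] at g2
  rw [e3] at g3
  rw [e4] at g4
  have h6 : ct 2 (lev x - 3) x = cst 2 (fun _ => lev x - 3) x := rfl
  rw [h6]
  have e5 : lev x * (lev x - 1) = a * a + 27 * a + 182 := by
    rw [ha, show 2 + (a + 12) - 1 = a + 13 by omega]
    ring
  rw [e5]
  norm_num at g3 g4
  omega

end Stair

end Pool.Agent.GaussPoset
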