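import Pool.Agent.W_448sd_h84.SdD

/-!
# The leading term of a twin pair with any threshold; twins at window 2 (MP_448cb3_co)
-/

namespace Pool.Agent.GaussPoset

set_option linter.unusedSectionVars false

open Polynomial Finset

universe u

variable {P : Type u} [Fintype P] [PartialOrder P] [DecidableEq P]

section Term

variable {i : ℕ} {θ : P → ℕ} {t : P × P}

lemma sd_rho_up (H : Twn i θ t) {y : P} (h : t.1 < y) (hl : lev y ≤ i + (θ t.1 + 1)) :
    rho i (tez i θ t) y = (lev y : ℤ) - i := by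
  unfold rho
  rw [tez_up H h]
  rcases le_total (lev y) i with h1 | h1
  · have h2 : lev y - i = 0 := by omega
    rw [h2, Nat.min_zero]
    omega
  · rw [Nat.min_eq_right (by omega)]
    omega

lemma sd_rho_up' (H : Twn i θ t) {y : P} (h : t.1 < y) (hl : i + (θ t.1 + 1) ≤ lev y) :
    rho i (tez i θ t) y = (θ t.1 : ℤ) + 1 := by
  unfold rho
  rw [tez_up H h, Nat.min_eq_left (by omega)]
  omega

lemma sd_rho_snd (H : Twn i θ t) : rho i (tez i θ t) t.2 = (θ t.1 : ℤ) + 1 := by
  have hl : lev t.1 = lev t.2 := lev_eq_of_up H.up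
  have h1 := H.lt
  unfold rho
  rw [tez_snd H.ne]
  omega

lemma sd_rho_fst (H : Twn i θ t) : rho i (tez i θ t) t.1 = (θ t.1 : ℤ) := by
  have h1 := H.lt
  unfold rho
  rw [tez_fst]
  omega

lemma sd_rho_le (H : Twn i θ t) (w : P) : rho i (tez i θ t) w ≤ (θ t.1 : ℤ) + 1 := by
  by_cases h3 : t.1 < w
  · rcases le_total (lev w) (i + (θ t.1 + 1)) with h | h
    · rw [sd_rho_up H h3 h]; omega
    · rw [sd_rho_up' H h3 h]
  · by_cases h1 : w = t.1
    · rw [h1, sd_rho_fst H]; omega
    · by_cases h2 : w = t.2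
      · rw [h2, sd_rho_snd H]
      · rw [rho_tez_off h1 h2 h3]; omega

lemma sd_FI (H : Twn i θ t) (y : P) :
    FI i (tez i θ t) y ↔ lev y < i ∨ (t.2 ≤ y ∧ lev y < i + (θ t.1 + 1)) := by
  have hl : lev t.1 = lev t.2 := lev_eq_of_up H.up
  have hθ := H.one_le
  have hlt := H.lt
  unfold FI
  constructor
  · rintro (h | ⟨w, hw, h⟩)
    · left
      by_contra hcon
      by_cases h3 : t.1 < y
      · rcases le_total (lev y) (i + (θ t.1 + 1)) with h5 | h5
        · rw [sd_rho_up H h3 h5] at h; omega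
        · rw [sd_rho_up' H h3 h5] at h; omega
      · by_cases h1 : y = t.1
        · rw [h1, sd_rho_fst H] at h; omega
        · by_cases h2 : y = t.2
          · rw [h2, sd_rho_snd H] at h; omega
          · rw [rho_tez_off h1 h2 h3] at h; omega
    · have hlw := lev_strictAnti hw
      by_cases h3 : t.1 < y
      · right
        refine ⟨((H.up y).mp h3).le, ?_⟩
        by_contra hcon
        rw [sd_rho_up' H h3 (by omega)] at h
        have := sd_rho_le H w
        omega
      · left
        have hw1 : w ≠ t.1 := fun h5 => h3 (h5 ▸ hw)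
        have hw2 : w ≠ t.2 := fun h5 => h3 ((H.up y).mpr (h5 ▸ hw))
        have hw3 : ¬ t.1 < w := fun h5 => h3 (h5.trans hw)
        rw [rho_tez_off hw1 hw2 hw3] at h
        by_cases h1 : y = t.1
        · rw [h1, sd_rho_fst H] at h; omega
        · by_cases h2 : y = t.2
          · rw [h2, sd_rho_snd H] at h; omega
          · rw [rho_tez_off h1 h2 h3] at h; omega
  · rintro (h | ⟨h, h4⟩)
    · left
      by_cases h3 : t.1 < y
      · rw [sd_rho_up H h3 (by omega)]; omega
      · have h1 : y ≠ t.1 := by rintro rfl; omega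
        have h2 : y ≠ t.2 := by rintro rfl; omega
        rw [rho_tez_off h1 h2 h3]; omega
    · right
      have hne : t.2 ≠ y := by rintro rfl; omega
      have hlt2 := lt_of_le_of_ne h hne
      refine ⟨t.2, hlt2, ?_⟩
      rw [sd_rho_snd H, sd_rho_up H ((H.up y).mpr hlt2) (by omega)]
      omega

lemma sd_FA (H : Twn i θ t) (y : P) :
    FA i (tez i θ t) y ↔ (i < lev y ∧ ¬ t.2 ≤ y) ∨
      (t.2 ≤ y ∧ i + (θ t.1 + 1) < lev y) := by
  have hl : lev t.1 = lev t.2 := lev_eq_of_up H.up
  have hθ := H.one_le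
  have hlt := H.lt
  unfold FA
  constructor
  · rintro ⟨w, hw, h⟩
    have hlw := lev_strictAnti hw
    by_cases h3 : t.1 < y
    · right
      refine ⟨((H.up y).mp h3).le, ?_⟩
      by_contra hcon
      rw [sd_rho_up H h3 (by omega), sd_rho_up H (h3.trans hw) (by omega)] at h
      omega
    · by_cases h2 : y = t.2
      · right
        refine ⟨h2.ge, ?_⟩
        by_contra hcon
        have h4 : t.1 < w := (H.up w).mpr (h2 ▸ hw)
        rw [sd_rho_up H h4 (by omega), h2, sd_rho_snd H] at h
        omega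
      · left
        refine ⟨?_, fun h4 => h3 ((H.up y).mpr (lt_of_le_of_ne h4 (Ne.symm h2)))⟩
        by_cases h1 : y = t.1
        · rw [h1]; omega
        · by_contra hcon
          rw [rho_tez_off h1 h2 h3] at h
          by_cases h5 : t.1 < w
          · rw [sd_rho_up H h5 (by omega)] at h; omega
          · have h6 : w ≠ t.1 := by rintro rfl; omega
            have h7 : w ≠ t.2 := by rintro rfl; omega
            rw [rho_tez_off h6 h7 h5] at h; omega
  · rintro (⟨h1, h2⟩ | ⟨h1, h2⟩)
    · have h3 : ¬ t.1 < y := fun h => h2 ((H.up y).mp h).le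
      have h2' : y ≠ t.2 := fun h => h2 h.ge
      by_cases h4 : y = t.1
      · obtain ⟨w, hw1, hw2⟩ := exists_above' (x := y) (j := lev y - 1) (by omega)
        have hne : y ≠ w := by rintro rfl; omega
        have hlt2 := lt_of_le_of_ne hw1 hne
        refine ⟨w, hlt2, ?_⟩
        have h6 := h4 ▸ hlt2
        rw [h4] at hw2
        rw [h4, sd_rho_fst H]
        rcases le_total (lev w) (i + (θ t.1 + 1)) with h5 | h5
        · rw [sd_rho_up H h6 h5]; omega
        · rw [sd_rho_up' H h6 h5]; omega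
      · obtain ⟨w, hw1, hw2⟩ := exists_above' (x := y) (j := i) h1.le
        have hne : y ≠ w := by rintro rfl; omega
        have hlt2 := lt_of_le_of_ne hw1 hne
        refine ⟨w, hlt2, ?_⟩
        rw [rho_tez_off h4 h2' h3]
        by_cases h5 : t.1 < w
        · rw [sd_rho_up H h5 (by omega)]; omega
        · have h6 : w ≠ t.1 := by rintro rfl; omega
          have h7 : w ≠ t.2 := by rintro rfl; omega
          rw [rho_tez_off h6 h7 h5]; omega
    · obtain ⟨w, hw1, hw2⟩ := exists_above' (x := y) (j := i + (θ t.1 + 1)) h2.le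
      have hne : y ≠ w := by rintro rfl; omega
      have hlt2 := lt_of_le_of_ne hw1 hne
      refine ⟨w, hlt2, ?_⟩
      have h3 : t.1 < w := (H.up w).mpr (lt_of_le_of_lt h1 hlt2)
      rw [sd_rho_up' H h3 hw2.ge]
      exact sd_rho_le H y

/-- a twin pair contributes as if the second element had one more than the threshold -/
theorem sd_Tm_eq (hgr : GradedBelow P) (H : Twn i θ t) :
    Tm i θ t = Lt i (fun _ => θ t.1 + 1) t.2 := by
  classical
  have hl : lev t.1 = lev t.2 := lev_eq_of_up H.up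
  have hθ := H.one_le
  have hlt := H.lt
  have h1 : ∀ F : Finset P, Vd i (tez i θ t) F ↔ Vd i (ez i (fun _ => θ t.1 + 1) t.2) F := by
    intro F
    rw [vd_iff, vd_iff]
    have h2 : ∀ y, FI i (tez i θ t) y ↔ FI i (ez i (fun _ => θ t.1 + 1) t.2) y := by
      intro y
      rw [sd_FI H, FI_ez hgr (by omega) (by omega)]
    have h3 : ∀ y, FA i (tez i θ t) y ↔ FA i (ez i (fun _ => θ t.1 + 1) t.2) y := by
      intro y
      rw [sd_FA H, FA_ez]
    simp only [h2, h3]
  unfold Tm
  rw [Finset.sum_congr rfl (g := fun F => if Vd i (ez i (fun _ => θ t.1 + 1) t.2) F then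
    (X : ℤ[X]) ^ F.card else 0) (fun F _ => by simp only [h1 F]), sum_vd]
  exact lead_eq (h := fun _ => θ t.1 + 1) (z := t.2) hgr (by omega) (by omega)

end Term

variable {r j : ℕ} {N : Tops P → Finset P} {b : Tops P → ℕ} {θ : Tops P → P → ℕ}

/-- thresholds of natural elements -/
lemma W2.sd_le (W : W2 r j N b θ) {y : P} (hy : y ∉ unnat N) : θ (topOf y) y ≤ lev y - 2 := by
  rcases W.cases hy with h | ⟨Nc, co, h⟩ | ⟨Nc, co, h⟩
  · exact h.th.le
  · have h1 := h.rect.chart.lev _ h.mem
    have h2 := h.th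
    have h3 := h.fst
    have h4 := h.snd
    have h5 := h.bt
    omega
  · have h1 := h.stair.chart.lev _ h.mem
    have h2 := h.th
    have h3 := h.fst
    have h4 : (co y).1 ≤ (co y).2 := h.stair.chart.mem _ h.mem
    omega

/-- the level of the partner -/
lemma W2.tw_lev (W : W2 r j N b θ) {x : P} (hx : x ∈ twY j N) : lev (twT N x) = j + 1 := by
  rw [W.twSys.lev hx]; exact (mem_twY.mp hx).2.1

/-- thresholds of twins -/
lemma W2.tw_th (W : W2 r j N b θ) {x : P} (hx : x ∈ twY j N) :
    j - 3 ≤ θ (topOf (twT N x)) (twT N x) ∧ θ (topOf (twT N x)) (twT N x) ≤ j - 2 := by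
  have h5 := W.tw_lev hx
  have hm := W.six
  rcases W.tw_inner hx with ⟨Nc, co, h⟩ | ⟨Nc, co, h⟩
  · have h6 := h.rect.chart.lev _ h.mem
    have h7 := h.fst
    have h8 := h.snd
    have h9 := h.th
    have h10 := h.bt
    omega
  · have h6 := h.stair.chart.lev _ h.mem
    have h7 := h.fst
    have h8 : (co (twT N x)).1 ≤ (co (twT N x)).2 := h.stair.chart.mem _ h.mem
    have h9 := h.th
    omega

lemma W2.sdT_nat (W : W2 r j N b θ) {y : P} (hy : y ∉ unnat N) :
    sdT j N θ y = θ (topOf y) y := thX_not fun h => hy (mem_twY.mp h).1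

lemma W2.sdT_tw (W : W2 r j N b θ) {x : P} (hx : x ∈ twY j N) :
    sdT j N θ (twT N x) = θ (topOf (twT N x)) (twT N x) := W.sdT_nat (W.twSys.nat x hx)

/-- the pairs of twins -/
theorem W2.twn (W : W2 r j N b θ) {x : P} (hx : x ∈ twY j N) :
    Twn 2 (sdT j N θ) (twT N x, x) := by
  have hj := W.six
  have T := W.twSys
  have hlev := W.tw_lev hx
  obtain ⟨h1, h2⟩ := W.tw_th hx
  have h3 := W.sdT_tw hx
  refine ⟨?_, T.up x hx, ?_, ?_, ?_, ?_⟩
  · intro h
    have h' : twT N x = x := h
    exact T.nat x hx (h'.symm ▸ (mem_twY.mp hx).1)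
  · show 1 ≤ sdT j N θ (twT N x)
    omega
  · show sdT j N θ x = sdT j N θ (twT N x)
    rw [h3]
    exact thX_of hx
  · show sdT j N θ (twT N x) + 1 ≤ lev (twT N x) - 2
    omega
  · intro y hy
    have hy' : twT N x < y := hy
    have hyN : y ∉ unnat N := by
      intro h
      exact T.nat x hx (W.natSys.lower _ y hy'.le h)
    have h4 := W.sd_le hyN
    have h5 := lev_strictAnti hy'
    show sdT j N θ y ≤ sdT j N θ (twT N x) + 1
    rw [W.sdT_nat hyN]
    omega

/-- the cost of a pair of twins -/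
theorem W2.tcst_eq (W : W2 r j N b θ) {x : P} (hx : x ∈ twY j N) :
    tcst 2 (sdT j N θ) (twT N x, x) = ct 2 (θ (topOf (twT N x)) (twT N x) + 1) (twT N x) +
      θ (topOf (twT N x)) (twT N x) := by
  classical
  have hj := W.six
  have hlev := W.tw_lev hx
  obtain ⟨h1, h2⟩ := W.tw_th hx
  rw [Pool.Agent.GaussPoset.tcst_eq (W.twn hx)]
  simp only
  rw [W.sdT_tw hx, ct_succ, hlev, Nat.min_eq_left (by omega)]
  omega

/-- no twins of a cell of the diagonal -/
lemma W2.tw_nodiag (W : W2 r j N b θ) {x : P} (hx : x ∈ twY j N) {Nc : Finset P}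
    {co : P → ℕ × ℕ} (h : InS2sd j N θ (twT N x) Nc co) :
    (co (twT N x)).1 < (co (twT N x)).2 := by
  classical
  have H := W.gt.H
  have hj := W.six
  have T := W.twSys
  have hlev := W.tw_lev hx
  have C := h.stair.chart
  have h6 := C.lev _ h.mem
  have h7 := h.fst
  have h8 : (co (twT N x)).1 ≤ (co (twT N x)).2 := C.mem _ h.mem
  by_contra hcon
  obtain ⟨w, hw, hcw⟩ := C.low _ h.mem ((co (twT N x)).1 - 1, (co (twT N x)).2)
    ⟨Nat.sub_le _ _, le_rfl⟩ (by simp only; omega)
  have hyw : twT N x ⋖ w := by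
    rw [chart_cov C H h.mem hw, hcw]
    exact Or.inl ⟨by simp only; omega, rfl⟩
  have honly : ∀ y, twT N x ⋖ y → y = w := by
    intro y hy
    have hyN := C.up _ h.mem y hy.1.le
    have h9 : (co y).1 ≤ (co y).2 := C.mem y hyN
    have e := (chart_cov C H h.mem hyN).mp hy
    refine C.inj y hyN w hw ?_
    rw [hcw]
    rcases e with e | e
    · exact Prod.ext (by simp only; omega) (by simp only; omega)
    · omega
  have hlw : lev w = j := by
    have := (H.covBy_iff.mp hyw).2
    omega
  have hw2 : (Win.uc w).card = 2 := chartS_inner_uc C H hw (by rw [hcw]; simp only; omega)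
    (by rw [hcw]; simp only; omega)
  have hP : Pend (twT N x) w := ⟨hyw, honly⟩
  have hP' : Pend x w := ⟨(T.cov hx).mp hyw, fun y hy => honly y ((T.cov hx).mpr hy)⟩
  have hwt : w ≤ (topOf (twT N x) : P) := by
    rw [W.natSys.cp _ w hyw.1.le (T.nat x hx)]
    exact le_topOf _
  have h9 := (h.pen w (twT N x) hwt hlw hw2 hP).2 x hP'
  exact T.nat x hx (h9 ▸ (mem_twY.mp hx).1)

end Pool.Agent.GaussPoset
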