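import Pool.Agent.W_448sd_h84.SdE

/-!
# Window 2: costs of twins and of boundary elements of high level (MP_448cb3_co)
-/

namespace Pool.Agent.GaussPoset

set_option linter.unusedSectionVars false

open Polynomial Finset

universe u

variable {P : Type u} [Fintype P] [PartialOrder P] [DecidableEq P] {r j : ℕ}
  {N : Tops P → Finset P} {b : Tops P → ℕ} {θ : Tops P → P → ℕ}

/-- the inner cells of rectangle-like components -/
lemma InR2.cost {x : P} {Nc : Finset P} {co : P → ℕ × ℕ} (h : InR2 j N b θ x Nc co)
    (hl : 7 ≤ lev x) :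
    (θ (topOf x) x + 1 = lev x - 2 ∧ (∀ k, 2 ≤ k → k < lev x → 2 ≤ nab k x) ∧ nab 2 x = 2) ∨
      (θ (topOf x) x + 1 = lev x - 3 ∧
        (lev x - 1) * (lev x - 2) < ct 2 (θ (topOf x) x + 1) x + (θ (topOf x) x + 1)) := by
  have C := h.rect.chart
  have hlc := C.lev x h.mem
  have h1 := h.fst
  have h2 := h.snd
  have h3 := h.th
  have h4 := h.bt
  by_cases h5 : 2 ≤ (co x).1 ∧ 2 ≤ (co x).2
  · right
    have h6 : θ (topOf x) x + 1 = lev x - 3 := by omega
    refine ⟨h6, ?_⟩
    rw [h6]
    exact sd_rect_deep C h.mem h5.1 h5.2 hl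
  · left
    refine ⟨by omega, fun k hk hk2 => ?_, ?_⟩
    · have h6 := rect_nab C h.mem (k := k) (by omega)
      omega
    · have h6 := rect_nab C h.mem (k := 2) (by omega)
      omega

/-- the inner cells of stair-like components -/
lemma InS2sd.cost {x : P} {Nc : Finset P} {co : P → ℕ × ℕ} (h : InS2sd j N θ x Nc co)
    (hl : 7 ≤ lev x) :
    (θ (topOf x) x + 1 = lev x - 2 ∧ (∀ k, 2 ≤ k → k < lev x → 2 ≤ nab k x) ∧ nab 2 x = 2) ∨
      co x = (4, 4) ∨
      (θ (topOf x) x + 1 = lev x - 3 ∧ 2 ≤ (co x).1 ∧
        (lev x - 1) * (lev x - 2) ≤ ct 2 (θ (topOf x) x + 1) x + (θ (topOf x) x + 1)) := by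
  have C := h.stair.chart
  have hlc := C.lev x h.mem
  have h1 := h.fst
  have h3 := h.th
  have h4 : (co x).1 ≤ (co x).2 := C.mem x h.mem
  by_cases h5 : 2 ≤ (co x).1
  · right
    by_cases h44 : co x = (4, 4)
    · exact Or.inl h44
    · right
      have h6 : θ (topOf x) x + 1 = lev x - 3 := by omega
      refine ⟨h6, h5, ?_⟩
      rw [h6]
      exact sd_stair_deep C h.mem h5 hl h44
  · left
    refine ⟨by omega, fun k hk hk2 => ?_, ?_⟩
    · have h6 := stair_nab C h.mem (k := k) (by omega)
      omega
    · have h6 := stair_nab C h.mem (k := 2) (by omega)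
      omega

/-- natural elements of level at least `j + 1` -/
theorem W2.kap (W : W2 r j N b θ) {x : P} (hx : x ∉ unnat N) (hl : j + 1 ≤ lev x) :
    FullM 2 N θ x ∨ (∃ Nc co, InS2sd j N θ x Nc co ∧ co x = (4, 4)) ∨
      (lev x - 1) * (lev x - 2) ≤ ct 2 (θ (topOf x) x + 1) x + (θ (topOf x) x + 1) := by
  have hj := W.six
  rcases W.cases hx with h | ⟨Nc, co, h⟩ | ⟨Nc, co, h⟩
  · exact Or.inl h
  · right; right
    rcases h.cost (by omega) with ⟨h1, h2, -⟩ | ⟨h1, h2⟩
    · rw [h1]
      exact sd_row1 (by omega) (fun k hk hk2 => h2 k (by omega) hk2)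
    · exact h2.le
  · right
    rcases h.cost (by omega) with ⟨h1, h2, -⟩ | h1 | ⟨h1, -, h2⟩
    · right
      rw [h1]
      exact sd_row1 (by omega) (fun k hk hk2 => h2 k (by omega) hk2)
    · exact Or.inl ⟨Nc, co, h, h1⟩
    · exact Or.inr h2

/-- kinds of twins -/
theorem W2.tw_kind (W : W2 r j N b θ) {x : P} (hx : x ∈ twY j N) :
    (θ (topOf (twT N x)) (twT N x) + 1 = j - 1 ∧ (∀ k, 2 ≤ k → k ≤ j → 2 ≤ nab k (twT N x)) ∧
      nab 2 (twT N x) = 2 ∧ j * (j - 1) ≤ tcst 2 (sdT j N θ) (twT N x, x) + 1) ∨
    (θ (topOf (twT N x)) (twT N x) + 1 = j - 2 ∧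
      j * (j - 1) < tcst 2 (sdT j N θ) (twT N x, x) + 1) ∨
    (θ (topOf (twT N x)) (twT N x) + 1 = j - 2 ∧ nab 2 (twT N x) = 2 ∧ nab j (twT N x) = 2 ∧
      j * (j - 1) ≤ tcst 2 (sdT j N θ) (twT N x, x) + 1) := by
  have hj := W.six
  have hlev := W.tw_lev hx
  have e1 : lev (twT N x) - 1 = j := by omega
  have e2 : lev (twT N x) - 2 = j - 1 := by omega
  have e3 : lev (twT N x) - 3 = j - 2 := by omega
  rw [W.tcst_eq hx]
  rcases W.tw_inner hx with ⟨Nc, co, h⟩ | ⟨Nc, co, h⟩
  · rcases h.cost (by omega) with ⟨h1, h2, h3⟩ | ⟨h1, h2⟩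
    · left
      rw [e2] at h1
      refine ⟨h1, fun k hk hk2 => h2 k hk (by omega), h3, ?_⟩
      have h4 := sd_row1 (x := twT N x) (by omega) (fun k hk hk2 => h2 k (by omega) hk2)
      rw [e1, e2] at h4
      rw [h1]
      omega
    · right; left
      rw [e3] at h1
      rw [e1, e2] at h2
      exact ⟨h1, by omega⟩
  · have hnd := W.tw_nodiag hx h
    rcases h.cost (by omega) with ⟨h1, h2, h3⟩ | h1 | ⟨h1, h5, h2⟩
    · left
      rw [e2] at h1
      refine ⟨h1, fun k hk hk2 => h2 k hk (by omega), h3, ?_⟩
      have h4 := sd_row1 (x := twT N x) (by omega) (fun k hk hk2 => h2 k (by omega) hk2)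
      rw [e1, e2] at h4
      rw [h1]
      omega
    · rw [h1] at hnd
      exact absurd hnd (lt_irrefl _)
    · right; right
      rw [e3] at h1
      rw [e1, e2] at h2
      have C := h.stair.chart
      have hlc := C.lev _ h.mem
      refine ⟨h1, ?_, ?_, by omega⟩
      · have h6 := stair_nab C h.mem (k := 2) (by omega)
        omega
      · have h6 := stair_nab C h.mem (k := j) (by omega)
        omega

/-- all twins cost at least `j (j - 1) - 1` -/
theorem W2.tw_ge (W : W2 r j N b θ) {x : P} (hx : x ∈ twY j N) :
    j * (j - 1) - 1 ≤ tcst 2 (sdT j N θ) (twT N x, x) := by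
  rcases W.tw_kind hx with h | h | h <;> omega

/-- exact far data -/
theorem W2.farX (W : W2 r j N b θ) : FarX P 2 (r2 j N) (lv P 2).card (h2 j N θ) (sdT j N θ)
    (pairsX (twY j N) (twT N)) (j * (j - 1) - 1) := by
  choose B hB using W.natTop
  have h := farX_of_tops W.gt.H.gradedBelow hB W.twSys (j * (j - 1) - 1)
    (fun x hx => W.twn hx) (fun x hx => W.tw_ge hx)
  rw [W.sum_b] at h
  exact h

/-- truncated far data -/
theorem W2.farT (W : W2 r j N b θ) :
    FarT P 2 (r2 j N) (lv P 2).card (h2 j N θ) (j * (j - 1) - 1) := by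
  choose B hB using W.natTop
  have h := farT_of_tops W.gt.H.gradedBelow hB W.twSys (j * (j - 1) - 1)
    (fun x hx => (W.twn hx).pair (W.tw_ge hx))
  rw [W.sum_b] at h
  exact h

/-- the boundary elements of level at least `j + 2` -/
theorem W2.bd (W : W2 r j N b θ) {z : P} (hz : z ∈ bdR (r2 j N)) : lev z = j + 1 ∨
    j * (j - 1) ≤ cst 2 (h2 j N θ) z ∨
    (j = 7 ∧ h2 j N θ z = 5 ∧ ∃ u Nc co, InS2sd j N θ u Nc co ∧ co u = (4, 4) ∧ Pend z u) := by
  classical
  have H := W.gt.H
  have hm := W.six
  have T := W.twSys
  have hzR : z ∈ unnat N := (mem_sdiff.mp (mem_filter.mp hz).1).1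
  have hlz := W.lt_lev hzR
  by_cases hl : lev z = j + 1
  · exact Or.inl hl
  right
  obtain ⟨u, hu, hzu, hh⟩ := hcan_spec (θ := sdT j N θ) hz
  have hlu := (H.covBy_iff.mp hzu).2
  have hhz : h2 j N θ z = sdT j N θ u + 1 := hh
  have hbig : ∀ a, j + 1 ≤ a → j * (j - 1) ≤ (a - 1) * (a - 2) := fun a ha =>
    Nat.mul_le_mul (by omega) (by omega)
  have key : ∀ (u' : P) (k : ℕ), ct 2 k u = ct 2 k u' → (lev u - 1) * (lev u - 2) ≤
      ct 2 k u' + k → k ≤ lev z - 2 → h2 j N θ z = k → j * (j - 1) ≤ cst 2 (h2 j N θ) z := by
    intro u' k h3 h4 h5 h6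
    have h7 := ct_cov (i := 2) (k := k) hzu.1
    rw [Nat.min_eq_left h5] at h7
    rw [cst_ct h6]
    have h8 := hbig (lev u) (by omega)
    omega
  by_cases huY : u ∈ twY j N
  · left
    have e1 : sdT j N θ u = θ (topOf (twT N u)) (twT N u) := thX_of huY
    have h3 := W.tw_th huY
    have hlt := W.tw_lev huY
    have hlu' := (mem_twY.mp huY).2.1
    refine key (twT N u) _ (ct_congr_up fun w => (T.up u huY w).symm) ?_ ?_
      (by rw [hhz, e1])
    · rcases W.tw_kind huY with h | h | h
      all_goals
        have h9 := W.tcst_eq huY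
        rw [show lev u - 1 = j by omega, show lev u - 2 = j - 1 by omega]
        omega
    · omega
  · have huR : u ∉ unnat N := fun h => hu (mem_sdiff.mpr ⟨h, huY⟩)
    rw [W.sdT_nat huR] at hhz
    rcases W.kap huR (by omega) with hF | ⟨Nc, co, hI, h44⟩ | hI
    · left
      rw [hF.th] at hhz
      have h3 := sq_le_cst (i := 2) (h := h2 j N θ) (z := z) (by omega)
        (by rw [hhz]; omega) (by
          intro k hk hk2
          exact hF.two z hzR hzu.le k (by omega) (by omega))
      refine le_trans ?_ h3
      rw [pow_two]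
      exact Nat.mul_le_mul (by omega) (by omega)
    · have C := hI.stair.chart
      have hlc := C.lev u hI.mem
      rw [h44] at hlc
      simp only at hlc
      have hth := hI.th
      rw [h44] at hth
      simp only at hth
      have hz5 : h2 j N θ z = 5 := by omega
      by_cases hj : j = 7
      · by_cases honly : ∀ y, z ⋖ y → y = u
        · exact Or.inr ⟨hj, hz5, u, Nc, co, hI, h44, hzu, honly⟩
        · left
          push Not at honly
          obtain ⟨v, hzv, hvu⟩ := honly
          have hlv := (H.covBy_iff.mp hzv).2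
          -- the only cover of `u`
          obtain ⟨w0, hw0, hcw0⟩ := C.low _ hI.mem (3, 4) (by rw [h44]; exact ⟨by omega, le_rfl⟩)
            (by simp only; omega)
          have huw0 : u ⋖ w0 := by
            rw [chart_cov C H hI.mem hw0, hcw0, h44]
            exact Or.inl ⟨rfl, rfl⟩
          have honly0 : ∀ y, u ⋖ y → y = w0 := by
            intro y hy
            have hyN := C.up _ hI.mem y hy.1.le
            have h9 : (co y).1 ≤ (co y).2 := C.mem y hyN
            have e := (chart_cov C H hI.mem hyN).mp hy
            rw [h44] at e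
            refine C.inj y hyN w0 hw0 ?_
            rw [hcw0]
            rcases e with e | e
            · exact Prod.ext (by simp only at *; omega) (by simp only at *; omega)
            · simp only at e
              omega
          have hlw0 : lev w0 = 7 := by
            have := (H.covBy_iff.mp huw0).2
            omega
          have hw02 : (Win.uc w0).card = 2 := chartS_inner_uc C H hw0 (by rw [hcw0]; simp)
            (by rw [hcw0]; simp)
          have hwt : w0 ≤ (topOf u : P) := by
            rw [W.natSys.cp _ w0 huw0.1.le huR]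
            exact le_topOf _
          -- `v` has a cover which is not above `u`
          have hvlt : v < (topOf v : P) := lt_of_le_of_ne (le_topOf v) (by
            intro h
            have := (topOf v).2
            rw [← h] at this
            omega)
          obtain ⟨w, hvw, hww0⟩ : ∃ w, v ⋖ w ∧ w ≠ w0 := by
            by_contra hcon
            push Not at hcon
            obtain ⟨w, hvw, -⟩ := Hul.exists_cov hvlt
            have hP : Pend v w0 := ⟨(hcon w hvw) ▸ hvw, hcon⟩
            have h9 := (hI.pen w0 u hwt (by omega) hw02 ⟨huw0, honly0⟩).2 v hP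
            exact hvu h9
          have hlw := (H.covBy_iff.mp hvw).2
          have hnvu : ¬ u ≤ v := fun h => by
            rcases eq_or_lt_of_le h with h | h
            · exact hvu h.symm
            · have := lev_strictAnti h
              omega
          have hnwu : ¬ u ≤ w := fun h => by
            rcases eq_or_lt_of_le h with h | h
            · rw [h] at hlu; omega
            · obtain ⟨y, hy, hyw⟩ := Hul.exists_cov h
              rw [honly0 y hy] at hyw
              rcases eq_or_lt_of_le hyw with h' | h'
              · exact hww0 h'.symm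
              · have := lev_strictAnti h'
                omega
          -- the cost
          rw [cst_ct hz5, ct_eq_sum]
          have h37 : ct 2 5 u = 32 := by
            rw [sd_stair_ct C hI.mem, h44]
            decide
          rw [ct_eq_sum] at h37
          have hvw' : v ≠ w := by rintro rfl; exact lt_irrefl _ hvw.1
          have hzv' : z ≠ v := by rintro rfl; exact lt_irrefl _ hzv.1
          have hzw' : z ≠ w := by
            rintro rfl
            exact lt_irrefl _ (hzv.1.trans hvw.1)
          have hnzu : ¬ u ≤ z := fun h => absurd (lt_of_le_of_lt h hzu.1) (lt_irrefl _)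
          have h10 : ∑ y, ((if u ≤ y then min 5 (lev y - 2) else 0) +
              ((if y = z then 5 else 0) + ((if y = v then 5 else 0) +
                (if y = w then 5 else 0)))) ≤ ∑ y, (if z ≤ y then min 5 (lev y - 2) else 0) := by
            refine Finset.sum_le_sum fun y _ => ?_
            by_cases h1 : u ≤ y
            · have e1 : y ≠ z := by rintro rfl; exact hnzu h1
              have e2 : y ≠ v := by rintro rfl; exact hnvu h1
              have e3 : y ≠ w := by rintro rfl; exact hnwu h1
              rw [if_pos h1, if_neg e1, if_neg e2, if_neg e3, if_pos (hzu.1.le.trans h1)]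
              exact le_of_eq (by ring)
            · rw [if_neg h1]
              by_cases e1 : y = z
              · subst e1
                rw [if_pos rfl, if_neg hzv', if_neg hzw', if_pos le_rfl, hlu]
                omega
              · rw [if_neg e1]
                by_cases e2 : y = v
                · subst e2
                  rw [if_pos rfl, if_neg hvw', if_pos hzv.1.le]
                  omega
                · rw [if_neg e2]
                  by_cases e3 : y = w
                  · subst e3
                    rw [if_pos rfl, if_pos (hzv.1.le.trans hvw.1.le)]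
                    omega
                  · rw [if_neg e3]
                    exact Nat.zero_le _
          rw [Finset.sum_add_distrib, Finset.sum_add_distrib, Finset.sum_add_distrib,
            Finset.sum_ite_eq' univ z, Finset.sum_ite_eq' univ v, Finset.sum_ite_eq' univ w,
            if_pos (mem_univ _), if_pos (mem_univ _), if_pos (mem_univ _)] at h10
          subst hj
          omega
      · left
        have hj6 : j = 6 := by omega
        have h37 : ct 2 5 u = 32 := by
          rw [sd_stair_ct C hI.mem, h44]
          decide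
        have h7 := ct_cov (i := 2) (k := 5) hzu.1
        rw [Nat.min_eq_left (by omega), h37] at h7
        rw [cst_ct hz5]
        subst hj6
        omega
    · left
      have h5 := W.farT.le_lev z hz
      exact key u _ rfl hI (by rw [hhz] at h5; exact h5) hhz

end Pool.Agent.GaussPoset
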