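import Pool.Agent.W_448sd_h84.SdF

/-!
# Window 2: the unnatural elements of level `j + 1` (MP_448cb3_co)
-/

namespace Pool.Agent.GaussPoset

set_option linter.unusedSectionVars false

open Polynomial Finset

universe u

variable {P : Type u} [Fintype P] [PartialOrder P] [DecidableEq P] {r j : ℕ}
  {N : Tops P → Finset P} {b : Tops P → ℕ} {θ : Tops P → P → ℕ}

/-- the label of a boundary element of level `j + 1` -/
lemma W2.h2_eq (W : W2 r j N b θ) {z x : P} (hz : z ∈ r2 j N) (hl : lev z = j + 1)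
    (hzx : z ⋖ x) (hmin : ∀ y, z ⋖ y → θ (topOf x) x ≤ θ (topOf y) y) :
    h2 j N θ z = θ (topOf x) x + 1 := by
  classical
  have H := W.gt.H
  have hlev : ∀ y, z ⋖ y → lev y = j := by
    intro y hy
    have := (H.covBy_iff.mp hy).2
    omega
  have hnR : ∀ y, z ⋖ y → y ∉ r2 j N := fun y hy h =>
    W.low (hlev y hy).le (mem_sdiff.mp h).1
  have hbd : z ∈ bdR (r2 j N) := mem_filter.mpr ⟨hz, x, hnR x hzx, hzx⟩
  refine le_antisymm ?_ ?_
  · refine (hcan_le (θ := sdT j N θ) (hnR x hzx) hzx).trans ?_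
    rw [W.sdT_nat (W.low (hlev x hzx).le)]
  · obtain ⟨y, hy, hzy, hh⟩ := hcan_spec (θ := sdT j N θ) hbd
    rw [W.sdT_nat (W.low (hlev y hzy).le)] at hh
    have h3 := hmin y hzy
    have hh' : h2 j N θ z = θ (topOf y) y + 1 := hh
    rw [hh']
    omega

lemma W2.mem_bd (W : W2 r j N b θ) {z : P} (hz : z ∈ r2 j N) (hl : lev z = j + 1) :
    z ∈ bdR (r2 j N) := by
  classical
  have hzt : z < (topOf z : P) := lt_of_le_of_ne (le_topOf z) (by
    intro h
    have := (topOf z).2
    rw [← h] at this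
    omega)
  obtain ⟨x, hzx, -⟩ := Hul.exists_cov hzt
  refine mem_filter.mpr ⟨hz, x, fun h => ?_, hzx⟩
  have h1 := (W.gt.H.covBy_iff.mp hzx).2
  exact W.low (by omega) (mem_sdiff.mp h).1

/-- cells which are not in row 0 are not hung below the end of row 0 -/
lemma sd_not_junk {t : P} {S : ℕ × ℕ → Prop} {Nc : Finset P} {co : P → ℕ × ℕ}
    (C : Chart t S Nc co) {x : P} (hx : x ∈ Nc) (h1 : 1 ≤ (co x).1) : x ∉ junk S Nc co := by
  intro hJ
  obtain ⟨x1, H1, hz1⟩ := mem_junk.mp hJ
  have := (H1.tail C hx (mem_jset.mp hz1).1).1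
  omega

/-- two neighbours of the level `j`: the element is natural or a twin -/
lemma W2.near (W : W2 r j N b θ) {z x x' : P} (hz : z ∈ r2 j N) (hl : lev z = j + 1)
    (hzx : z ⋖ x) (hzx' : z ⋖ x') (hne : x ≠ x') (h1 : ucv x x' = 1) : False := by
  classical
  have H := W.gt.H
  have HN := W.natSys
  have hm := W.six
  have hlx : lev x = j := by
    have := (H.covBy_iff.mp hzx).2
    omega
  have hlx' : lev x' = j := by
    have := (H.covBy_iff.mp hzx').2
    omega
  rw [mem_sdiff] at hz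
  have hzU := hz.1
  obtain ⟨p, hp⟩ := Finset.card_eq_one.mp h1
  have hp2 : x ⋖ p ∧ x' ⋖ p := by
    have : p ∈ (univ.filter (fun y : P => x ⋖ y ∧ x' ⋖ y)) := by rw [hp]; simp
    simpa using this
  have hxt : topOf x = topOf z := W.top_cov hl hzx
  have hxt' : topOf x' = topOf z := W.top_cov hl hzx'
  have hxle : x ≤ (topOf z : P) := by rw [← hxt]; exact le_topOf x
  have hxle' : x' ≤ (topOf z : P) := by rw [← hxt']; exact le_topOf x'
  have twin : ∀ y : P, y ∉ unnat N → y ⋖ x → y ⋖ x' → False := fun y hy hyx hyx' =>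
    hz.2 (mem_twY.mpr ⟨hzU, hl, y, hy, up_of_pair H hzx hzx' hyx hyx' hne⟩)
  rcases W.typ (topOf z) with ⟨g1, g2, g3, g6⟩ | ⟨Nc, co, g0, g1, g2, g3, g4⟩ |
    ⟨Nc, co, g0, g1, g2, g3, g4⟩
  · refine mem_unnat.mp hzU (topOf z) ?_
    rw [g1]
    exact W.lowOnly (le_topOf z) (by omega)
  · have hx : x ∈ Nc := g0.strip (mem_lowPart.mpr ⟨hxle, hlx.le⟩)
    have hx' : x' ∈ Nc := g0.strip (mem_lowPart.mpr ⟨hxle', hlx'.le⟩)
    have hzN : z ∉ Nc := fun h => mem_unnat.mp hzU (topOf z) (by
      rw [g1]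
      exact mem_natR.mpr (Or.inl h))
    obtain ⟨y, hy, hyx, hyx'⟩ := near_chart H g0.chart g0.max (fun _ _ _ => trivial) hx hx' hp2.1
      hp2.2 hzx hzx' hne hzN
    refine twin y (HN.mem_iff (t := topOf z).mp ?_).1 hyx hyx'
    rw [g1]
    exact mem_natR.mpr (Or.inl hy)
  · have hx : x ∈ Nc := g0.strip (mem_lowPart.mpr ⟨hxle, hlx.le⟩)
    have hx' : x' ∈ Nc := g0.strip (mem_lowPart.mpr ⟨hxle', hlx'.le⟩)
    have hzN : z ∉ Nc := fun h => mem_unnat.mp hzU (topOf z) (by
      rw [g1]
      exact mem_natS.mpr (Or.inl h))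
    obtain ⟨y, hy, hyx, hyx'⟩ := near_chart H g0.chart g0.max
      (fun s c (h : s + 1 ≤ c) => show s + 1 ≤ c + 1 by omega) hx hx' hp2.1 hp2.2 hzx hzx' hne hzN
    refine twin y (HN.mem_iff (t := topOf z).mp ?_).1 hyx hyx'
    rw [g1]
    exact mem_natS.mpr (Or.inl hy)

/-- the fold ends of level `j` -/
def Fold2 (j : ℕ) (N : Tops P → Finset P) (θ : Tops P → P → ℕ) (x : P) : Prop :=
  ∃ Nc co m, InS2sd j N θ x Nc co ∧ co x = (m, m) ∧ j = 2 * m

/-- an element of level `j + 1` below both ends of a stair -/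
def Cc2 (j : ℕ) (N : Tops P → Finset P) (θ : Tops P → P → ℕ) (z : P) : Prop :=
  ∃ x x' Nc co m, InS2sd j N θ x Nc co ∧ co x = (m, m) ∧ j = 2 * m ∧ x' ∈ Nc ∧
    co x' = (0, 2 * m) ∧ z ⋖ x ∧ z ⋖ x'

/-- the classification -/
theorem W2.class (W : W2 r j N b θ) {z : P} (hz : z ∈ r2 j N) (hl : lev z = j + 1) :
    (∃ x, Fold2 j N θ x ∧ Pend z x) ∨ Cc2 j N θ z := by
  classical
  have H := W.gt.H
  have HN := W.natSys
  have hm := W.six
  have hzU := (mem_sdiff.mp hz).1
  have hzt : z < (topOf z : P) := lt_of_le_of_ne (le_topOf z) (by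
    intro h
    have := (topOf z).2
    rw [← h] at this
    omega)
  obtain ⟨x, hzx, hxt⟩ := Hul.exists_cov hzt
  have hlev : ∀ y, z ⋖ y → lev y = j := by
    intro y hy
    have := (H.covBy_iff.mp hy).2
    omega
  have htop : ∀ y, z ⋖ y → topOf y = topOf z := fun y hy => W.top_cov hl hy
  have hyt : ∀ y, z ⋖ y → y ≤ (topOf z : P) := fun y hy => by
    rw [← htop y hy]
    exact le_topOf y
  have hyN : ∀ y, z ⋖ y → y ∈ N (topOf z) := fun y hy =>
    HN.mem_iff.mpr ⟨W.low (hlev y hy).le, htop y hy⟩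
  have hlx := hlev x hzx
  have hmk : ∀ (Nc : Finset P) (co : P → ℕ × ℕ), StairNat j 2 (topOf z) Nc co →
      N (topOf z) = natS Nc co → θ (topOf z) = thS 2 Nc co →
      (∀ x w : P, x ≤ (topOf z : P) → lev x = j → (Win.uc x).card = 2 → Pend w x →
        (co x).2 = (co x).1 + 1 ∧ ∀ z', Pend z' x → z' = w) →
      ∀ y, z ⋖ y → 1 ≤ (co y).1 → InS2sd j N θ y Nc co := by
    intro Nc co g0 g1 g2 g4 y hy h1
    have h2 := htop y hy
    have h3 : y ∈ Nc := g0.strip (mem_lowPart.mpr ⟨hyt y hy, (hlev y hy).le⟩)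
    refine ⟨by rw [h2]; exact g0, by rw [h2]; exact g1, h3, h1, ?_, by rw [h2]; exact g4⟩
    rw [h2, g2]
    unfold thS
    rw [if_neg (sd_not_junk g0.chart h3 h1)]
  rcases W.typ (topOf z) with ⟨g1, g2, g3, g6⟩ | ⟨Nc, co, g0, g1, g2, g3, g4⟩ |
    ⟨Nc, co, g0, g1, g2, g3, g4⟩
  · exfalso
    refine mem_unnat.mp hzU (topOf z) ?_
    rw [g1]
    exact W.lowOnly (le_topOf z) (by omega)
  · exfalso
    by_cases honly : ∀ y, z ⋖ y → y = x
    · obtain ⟨k1, -, -, k4, k5⟩ := rect_pendant H g0 g1 hzU (hyN x hzx) hzx honly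
      exact g3 x z hxt hlx (chart_inner_uc g0.chart H k1 k4 k5) ⟨hzx, honly⟩
    · push Not at honly
      obtain ⟨x', hzx', hne⟩ := honly
      exact W.near hz hl hzx hzx' hne.symm (g4 z x x' hxt hl hzx hzx' hne.symm)
  · by_cases honly : ∀ y, z ⋖ y → y = x
    · left
      obtain ⟨k1, k2, k3⟩ := stair_pendant H g0 (by omega) g1 hzU (hyN x hzx) hzx honly
      have hle : (co x).1 ≤ (co x).2 := g0.chart.mem x k1
      have hlc := g0.chart.lev x k1
      rcases Nat.lt_or_ge (co x).1 (co x).2 with h | h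
      · exfalso
        obtain ⟨p1, p2⟩ := g4 x z hxt hlx (chartS_inner_uc g0.chart H k1 k3 h) ⟨hzx, honly⟩
        have hzN : z ∉ Nc := fun h => mem_unnat.mp hzU (topOf z) (by
          rw [g1]
          exact mem_natS.mpr (Or.inl h))
        obtain ⟨y, hy, hcy, hyx, hyz⟩ := max_diag g0.chart g0.max H hzN k1 hzx honly
          (s := (co x).1) (Prod.ext rfl p1)
        refine hyz (p2 y ⟨hyx, fun w hw => ?_⟩)
        have hwN := g0.chart.up _ hy w hw.1.le
        have h9 : (co w).1 ≤ (co w).2 := g0.chart.mem w hwN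
        have e := (chart_cov g0.chart H hy hwN).mp hw
        rw [hcy] at e
        refine g0.chart.inj w hwN x k1 ?_
        rcases e with e | e
        · have e1 := e.1
          have e2 := e.2
          simp only at e1 e2
          exact Prod.ext (by omega) (by omega)
        · have e1 := e.1
          have e2 := e.2
          simp only at e1 e2
          omega
      · exact ⟨x, ⟨Nc, co, (co x).1, hmk Nc co g0 g1 g2 g4 x hzx k3,
          Prod.ext rfl (by simp only; omega), by omega⟩, hzx, honly⟩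
    · right
      push Not at honly
      obtain ⟨x', hzx', hne'⟩ := honly
      have hne : x ≠ x' := Ne.symm hne'
      have hlx' := hlev x' hzx'
      obtain ⟨i, rfl⟩ : ∃ i, j = i + 1 := ⟨j - 1, by omega⟩
      rcases (Win.near_level' W.gt (by omega)).1 z x x' hl hzx hzx' hne with h7 | ⟨h7, h8, h9⟩
      · exact (W.near hz hl hzx hzx' hne h7).elim
      · have hx : ∀ y, z ⋖ y → y ∈ Nc := fun y hy =>
          g0.strip (mem_lowPart.mpr ⟨hyt y hy, (hlev y hy).le⟩)
        have hpos : ∀ y, z ⋖ y → (Win.uc y).card = 1 → (co y).1 = 0 ∨ (co y).1 = (co y).2 := by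
          intro y hy hu
          by_contra hcon
          have h5 : (co y).1 ≤ (co y).2 := g0.chart.mem y (hx y hy)
          have := chartS_inner_uc g0.chart H (hx y hy) (by omega) (by omega)
          omega
        have hc : ∀ y, z ⋖ y → (co y).1 + (co y).2 = i + 1 := fun y hy => by
          rw [← g0.chart.lev y (hx y hy)]
          exact hlev y hy
        have hcne : co x ≠ co x' := fun h => hne (g0.chart.inj x (hx x hzx) x' (hx x' hzx') h)
        have c1 := hc x hzx
        have c2 := hc x' hzx'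
        have key : ∀ x x' : P, z ⋖ x → z ⋖ x' → co x ≠ co x' → (co x').1 = 0 →
            (Win.uc x).card = 1 → Cc2 (i + 1) N θ z := by
          intro x x' hzx hzx' hcne h0 hu
          have c1 := hc x hzx
          have c2 := hc x' hzx'
          have h1 : 1 ≤ (co x).1 := by
            by_contra hcon
            exact hcne (Prod.ext (by omega) (by omega))
          have h2 := (hpos x hzx hu).resolve_left (by omega)
          exact ⟨x, x', Nc, co, (co x).1, hmk Nc co g0 g1 g2 g4 x hzx h1,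
            Prod.ext rfl h2.symm, by omega, hx x' hzx',
            Prod.ext h0 (by simp only; omega), hzx, hzx'⟩
        by_cases h0' : (co x').1 = 0
        · exact key x x' hzx hzx' hcne h0' h7
        · by_cases h0 : (co x).1 = 0
          · exact key x' x hzx' hzx hcne.symm h0 h8
          · exfalso
            have e1 := (hpos x hzx h7).resolve_left h0
            have e2 := (hpos x' hzx' h8).resolve_left h0'
            exact hcne (Prod.ext (by omega) (by omega))

end Pool.Agent.GaussPoset
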