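import Pool.Agent.W_448sd_h84.SdG

/-!
# Window 2: the ladder below the energy of the cheapest twins (MP_448cb3_co)
-/

namespace Pool.Agent.GaussPoset

set_option linter.unusedSectionVars false

open Polynomial Finset

universe u

variable {P : Type u} [Fintype P] [PartialOrder P] [DecidableEq P] {r j : ℕ}
  {N : Tops P → Finset P} {b : Tops P → ℕ} {θ : Tops P → P → ℕ}

/-- one sign, drop one: nothing -/
theorem W2.kill (W : W2 r j N b θ) {e s : ℕ} (he : e < j * (j - 1) - 1)
    (hge : ∀ z ∈ bdR (r2 j N), e ≤ cst 2 (h2 j N θ) z)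
    (hT : ∀ z ∈ bdR (r2 j N), cst 2 (h2 j N θ) z = e → nab 2 z = 2 ∧
      nab (2 + h2 j N θ z) z = 1 ∧ nst 2 (h2 j N θ) z = s) {z : P} (hz : z ∈ bdR (r2 j N))
    (hc : cst 2 (h2 j N θ) z = e) : False := by
  classical
  have hd := W.farT.dvd_lead (n := e) he hge
  have hZ := dvd_Z W.gt.H.gauss 2 e
  set T := (bdR (r2 j N)).filter (fun z => cst 2 (h2 j N θ) z = e) with hTdef
  have hTe : ∀ y ∈ T, nab 2 y = 2 ∧ nab (2 + h2 j N θ y) y = 1 ∧ nst 2 (h2 j N θ) y = s := by
    intro y hy
    rw [hTdef, mem_filter] at hy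
    exact hT y hy.1 hy.2
  have hzT : z ∈ T := by
    rw [hTdef, mem_filter]
    exact ⟨hz, hc⟩
  have hcard : 2 ≤ (lv P 2).card := by
    have h3 := (hTe z hzT).1
    have h4 := nab_le z 2
    omega
  have hs := sign_sum_of_dvd T hZ hd (c0 := (lv P 2).card - 1) (by omega) (by
    intro y hy
    obtain ⟨h3, h4, -⟩ := hTe y hy
    rw [h3, h4]
    omega)
  have hTf : T.filter (fun y => (lv P 2).card - 1 + nab 2 y =
      (lv P 2).card + nab (2 + h2 j N θ y) y) = T := by
    refine Finset.filter_true_of_mem fun y hy => ?_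
    obtain ⟨h3, h4, -⟩ := hTe y hy
    rw [h3, h4]
    omega
  rw [hTf, Finset.sum_congr rfl (g := fun _ => (-1 : ℤ) ^ s) (fun y hy => by
    rw [(hTe y hy).2.2])] at hs
  rw [Finset.sum_const, nsmul_eq_mul] at hs
  rcases mul_eq_zero.mp hs with h | h
  · have h' : T.card = 0 := by exact_mod_cast h
    rw [Finset.card_eq_zero] at h'
    rw [h'] at hzT
    exact absurd hzT (Finset.notMem_empty z)
  · exact absurd h (pow_ne_zero _ (by norm_num))

/-- the number of elements above the fold end -/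
def nF2 (m k : ℕ) : ℕ := min (k / 2) m + 1 - (k - m)

/-- labels and numbers of elements above for pendants of the fold end -/
lemma W2.pen_data (W : W2 r j N b θ) {z x : P} (hz : z ∈ r2 j N) (hl : lev z = j + 1)
    (hP : Pend z x) {Nc : Finset P} {co : P → ℕ × ℕ} {m : ℕ} (h : InS2sd j N θ x Nc co)
    (hcx : co x = (m, m)) (hjm : j = 2 * m) :
    h2 j N θ z = j - 3 ∧ (∀ k, k ≤ j → nab k z = nF2 m k) ∧
      cst 2 (h2 j N θ) z = ct 2 (j - 3) x + (j - 3) := by
  have hm := W.six
  have hlx : lev x = j := by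
    have := (W.gt.H.covBy_iff.mp hP.1).2
    omega
  have hth := h.th
  rw [hcx] at hth
  simp only at hth
  have h1 : h2 j N θ z = j - 3 := by
    rw [W.h2_eq hz hl hP.1 (fun y hy => by rw [hP.2 y hy])]
    omega
  have h2' : ∀ k, k ≤ j → nab k z = nF2 m k := by
    intro k hk
    rw [nab_pend hP (l := k) (by omega)]
    have h3 := stair_nab h.stair.chart h.mem (k := k) (by omega)
    rw [hcx] at h3
    simp only at h3
    unfold nF2
    omega
  refine ⟨h1, h2', ?_⟩
  rw [cst_eq, h1, hl, Finset.sum_range_succ, ← hl, nab_self, hl, mul_one,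
    Nat.min_eq_left (by omega)]
  congr 1
  unfold ct
  rw [cst_eq, hlx]
  refine Finset.sum_congr rfl fun k hk => ?_
  rw [mem_range] at hk
  rw [nab_pend hP (l := k) (by omega)]

/-- the label of an element below both ends of a stair -/
lemma W2.cc_lab (W : W2 r j N b θ) {z x x' : P} (hz : z ∈ r2 j N) (hl : lev z = j + 1)
    {Nc : Finset P} {co : P → ℕ × ℕ} {m : ℕ} (h : InS2sd j N θ x Nc co)
    (hcx : co x = (m, m)) (hjm : j = 2 * m) (hx' : x' ∈ Nc) (hcx' : co x' = (0, 2 * m))
    (hzx : z ⋖ x) (hzx' : z ⋖ x') : h2 j N θ z = j - 3 := by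
  have hm := W.six
  have H := W.gt.H
  have hne : x ≠ x' := by
    rintro rfl
    rw [hcx] at hcx'
    simp only [Prod.mk.injEq] at hcx'
    omega
  have hth := h.th
  rw [hcx] at hth
  simp only at hth
  have hlx' : lev x' = j := by
    have := (H.covBy_iff.mp hzx').2
    omega
  have hnb : nab 2 x' = 1 := by
    have h3 := stair_nab h.stair.chart hx' (k := 2) (by omega)
    rw [hcx'] at h3
    simp only at h3
    omega
  have hth' : θ (topOf x') x' = j - 2 := by
    rcases W.cases (W.low hlx'.le) with h5 | ⟨Nc', co', h5⟩ | ⟨Nc', co', h5⟩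
    · rw [h5.th, hlx']
    · exfalso
      have h6 := rect_nab h5.rect.chart h5.mem (k := 2) (by omega)
      have h7 := h5.rect.chart.lev _ h5.mem
      have h8 := h5.fst
      have h9 := h5.snd
      omega
    · exfalso
      have h6 := stair_nab h5.stair.chart h5.mem (k := 2) (by omega)
      have h7 := h5.stair.chart.lev _ h5.mem
      have h8 := h5.fst
      have h9 : (co' x').1 ≤ (co' x').2 := h5.stair.chart.mem _ h5.mem
      omega
  rw [W.h2_eq hz hl hzx (fun y hy => by
    rcases uc_pair H hzx hzx' hne hy with e | e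
    · rw [e]
    · rw [e, hth']
      omega)]
  omega

/-- the cost of an element below both ends of a stair -/
lemma W2.cc_cost (W : W2 r j N b θ) {z x x' : P} (hz : z ∈ r2 j N) (hl : lev z = j + 1)
    {Nc : Finset P} {co : P → ℕ × ℕ} {m : ℕ} (h : InS2sd j N θ x Nc co)
    (hcx : co x = (m, m)) (hjm : j = 2 * m) (hx' : x' ∈ Nc) (hcx' : co x' = (0, 2 * m))
    (hzx : z ⋖ x) (hzx' : z ⋖ x') (h5 : 5 ≤ m) : j * (j - 1) ≤ cst 2 (h2 j N θ) z := by
  classical
  have hlab := W.cc_lab hz hl h hcx hjm hx' hcx' hzx hzx'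
  have C := h.stair.chart
  -- numbers of elements above
  have hn1 : ∀ k, k ≤ 2 * m → nF2 m k ≤ nab k z := by
    intro k hk
    have h3 := stair_nab C h.mem (k := k) (by rw [C.lev x h.mem, hcx]; simp only; omega)
    rw [hcx] at h3
    simp only at h3
    have h4 := nab_mono (l := k) hzx.le
    unfold nF2
    omega
  have hn2 : ∀ k, m < k → k ≤ 2 * m → nF2 m k + 1 ≤ nab k z := by
    intro k hk1 hk2
    obtain ⟨y, hy, hcy⟩ := C.low x' hx' (0, k) (by rw [hcx']; exact ⟨le_rfl, hk2⟩)
      (Nat.zero_le _)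
    have hly : lev y = k := by
      rw [C.lev y hy, hcy]
      simp only
      omega
    have hx'y : x' ≤ y := by
      rw [C.le_iff x' hx' y hy, hcx', hcy]
      exact ⟨le_rfl, hk2⟩
    have hnxy : ¬ x ≤ y := by
      rw [C.le_iff x h.mem y hy, hcx, hcy]
      rintro ⟨-, h7⟩
      simp only at h7
      omega
    have h3 := stair_nab C h.mem (k := k) (by rw [C.lev x h.mem, hcx]; simp only; omega)
    rw [hcx] at h3
    simp only at h3
    have h4 : nab k x + 1 ≤ nab k z := by
      unfold nab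
      have hsub : insert y ((lv P k).filter (fun w => x ≤ w)) ⊆
          (lv P k).filter (fun w => z ≤ w) := by
        intro w hw
        rw [mem_insert] at hw
        rcases hw with rfl | hw
        · rw [mem_filter, mem_lv]
          exact ⟨hly, hzx'.le.trans hx'y⟩
        · rw [mem_filter] at hw ⊢
          exact ⟨hw.1, hzx.le.trans hw.2⟩
      have h5 := Finset.card_le_card hsub
      rw [Finset.card_insert_of_notMem (by
        rw [mem_filter]
        exact fun h => hnxy h.2)] at h5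
      exact h5
    unfold nF2
    omega
  obtain ⟨a, ha⟩ : ∃ a, j = a + 3 := ⟨j - 3, by omega⟩
  have hF : ∀ n, 1 ≤ n → n < a + 2 →
      1 + ind 1 (a + 2) n + ind 2 a n + ind 4 (a - 2) n ≤ nab (2 + n) z := by
    intro n hn3 hn4
    have h3 := hn1 (2 + n) (by omega)
    by_cases hk : m < 2 + n
    · have h4 := hn2 (2 + n) hk (by omega)
      unfold nF2 at h4
      unfold ind
      split_ifs <;> omega
    · unfold nF2 at h3
      unfold ind
      split_ifs <;> omega
  have h6 := cst_ge_shift' (h := h2 j N θ) (fun n => 1 + ind 1 (a + 2) n + ind 2 a n +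
    ind 4 (a - 2) n) (by omega : lev z = 2 + (a + 2)) (by omega) hF
  rw [sum_split4] at h6
  obtain ⟨c, rfl⟩ : ∃ c, a = c + 7 := ⟨a - 7, by omega⟩
  have g1 := Finset.sum_range_id_mul_two (c + 7 + 1)
  have g2 : ∑ n ∈ range (c + 7 + 1), n * ind 1 (c + 7 + 1) n ≤
      ∑ n ∈ range (c + 7 + 1), n * ind 1 (c + 7 + 2) n := by
    refine Finset.sum_le_sum fun n hn => Nat.mul_le_mul_left _ ?_
    rw [mem_range] at hn
    unfold ind
    split_ifs <;> omega
  have g2' := sum_ind (s := 1) (a := c + 7 + 1) (m := c + 7 + 1) le_rfl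
  have g3 := sum_ind (s := 2) (a := c + 7) (m := c + 7 + 1) (by omega)
  have g4 := sum_ind (s := 4) (a := c + 7 - 2) (m := c + 7 + 1) (by omega)
  have g5 : 2 ≤ 1 + ind 1 (c + 7 + 2) (c + 7 + 1) + ind 2 (c + 7) (c + 7 + 1) +
      ind 4 (c + 7 - 2) (c + 7 + 1) := by
    unfold ind
    split_ifs <;> omega
  have g6 := Nat.mul_le_mul_left (c + 7) g5
  rw [show c + 7 - 2 = c + 5 by omega] at g4 h6
  rw [show c + 7 + 1 - 1 = c + 7 by omega] at g1 g2'
  rw [show c + 7 - 1 = c + 6 by omega] at g3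
  rw [show c + 5 - 1 = c + 4 by omega] at g4
  rw [show c + 7 - 2 = c + 5 by omega] at g6
  simp only [mul_one, Nat.sub_self, mul_zero, add_zero] at h6 g1 g2'
  have e1 : (c + 7 + 1) * (c + 7) = c * c + 15 * c + 56 := by ring
  have e2 : (c + 7) * (c + 6) = c * c + 13 * c + 42 := by ring
  have e3 : (c + 5) * (c + 4) = c * c + 9 * c + 20 := by ring
  have e4 : j * (j - 1) = c * c + 19 * c + 90 := by
    rw [ha, show c + 7 + 3 - 1 = c + 9 by omega]
    ring
  rw [e1] at g1 g2'
  rw [e2] at g3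
  rw [e3] at g4
  rw [e4]
  norm_num at g3 g4
  omega

end Pool.Agent.GaussPoset
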