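import Pool.Agent.W_448sd_h84.SdH

/-!
# Window 2: all boundary elements are expensive; no twins of row 1 (MP_448cb3_co)
-/

namespace Pool.Agent.GaussPoset

set_option linter.unusedSectionVars false

open Polynomial Finset

universe u

variable {P : Type u} [Fintype P] [PartialOrder P] [DecidableEq P] {r j : ℕ}
  {N : Tops P → Finset P} {b : Tops P → ℕ} {θ : Tops P → P → ℕ}

/-- the data of a pendant below the cell `(4, 4)`, `j = 7` -/
lemma sd_q7 {z u : P} {Nc : Finset P} {co : P → ℕ × ℕ} (hI : InS2sd j N θ u Nc co)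
    (h44 : co u = (4, 4)) (hP : Pend z u) (h5 : h2 j N θ z = 5) (hlz : lev z = 9) :
    cst 2 (h2 j N θ) z = 37 ∧ nab 2 z = 2 ∧ nab (2 + h2 j N θ z) z = 1 ∧
      nst 2 (h2 j N θ) z = 11 := by
  have C := hI.stair.chart
  have hlu : lev u = 8 := by
    have h1 := C.lev u hI.mem
    rw [h44] at h1
    exact h1
  have hn : ∀ k, k ≤ 8 → nab k z = min (k / 2) 4 + 1 - (k - 4) := by
    intro k hk
    rw [nab_pend hP (l := k) (by omega)]
    have h3 := stair_nab C hI.mem (k := k) (by omega)
    rw [h44] at h3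
    simp only at h3
    omega
  refine ⟨?_, ?_, ?_, ?_⟩
  · rw [cst_eq, h5, hlz, Finset.sum_range_succ, ← hlz, nab_self, hlz]
    rw [Finset.sum_congr rfl (g := fun k => min 5 (k - 2) * (min (k / 2) 4 + 1 - (k - 4)))
      (fun k hk => by rw [mem_range] at hk; rw [hn k (by omega)])]
    decide
  · rw [hn 2 (by omega)]
    decide
  · rw [h5, hn (2 + 5) (by omega)]
    decide
  · rw [nst_eq, h5]
    rw [Finset.sum_congr rfl (g := fun k => min ((2 + k) / 2) 4 + 1 - (2 + k - 4))
      (fun k hk => by rw [mem_range] at hk; rw [hn (2 + k) (by omega)])]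
    decide

/-- the boundary elements of level at least `j + 2` are expensive -/
theorem W2.hi (W : W2 r j N b θ) {z : P} (hz : z ∈ bdR (r2 j N)) (hl : lev z ≠ j + 1) :
    j * (j - 1) ≤ cst 2 (h2 j N θ) z := by
  classical
  rcases W.bd hz with h | h | ⟨h7, h5, u, Nc, co, hI, h44, hP⟩
  · exact absurd h hl
  · exact h
  · exfalso
    have H := W.gt.H
    have hlz : ∀ (z u : P) (Nc : Finset P) (co : P → ℕ × ℕ), InS2sd j N θ u Nc co →
        co u = (4, 4) → Pend z u → lev z = 9 := by
      intro z u Nc co hI h44 hP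
      have h1 := hI.stair.chart.lev u hI.mem
      rw [h44] at h1
      have h2 := (H.covBy_iff.mp hP.1).2
      simp only at h1
      omega
    have q := sd_q7 hI h44 hP h5 (hlz z u Nc co hI h44 hP)
    have hj : j * (j - 1) = 42 := by rw [h7]
    have hno : ∀ y ∈ bdR (r2 j N), lev y ≠ j + 1 := by
      intro y hy hly
      rcases W.class (mem_filter.mp hy).1 hly with ⟨x, ⟨Nc, co, m, -, -, hm⟩, -⟩ |
        ⟨x, x', Nc, co, m, -, -, hm, -⟩
      · omega
      · omega
    refine W.kill (e := 37) (s := 11) (by omega) ?_ ?_ hz q.1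
    · intro y hy
      rcases W.bd hy with h | h | ⟨-, h5, u, Nc, co, hI, h44, hP⟩
      · exact absurd h (hno y hy)
      · omega
      · exact (sd_q7 hI h44 hP h5 (hlz y u Nc co hI h44 hP)).1.ge
    · intro y hy hc
      rcases W.bd hy with h | h | ⟨-, h5, u, Nc, co, hI, h44, hP⟩
      · exact absurd h (hno y hy)
      · omega
      · exact (sd_q7 hI h44 hP h5 (hlz y u Nc co hI h44 hP)).2

/-- no element below both ends of a stair, on the levels 6 and 8 -/
def NoCc (j : ℕ) (N : Tops P → Finset P) (θ : Tops P → P → ℕ) : Prop :=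
  j ≤ 8 → ∀ z : P, z ∈ r2 j N → lev z = j + 1 → ¬ Cc2 j N θ z

/-- elements below both ends are expensive -/
lemma W2.cc_hi (W : W2 r j N b θ) (hC : NoCc j N θ) {z : P} (hz : z ∈ r2 j N)
    (hl : lev z = j + 1) (h : Cc2 j N θ z) : j * (j - 1) ≤ cst 2 (h2 j N θ) z := by
  by_cases hj : j ≤ 8
  · exact absurd h (hC hj z hz hl)
  · obtain ⟨x, x', Nc, co, m, h1, h2, h3, h4, h5, h6, h7⟩ := h
    exact W.cc_cost hz hl h1 h2 h3 h4 h5 h6 h7 (by omega)

/-- the numbers of elements above a pendant of the fold end -/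
lemma W2.pen_num (W : W2 r j N b θ) {z x : P} (hz : z ∈ r2 j N) (hl : lev z = j + 1)
    (hP : Pend z x) {Nc : Finset P} {co : P → ℕ × ℕ} {m : ℕ} (h : InS2sd j N θ x Nc co)
    (hcx : co x = (m, m)) (hjm : j = 2 * m) :
    cst 2 (h2 j N θ) z = cS m m (j - 3) + (j - 3) ∧ nab 2 z = 2 ∧
      nab (2 + h2 j N θ z) z = 1 ∧
      nst 2 (h2 j N θ) z = ∑ k ∈ range (j - 3), nF2 m (2 + k) := by
  have hm := W.six
  obtain ⟨p1, p2, p3⟩ := W.pen_data hz hl hP h hcx hjm
  refine ⟨?_, ?_, ?_, ?_⟩
  · rw [p3, sd_stair_ct h.stair.chart h.mem, hcx]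
  · rw [p2 2 (by omega)]
    unfold nF2
    omega
  · rw [p1, p2 (2 + (j - 3)) (by omega)]
    unfold nF2
    omega
  · rw [nst_eq, p1]
    refine Finset.sum_congr rfl fun k hk => ?_
    rw [mem_range] at hk
    rw [p2 (2 + k) (by omega)]

/-- no pendants below the fold end, small levels -/
theorem W2.no_penF (W : W2 r j N b θ) (hC : NoCc j N θ) {z x : P} (hz : z ∈ r2 j N)
    (hl : lev z = j + 1) (hF : Fold2 j N θ x) (hP : Pend z x) (hj : j ≤ 12) : False := by
  classical
  have hm6 := W.six
  obtain ⟨Nc, co, m, h, hcx, hjm⟩ := hF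
  have q := W.pen_num hz hl hP h hcx hjm
  have he : cS m m (j - 3) + (j - 3) < j * (j - 1) - 1 := by
    subst hjm
    have h3 : 3 ≤ m := by omega
    have h6 : m ≤ 6 := by omega
    clear * - h3 h6
    interval_cases m <;> decide
  refine W.kill (e := cS m m (j - 3) + (j - 3)) (s := ∑ k ∈ range (j - 3), nF2 m (2 + k)) he
    ?_ ?_ (W.mem_bd hz hl) q.1
  · intro y hy
    by_cases hly : lev y = j + 1
    · have hyr := (mem_filter.mp hy).1
      rcases W.class hyr hly with ⟨x', ⟨Nc', co', m', h', hcx', hjm'⟩, hP'⟩ | h'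
      · have hmm : m' = m := by omega
        subst hmm
        exact (W.pen_num hyr hly hP' h' hcx' hjm').1.ge
      · have := W.cc_hi hC hyr hly h'
        omega
    · have := W.hi hy hly
      omega
  · intro y hy hc
    by_cases hly : lev y = j + 1
    · have hyr := (mem_filter.mp hy).1
      rcases W.class hyr hly with ⟨x', ⟨Nc', co', m', h', hcx', hjm'⟩, hP'⟩ | h'
      · have hmm : m' = m := by omega
        subst hmm
        exact (W.pen_num hyr hly hP' h' hcx' hjm').2
      · have := W.cc_hi hC hyr hly h'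
        omega
    · have := W.hi hy hly
      omega

/-- all boundary elements are expensive -/
theorem W2.bd_E (W : W2 r j N b θ) (hC : NoCc j N θ) {z : P} (hz : z ∈ bdR (r2 j N)) :
    j * (j - 1) ≤ cst 2 (h2 j N θ) z := by
  classical
  by_cases hl : lev z = j + 1
  · have hzr := (mem_filter.mp hz).1
    rcases W.class hzr hl with ⟨x, hF, hP⟩ | h'
    · by_cases hj : j ≤ 12
      · exact (W.no_penF hC hzr hl hF hP hj).elim
      · obtain ⟨Nc, co, m, h, hcx, hjm⟩ := hF
        obtain ⟨p1, p2, p3⟩ := W.pen_data hzr hl hP h hcx hjm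
        have hlx : lev x = j := by
          have := (W.gt.H.covBy_iff.mp hP.1).2
          omega
        have h4 := sd_fold_deep h.stair.chart h.mem hcx (by omega)
        rw [hlx] at h4
        rw [p3]
        exact h4
    · exact W.cc_hi hC hzr hl h'
  · exact W.hi hz hl

/-- the cost of a twin of row 1 -/
lemma W2.row1_cost (W : W2 r j N b θ) {x : P} (hx : x ∈ twY j N)
    (h1 : θ (topOf (twT N x)) (twT N x) + 1 = j - 1) :
    tcst 2 (sdT j N θ) (twT N x, x) + 1 + (j - 2) * (j - 1) =
      j * (j - 1) + ∑ k ∈ range (j + 1), (k - 2) * nab k (twT N x) := by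
  have hm := W.six
  have hlev := W.tw_lev hx
  rw [W.tcst_eq hx, h1]
  unfold ct
  rw [cst_eq, hlev, Finset.sum_range_succ, ← hlev, nab_self, hlev]
  have h2 : ∑ k ∈ range (j + 1), min (j - 1) (k - 2) * nab k (twT N x) =
      ∑ k ∈ range (j + 1), (k - 2) * nab k (twT N x) := by
    refine Finset.sum_congr rfl fun k hk => ?_
    rw [mem_range] at hk
    rw [Nat.min_eq_right (by omega)]
  rw [h2, Nat.min_eq_left (by omega)]
  obtain ⟨a, rfl⟩ : ∃ a, j = a + 2 := ⟨j - 2, by omega⟩
  rw [show a + 2 - 1 = a + 1 by omega] at h1 ⊢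
  rw [show a + 2 - 2 = a by omega]
  have e1 : (a + 2) * (a + 1) = a * (a + 1) + 2 * (a + 1) := by ring
  rw [e1]
  omega

/-- **no twins of row 1** -/
theorem W2.no_row1 (W : W2 r j N b θ) (hC : NoCc j N θ) {x : P} (hx : x ∈ twY j N)
    (h1 : θ (topOf (twT N x)) (twT N x) + 1 = j - 1)
    (hn : ∀ k, 3 ≤ k → k ≤ j → nab k (twT N x) = 2) : False := by
  classical
  have hj := W.six
  have T0 := W.twSys
  have hE := sum_two 2 (j - 2)
  rw [show 2 + (j - 2) + 1 = j + 1 by omega, show j - 2 + 1 = j - 1 by omega] at hE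
  -- the cost
  have hcx : tcst 2 (sdT j N θ) (twT N x, x) = j * (j - 1) - 1 := by
    have h2 := W.row1_cost hx h1
    have h3 : ∑ k ∈ range (j + 1), (k - 2) * nab k (twT N x) =
        ∑ k ∈ range (j + 1), (k - 2) * 2 := by
      refine Finset.sum_congr rfl fun k hk => ?_
      rw [mem_range] at hk
      rcases Nat.lt_or_ge 2 k with h4 | h4
      · rw [hn k (by omega) (by omega)]
      · rw [Nat.sub_eq_zero_of_le h4]
        simp
    rw [h3, hE] at h2
    omega
  have hd := W.farX.lead (fun z hz => by have := W.bd_E hC hz; omega)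
  have hZ := dvd_Z W.gt.H.gauss 2 (j * (j - 1) - 1)
  have hjj : 1 ≤ j * (j - 1) := Nat.mul_pos (by omega) (by omega)
  have hB : (bdR (r2 j N)).filter (fun z => cst 2 (h2 j N θ) z = j * (j - 1) - 1) = ∅ := by
    rw [Finset.filter_eq_empty_iff]
    intro z hz h
    have := W.bd_E hC hz
    omega
  rw [hB, Finset.sum_empty, zero_add] at hd
  set T := (twY j N).filter (fun x => tcst 2 (sdT j N θ) (twT N x, x) = j * (j - 1) - 1) with hT
  have hs : ∑ t ∈ (pairsX (twY j N) (twT N)).filter
      (fun t => tcst 2 (sdT j N θ) t = j * (j - 1) - 1), Tm 2 (sdT j N θ) t =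
      ∑ x ∈ T, Lt 2 (fun x => sdT j N θ x + 1) x := by
    unfold pairsX
    rw [Finset.filter_image, Finset.sum_image]
    · refine Finset.sum_congr rfl fun y hy => ?_
      have hyY := (mem_filter.mp hy).1
      rw [sd_Tm_eq W.gt.H.gradedBelow (W.twn hyY)]
      have e1 : sdT j N θ (twT N y) + 1 = sdT j N θ y + 1 := by
        have h5 := (W.twn hyY).eq
        have h6 : sdT j N θ y = sdT j N θ (twT N y) := h5
        rw [h6]
      show Lt 2 (fun _ => sdT j N θ (twT N y) + 1) y = Lt 2 (fun x => sdT j N θ x + 1) y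
      rw [e1]
      rfl
    · intro a _ c _ h
      exact (Prod.ext_iff.mp h).2
  rw [hs] at hd
  -- the twins of `T`
  have hup : ∀ y ∈ twY j N, ∀ k, k ≤ j → nab k y = nab k (twT N y) := by
    intro y hy k hk
    have hlev := W.tw_lev hy
    have hly := (mem_twY.mp hy).2.1
    refine le_antisymm ?_ ?_
    · exact nab_le_of_up (fun w => (T0.up y hy w).symm) (by omega)
    · exact nab_le_of_up (T0.up y hy) (by omega)
  have hlab : ∀ y ∈ twY j N, sdT j N θ y + 1 = θ (topOf (twT N y)) (twT N y) + 1 := by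
    intro y hy
    have e1 : sdT j N θ y = θ (topOf (twT N y)) (twT N y) := thX_of hy
    rw [e1]
  have hTk : ∀ y ∈ T, nab 2 y = 2 ∧
      ((nab (2 + (sdT j N θ y + 1)) y = 1 ∧ nst 2 (fun x => sdT j N θ x + 1) y = 2 * (j - 1)) ∨
        nab (2 + (sdT j N θ y + 1)) y = 2) := by
    intro y hy
    have hyY := (mem_filter.mp hy).1
    have hyc := (mem_filter.mp hy).2
    have hly := (mem_twY.mp hyY).2.1
    have hl := hlab y hyY
    rcases W.tw_kind hyY with ⟨k1, k2, k3, k4⟩ | ⟨k1, k2⟩ | ⟨k1, k2, k3, k4⟩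
    · refine ⟨by rw [hup y hyY 2 (by omega)]; exact k3, Or.inl ⟨?_, ?_⟩⟩
      · rw [hl, k1, show 2 + (j - 1) = lev y by omega]
        exact nab_self
      · -- all numbers are two
        have h2 := W.row1_cost hyY k1
        rw [hyc] at h2
        have hle : ∀ k ∈ range (j + 1), (k - 2) * 2 ≤ (k - 2) * nab k (twT N y) := by
          intro k hk
          rw [mem_range] at hk
          rcases Nat.lt_or_ge 2 k with h4 | h4
          · exact Nat.mul_le_mul_left _ (k2 k (by omega) (by omega))
          · rw [Nat.sub_eq_zero_of_le h4]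
            simp
        have h3 : ∑ k ∈ range (j + 1), (k - 2) * 2 =
            ∑ k ∈ range (j + 1), (k - 2) * nab k (twT N y) := by
          rw [hE]
          omega
        have h4 := (Finset.sum_eq_sum_iff_of_le hle).mp h3
        have h5 : ∀ k, 2 ≤ k → k ≤ j → nab k y = 2 := by
          intro k hk hk2
          rw [hup y hyY k hk2]
          rcases Nat.lt_or_ge 2 k with h6 | h6
          · have h7 := h4 k (by rw [mem_range]; omega)
            exact (Nat.eq_of_mul_eq_mul_left (by omega : 0 < k - 2) h7).symm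
          · have : k = 2 := by omega
            rw [this]
            exact k3
        rw [nst_eq]
        rw [hl, k1, Finset.sum_congr rfl (g := fun _ => 2) (fun k hk => by
          rw [mem_range] at hk
          exact h5 _ (by omega) (by omega)), Finset.sum_const, card_range, smul_eq_mul,
          Nat.mul_comm]
    · omega
    · refine ⟨by rw [hup y hyY 2 (by omega)]; exact k2, Or.inr ?_⟩
      rw [hl, k1, show 2 + (j - 2) = j by omega, hup y hyY j le_rfl]
      exact k3
  have hxT : x ∈ T := mem_filter.mpr ⟨hx, hcx⟩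
  have hcard : 2 ≤ (lv P 2).card := by
    have h3 := (hTk x hxT).1
    have h4 := nab_le x 2
    omega
  have hs2 := sign_sum_of_dvd (h := fun x => sdT j N θ x + 1) T hZ hd
    (c0 := (lv P 2).card - 1) (by omega) (by
    intro y hy
    obtain ⟨h3, h4⟩ := hTk y hy
    rcases h4 with ⟨h4, -⟩ | h4
    · rw [h3, h4]
      omega
    · rw [h3, h4]
      omega)
  rw [Finset.sum_congr rfl (g := fun _ => (1 : ℤ))] at hs2
  · rw [Finset.sum_const, nsmul_eq_mul, mul_one] at hs2
    have h0 : (T.filter (fun y => (lv P 2).card - 1 + nab 2 y =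
      (lv P 2).card + nab (2 + (sdT j N θ y + 1)) y)).card = 0 := by exact_mod_cast hs2
    rw [Finset.card_eq_zero] at h0
    have hmem : x ∈ T.filter (fun y => (lv P 2).card - 1 + nab 2 y =
        (lv P 2).card + nab (2 + (sdT j N θ y + 1)) y) := by
      rw [mem_filter]
      refine ⟨hxT, ?_⟩
      have hly := (mem_twY.mp hx).2.1
      rw [(hTk x hxT).1, hlab x hx, h1, show 2 + (j - 1) = lev x by omega, nab_self]
      omega
    rw [h0] at hmem
    exact absurd hmem (Finset.notMem_empty x)
  · intro y hy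
    rw [mem_filter] at hy
    obtain ⟨h3, h4⟩ := hTk y hy.1
    have h5 := hy.2
    rw [h3] at h5
    rcases h4 with ⟨h4, h6⟩ | h4
    · rw [h6, pow_mul]
      norm_num
    · rw [h4] at h5
      omega

end Pool.Agent.GaussPoset
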