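import Pool.Agent.W_448sd_h84.SdI
import Pool.Agent.W_448rr_h67.RrE
import Pool.Agent.W_448wd_h84.WdO

/-!
# Window 2: the context from the strips; no doubles at the straight end of a stair (MP_448cb3_co)
-/

namespace Pool.Agent.GaussPoset

set_option linter.unusedSectionVars false

open Polynomial Finset

universe u

variable {P : Type u} [Fintype P] [PartialOrder P] [DecidableEq P] {r j : ℕ}

open Cp

section One

variable {t : Tops P} {lo hi : ℕ → ℕ} {e : ℕ → ℕ → P}

/-- a double of the last level of a stair-like strip: only next to the diagonal is there a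
pendant, at most one -/
theorem sd_stair_pen (h : Wd.NJ P r j) (hj : 6 ≤ j) (C : Comp j (t : P) lo hi e)
    (S : StairShape j lo hi) {x z : P} (hx : lev x = j) (hxt : x ≤ (t : P))
    (hx2 : (Win.uc x).card = 2) (hP : Pend z x) :
    (ccoord lo hi e x).2 = (ccoord lo hi e x).1 + 1 ∧ ∀ z', Pend z' x → z' = z := by
  classical
  obtain ⟨n, rfl⟩ : ∃ n, j = n + 2 := ⟨j - 2, by omega⟩
  have H := h.g.H
  have hgo : Win.GoodTo P r ((n + 1) + 1) := h.g
  have C' : Comp ((n + 1) + 1) (t : P) lo hi e := C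
  have S' : StairShape ((n + 1) + 1) lo hi := S
  obtain ⟨n1, n2⟩ := stairShape_co C' S'
  obtain ⟨s, h1, h2, h3⟩ := C.surj x hxt (by omega)
  rw [hx] at h1 h2 h3
  have hS := (Win.near_level' hgo (by omega)).2 t lo hi e t.2 C'.toWin
  have h4 := C'.toWin.uc_two hgo t.2 (k := n + 1) (by omega) h1 h2
  have h3' : e (n + 1 + 1) s = x := h3
  rw [h3'] at h4
  have h5 := h4.mp hx2
  have hpen : ∀ w, Pend w x → w ∈ Win.pen (e (n + 1 + 1) s) := by
    intro w hw
    rw [Win.mem_pen, h3']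
    refine ⟨hw.1, ?_⟩
    rw [Finset.card_eq_one]
    refine ⟨x, ?_⟩
    ext y
    rw [Win.mem_uc, mem_singleton]
    exact ⟨hw.2 y, fun h => h ▸ hw.1⟩
  have hne : (Win.pen (e (n + 1 + 1) s)).card ≠ 0 := by
    intro h0
    rw [Finset.card_eq_zero] at h0
    have := hpen z hP
    rw [h0] at this
    exact absurd this (Finset.notMem_empty _)
  have hs : scoord lo hi e x = s := by
    have := scoord_e C (k := n + 2) (s := s) le_rfl h1 h2
    rw [h3] at this
    exact this
  have hcc : ccoord lo hi e x = (s, n + 2 - s) := by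
    unfold ccoord
    rw [hs, hx]
  constructor
  · rcases stairShape_pendant hgo (by omega) t.2 C' S' hx hxt hx2 hP.1 hP.2 with h6 | h6
    · exact h6
    · exfalso
      rw [hcc] at h6
      simp only at h6
      have e1 := S.hi n (by omega)
      have e2 := S.lo n (by omega)
      have e3 := S.lo (n + 1) (by omega)
      have e3' : lo (n + 2) = 0 ∨ lo (n + 2) = lo (n + 1) + 1 := e3
      have e4 := C.lo_step n (by omega)
      have e5 := C.lo_step (n + 1) (by omega)
      have e5' : lo (n + 2) = lo (n + 1) ∨ lo (n + 2) = lo (n + 1) + 1 := e5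
      have h7 := h.pen_three (i := n) (by omega) le_rfl C (a := s) (by omega) (by omega)
      have h7' : Win.pen (e (n + 1 + 1) s) = ∅ := h7
      rw [h7'] at hne
      exact hne Finset.card_empty
  · have hone : (Win.pen (e (n + 1 + 1) s)).card = 1 := by
      rcases hS with ⟨-, -, h8⟩ | ⟨h8, -⟩ | ⟨h8, -, b, hb, h9⟩
      · exact absurd (h8 s h5.1 h5.2) hne
      · exact absurd h8 n1
      · have h10 := h9 s h5.1 h5.2
        split_ifs at h10 with h11
        · exact h10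
        · exact absurd h10 hne
    intro z' hP'
    obtain ⟨w, hw⟩ := Finset.card_eq_one.mp hone
    have e1 := hpen z hP
    have e2 := hpen z' hP'
    rw [hw, mem_singleton] at e1 e2
    rw [e1, e2]

/-- the types of one component at window 2 -/
inductive TyS2 (j : ℕ) (t : Tops P) (b : ℕ) (N : Finset P) (θ : P → ℕ) : Prop
  | light (h1 : N = onlyB t) (h2 : θ = fun x => lev x - 2) (h3 : b = 1)
      (h6 : ∃ x ≤ (t : P), lev x = 2)
  | rect (Nc : Finset P) (co : P → ℕ × ℕ) (h0 : RectNat j 2 t b Nc co)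
      (h1 : N = natR Nc co) (h2 : θ = thR 2 b Nc co)
      (pen : ∀ x z : P, x ≤ (t : P) → lev x = j → (Win.uc x).card = 2 → ¬ Pend z x)
      (nrt : ∀ z x x' : P, x ≤ (t : P) → lev z = j + 1 → z ⋖ x → z ⋖ x' → x ≠ x' →
        ucv x x' = 1)
  | stair (Nc : Finset P) (co : P → ℕ × ℕ) (h0 : StairNat j 2 t Nc co)
      (h1 : N = natS Nc co) (h2 : θ = thS 2 Nc co) (h3 : b = 2)
      (pen : ∀ x z : P, x ≤ (t : P) → lev x = j → (Win.uc x).card = 2 → Pend z x →
        (co x).2 = (co x).1 + 1 ∧ ∀ z', Pend z' x → z' = z)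

lemma TyS2.ty2 {N : Tops P → Finset P} {t : Tops P} {b : ℕ} {θ : P → ℕ}
    (h : TyS2 j t b (N t) θ) : Ty2 j N t b θ := by
  rcases h with ⟨h1, h2, h3, h6⟩ | ⟨Nc, co, h0, h1, h2, h3, h4⟩ | ⟨Nc, co, h0, h1, h2, h3, h4⟩
  · exact Ty2.light h1 h2 h3 h6
  · exact Ty2.rect Nc co h0 h1 h2 h3 h4
  · exact Ty2.stair Nc co h0 h1 h2 h3 h4

/-- the data of a stair-like strip -/
def StI2 (j : ℕ) (t : Tops P) (lo hi : ℕ → ℕ) (e : ℕ → ℕ → P) (N : Finset P)
    (θ : P → ℕ) : Prop :=
  ∃ Nc co, StairNat j 2 t Nc co ∧ N = natS Nc co ∧ θ = thS 2 Nc co ∧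
    ∀ x ∈ lowPart j (t : P), co x = ccoord lo hi e x

/-- the type of a strip -/
theorem sd_type (h : Wd.NJ P r j) (hj : 6 ≤ j) (C : Comp j (t : P) lo hi e)
    (hS : Wd.Shape j lo hi) (h6 : j = 6 → ¬ Wd.F1 lo hi)
    (hrot : RectShape j lo hi → lo 1 ≠ hi 1 → ∀ z x x' : P, x ≤ (t : P) → lev z = j + 1 →
      z ⋖ x → z ⋖ x' → x ≠ x' → ucv x x' = 1) :
    ∃ N θ, TyS2 j t (hi 2 - lo 2 + 1) N θ ∧ (StairShape j lo hi → StI2 j t lo hi e N θ) := by
  have H := h.g.H
  have hg := h.g.good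
  have hlight : lo 2 = hi 2 → TyS2 j t (hi 2 - lo 2 + 1) (onlyB t) (fun x => lev x - 2) := by
    intro h1
    exact TyS2.light rfl rfl (by omega)
      ⟨e 2 (lo 2), C.le_t 2 (lo 2) (by omega) le_rfl (C.lo_le 2 (by omega)),
        C.lev_e 2 (lo 2) (by omega) le_rfl (C.lo_le 2 (by omega))⟩
  by_cases S : StairShape j lo hi
  · obtain ⟨Nc, co, h1, h1'⟩ := exists_stair C H hg H.gradedBelow S (i := 2) (by omega)
    refine ⟨_, _, TyS2.stair Nc co h1 rfl rfl ?_ ?_, fun _ => ⟨Nc, co, h1, rfl, rfl, h1'⟩⟩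
    · have e1 := S.hi 2 (by omega)
      have h0 : lo 2 = 0 := by
        by_contra hcon
        have e1 := shape_lo C S.lo (l := 2) (by omega) 2 (by omega)
        have e2 := S.hi (2 + 2) (by omega)
        have e3 := C.lo_le (2 + 2) (by omega)
        omega
      omega
    · intro x z hxt hlx hx2 hP
      obtain ⟨g1, g2⟩ := sd_stair_pen h hj C S hlx hxt hx2 hP
      rw [h1' x (mem_lowPart.mpr ⟨hxt, by omega⟩)]
      exact ⟨g1, g2⟩
  · suffices hs : ∃ N θ, TyS2 j t (hi 2 - lo 2 + 1) N θ by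
      obtain ⟨N, θ, h1⟩ := hs
      exact ⟨N, θ, h1, fun h2 => absurd h2 S⟩
    rcases hS with h1 | ⟨h1, S'⟩ | ⟨h1, h2⟩ | ⟨h1, h2, h3⟩ | ⟨h1, h2⟩ | ⟨a, h0, h1, h2, h3, hN, h4⟩
    · have e1 := h1 2 (by omega)
      exact ⟨_, _, hlight (by omega)⟩
    · have hlt : lo 2 < hi 2 := by
        by_contra hcon
        have g3 := C.lo_le 2 (by omega)
        have g1 := C.lo_mono (l := 1) (d := 1) (by omega)
        have g2 := C.hi_mono (l := 1) (d := 1) (by omega)
        rw [show 1 + 1 = 2 from rfl] at g1 g2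
        have g4 := shape_lo C S'.lo (l := 2) (by omega) 2 (by omega)
        have g5 := shape_hi C S'.hi (l := 2) (by omega) 2 (by omega)
        have g6 := C.lo_le (2 + 2) (by omega)
        omega
      obtain ⟨Nc, co, h2, -⟩ := exists_rect C H hg H.gradedBelow S' (i := 2) (by omega) hlt
      refine ⟨_, _, TyS2.rect Nc co h2 rfl rfl ?_ (hrot S' (by omega))⟩
      intro x z hxt hxl hx2 hP
      obtain ⟨i, rfl⟩ : ∃ i, j = i + 1 := ⟨j - 1, by omega⟩
      exact rectShape_no_pendant (i := i) h.g (by omega) t.2 C S' hxl hxt hx2 hP.1 hP.2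
    · exact absurd h2 S
    · omega
    · exact absurd h2 (h6 h1)
    · have e1 := h2 2 (by omega)
      exact ⟨_, _, hlight (by omega)⟩

end One

section All

variable {lo hi : Tops P → ℕ → ℕ} {e : Tops P → ℕ → ℕ → P}

/-- the context -/
theorem exists_W2 (h : Wd.NJ P r j) (hj : 6 ≤ j)
    (C : ∀ t : Tops P, Comp j (t : P) (lo t) (hi t) (e t))
    (hS : ∀ t, Wd.Shape j (lo t) (hi t)) (h6 : j = 6 → ∀ t, ¬ Wd.F1 (lo t) (hi t)) :
    ∃ N θ, W2 r j N (fun t => hi t 2 - lo t 2 + 1) θ ∧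
      ∀ t, StairShape j (lo t) (hi t) → StI2 j t (lo t) (hi t) (e t) (N t) (θ t) := by
  classical
  have hT : ∀ t : Tops P, lo t 1 = hi t 1 ∨ RectShape j (lo t) (hi t) := by
    intro t
    rcases hS t with h1 | ⟨h1, S'⟩ | ⟨h1, h2⟩ | ⟨h1, h2, h3⟩ | ⟨h1, h2⟩ | ⟨a, h0, h1, h2, h3, hN, h4⟩
    · left
      have e1 := h1 1 (by omega)
      omega
    · exact Or.inr S'
    · left
      have e1 := h2.hi 1 (by omega)
      have e2 := (C t).lo_le 1 (by omega)
      omega
    · omega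
    · exact absurd h2 (h6 h1 t)
    · left
      have e1 := h2 1 (by omega)
      omega
  choose N θ hty hI using fun t => sd_type h hj (C t) (hS t) (fun q => h6 q t)
    (fun _ hne z x x' hxt hlz hzx hzx' hxx => rect_no_rotation h.g (by omega) h.no C hT hne hlz
      (hzx.1.le.trans hxt) hzx hzx' hxx)
  refine ⟨N, θ, ⟨h.g, hj, fun t => (hty t).ty2, ?_, h.no⟩, hI⟩
  exact (card_level h.g.H h.g.good C (i := 2) (by omega)).symm

end All

end Pool.Agent.GaussPoset
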